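import Pool.Agent.Lib.MP_a4c1f4_lc.Defs

set_option linter.all false

/-!
# The colouring of the cells

A net is chosen greedily by decreasing mass, where the mass of a point is the number of points in the
ball of radius `rho / 8`. The cell of a point is given by the heaviest net point at distance at
most `2 rho`. The class `i` of a net point is the least `i` such that the ball of radius
`77 rho` has at most `2 ^ i` times its mass. At most `2 ^ i` net points of class `i` are within
`38 rho` of a net point of class `i`, so the net points of class `i` can be coloured greedily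
with `2 ^ i` colours.
-/

namespace Pool.Agent.MP_a4c1f4_lc.Snow

open Finset Pool.Agent.MP_a4c1f4_lc

theorem net_exists {S : Type} [DecidableEq S] (E : S → S → ℝ) (hE : PM E) (a : S → ℕ) (r0 : ℝ)
    (hr : 0 ≤ r0) (P : Finset S) :
    ∃ Z : Finset S, Z ⊆ P ∧ (∀ x ∈ Z, ∀ y ∈ Z, x ≠ y → r0 < E x y) ∧
      ∀ x ∈ P, ∃ y ∈ Z, E x y ≤ r0 ∧ a x ≤ a y := by
  classical
  induction P using Finset.strongInduction with
  | H P ih =>
    rcases P.eq_empty_or_nonempty with h | h
    · subst h
      exact ⟨∅, Subset.refl _, by simp, by simp⟩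
    · obtain ⟨x0, hx0, hmax⟩ := exists_max_image P a h
      have hss : P.filter (fun x => r0 < E x x0) ⊂ P := by
        refine (ssubset_iff_of_subset (filter_subset _ _)).2 ⟨x0, hx0, ?_⟩
        rw [mem_filter, hE.self]
        rintro ⟨-, h⟩
        linarith
      obtain ⟨Z', hZ1, hZ2, hZ3⟩ := ih _ hss
      refine ⟨insert x0 Z', ?_, ?_, ?_⟩
      · intro x hx
        rcases mem_insert.1 hx with rfl | hx'
        · exact hx0
        · exact (mem_filter.1 (hZ1 hx')).1
      · intro x hx y hy hxy
        rcases mem_insert.1 hx with hxe | hx'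
        · rcases mem_insert.1 hy with hye | hy'
          · exact absurd (hxe.trans hye.symm) hxy
          · have := (mem_filter.1 (hZ1 hy')).2
            rw [hxe, hE.symm]
            exact this
        · rcases mem_insert.1 hy with hye | hy'
          · rw [hye]
            exact (mem_filter.1 (hZ1 hx')).2
          · exact hZ2 x hx' y hy' hxy
      · intro x hx
        by_cases h' : r0 < E x x0
        · obtain ⟨y, hy, h1, h2⟩ := hZ3 x (mem_filter.2 ⟨hx, h'⟩)
          exact ⟨y, mem_insert_of_mem hy, h1, h2⟩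
        · exact ⟨x0, mem_insert_self _ _, not_lt.1 h', hmax x hx⟩

theorem greedy {S : Type} [DecidableEq S] (R : S → S → Prop) [DecidableRel R]
    (hrefl : ∀ x, R x x) (hsymm : ∀ x y, R x y → R y x) (D : ℕ) (P : Finset S)
    (hD : ∀ x ∈ P, (P.filter (fun y => R x y)).card ≤ D) :
    ∃ f : S → ℕ, (∀ x ∈ P, f x < D) ∧ ∀ x ∈ P, ∀ y ∈ P, x ≠ y → R x y → f x ≠ f y := by
  induction P using Finset.induction_on with
  | empty => exact ⟨fun _ => 0, by simp, by simp⟩
  | insert x P hx ih =>
    obtain ⟨f, hf1, hf2⟩ := ih fun y hy => by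
      refine le_trans (card_le_card ?_) (hD y (mem_insert_of_mem hy))
      exact filter_subset_filter _ (subset_insert _ _)
    have h1 : ((P.filter (fun y => R x y)).image f).card < D := by
      have h2 := hD x (mem_insert_self _ _)
      rw [filter_insert, if_pos (hrefl x), card_insert_of_notMem (by simp [hx])] at h2
      have h3 : ((P.filter (fun y => R x y)).image f).card ≤ (P.filter (fun y => R x y)).card :=
        card_image_le
      omega
    obtain ⟨c, hc1, hc2⟩ : ∃ c ∈ range D, c ∉ (P.filter (fun y => R x y)).image f := by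
      by_contra hcon
      push Not at hcon
      have : range D ⊆ (P.filter (fun y => R x y)).image f := hcon
      have := card_le_card this
      rw [card_range] at this
      omega
    have hne : ∀ y, y ∈ P → y ≠ x := by
      intro y hy h
      rw [h] at hy
      exact hx hy
    refine ⟨Function.update f x c, ?_, ?_⟩
    · intro y hy
      rcases mem_insert.1 hy with hye | hy'
      · rw [hye, Function.update_self]
        exact mem_range.1 hc1
      · rw [Function.update_of_ne (hne y hy')]
        exact hf1 y hy'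
    · intro y hy z hz hyz hR
      rcases mem_insert.1 hy with hye | hy'
      · rcases mem_insert.1 hz with hze | hz'
        · exact absurd (hye.trans hze.symm) hyz
        · rw [hye, Function.update_self, Function.update_of_ne (hne z hz')]
          intro h
          rw [hye] at hR
          exact hc2 (mem_image.2 ⟨z, mem_filter.2 ⟨hz', hR⟩, h.symm⟩)
      · rcases mem_insert.1 hz with hze | hz'
        · rw [hze, Function.update_self, Function.update_of_ne (hne y hy')]
          intro h
          rw [hze] at hR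
          exact hc2 (mem_image.2 ⟨y, mem_filter.2 ⟨hy', hsymm _ _ hR⟩, h⟩)
        · rw [Function.update_of_ne (hne y hy'), Function.update_of_ne (hne z hz')]
          exact hf2 y hy' z hz' hyz hR

open Classical in
theorem nb_mono {S : Type} [Fintype S] {E : S → S → ℝ} (hE : PM E) {R R' : ℝ} {x y : S}
    (h : E x y + R ≤ R') : nb E R x ≤ nb E R' y := by
  unfold nb
  apply card_le_card
  intro w hw
  rw [mem_filter] at hw ⊢
  have := hE.tri w x y
  exact ⟨hw.1, by linarith [hw.2]⟩

open Classical in
theorem nb_pos {S : Type} [Fintype S] {E : S → S → ℝ} (hE : PM E) {R : ℝ} (hR : 0 ≤ R) (x : S) :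
    0 < nb E R x := by
  unfold nb
  apply card_pos.2
  refine ⟨x, mem_filter.2 ⟨mem_univ _, ?_⟩⟩
  rw [hE.self]
  exact hR

open Classical in
theorem nb_le_card {S : Type} [Fintype S] (E : S → S → ℝ) (R : ℝ) (x : S) :
    nb E R x ≤ Fintype.card S := by
  unfold nb
  exact card_le_univ _

open Classical in
theorem color {S : Type} [Fintype S] [Nonempty S] (E : S → S → ℝ) (hE : PM E)
    (rho : ℝ) (hrho : 0 < rho) :
    ∃ χ : S → Fin (4 * Fintype.card S),
      (∀ x x', χ x = χ x' → E x x' ≤ 4 * rho ∨ 34 * rho < E x x') ∧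
      ∀ r x, E r x ≤ rho →
        2 ^ (Nat.log 2 ((χ x : ℕ) + 1)) * nb E (rho / 8) r ≤ 2 * nb E (80 * rho) r := by
  set a : S → ℕ := fun x => nb E (rho / 8) x with ha
  set A : S → ℕ := fun x => nb E (77 * rho) x with hA
  have ha1 : ∀ x, 0 < a x := fun x => nb_pos hE (by linarith) x
  have haA : ∀ x, a x ≤ A x := fun x => nb_mono hE (by rw [hE.self]; linarith)
  have hex : ∀ x, ∃ i : ℕ, A x ≤ 2 ^ i * a x := by
    intro x
    refine ⟨A x, ?_⟩
    have h1 : A x < 2 ^ A x := Nat.lt_two_pow_self
    have h2 := ha1 x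
    nlinarith
  set cls : S → ℕ := fun x => Nat.find (hex x) with hcls
  have hcls1 : ∀ x, A x ≤ 2 ^ cls x * a x := fun x => Nat.find_spec (hex x)
  have hcls2 : ∀ x, 2 ^ cls x * a x ≤ 2 * A x := by
    intro x
    rcases Nat.eq_zero_or_pos (cls x) with h | h
    · rw [h, pow_zero, one_mul]
      have := haA x
      omega
    · have h1 : ¬ A x ≤ 2 ^ (cls x - 1) * a x := Nat.find_min (hex x) (by
        have : cls x - 1 < cls x := by omega
        exact this)
      have h2 : 2 ^ cls x = 2 * 2 ^ (cls x - 1) := by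
        rw [← pow_succ']
        congr 1
        omega
      rw [h2]
      push Not at h1
      nlinarith
  obtain ⟨Z, -, hZsep, hZcov⟩ := net_exists E hE a (rho / 4) (by linarith) univ
  -- the centre map
  have hz : ∀ w, ∃ z ∈ Z, E z w ≤ 2 * rho ∧ ∀ y ∈ Z, E y w ≤ 2 * rho → a y ≤ a z := by
    intro w
    obtain ⟨y, hy, h1, h2⟩ := hZcov w (mem_univ _)
    obtain ⟨z, hz, hmax⟩ := exists_max_image (Z.filter (fun y => E y w ≤ 2 * rho)) a
      ⟨y, mem_filter.2 ⟨hy, by rw [hE.symm]; linarith⟩⟩
    rw [mem_filter] at hz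
    exact ⟨z, hz.1, hz.2, fun y hy hyw => hmax y (mem_filter.2 ⟨hy, hyw⟩)⟩
  choose z hzZ hzd hzmax using hz
  have hmass : ∀ r w, E r w ≤ rho → a r ≤ a (z w) := by
    intro r w hrw
    obtain ⟨y, hy, h1, h2⟩ := hZcov r (mem_univ _)
    have h3 : E y w ≤ 2 * rho := by
      have := hE.tri y r w
      have := hE.symm y r
      linarith
    exact h2.trans (hzmax w y hy h3)
  -- few net points of the same class nearby
  have hfew : ∀ i, ∀ x ∈ Z.filter (fun y => cls y = i),
      ((Z.filter (fun y => cls y = i)).filter (fun y => E x y ≤ 38 * rho)).card ≤ 2 ^ i := by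
    intro i x hx
    set Q := (Z.filter (fun y => cls y = i)).filter (fun y => E x y ≤ 38 * rho) with hQ
    have hQm : ∀ y ∈ Q, y ∈ Z ∧ cls y = i ∧ E x y ≤ 38 * rho := by
      intro y hy
      rw [hQ, mem_filter, mem_filter] at hy
      exact ⟨hy.1.1, hy.1.2, hy.2⟩
    set b : ℕ := nb E (38 * rho + rho / 8) x with hb
    have hb1 : 0 < b := nb_pos hE (by linarith) x
    have hsum : ∑ y ∈ Q, a y ≤ b := by
      have hdis : (Q : Set S).PairwiseDisjoint
          (fun y => (univ : Finset S).filter (fun w => E w y ≤ rho / 8)) := by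
        intro y hy y' hy' hne
        rw [Function.onFun, Finset.disjoint_left]
        intro w hw hw'
        rw [mem_filter] at hw hw'
        have h1 := hZsep y (hQm y hy).1 y' (hQm y' hy').1 hne
        have h2 := hE.tri y w y'
        have h3 := hE.symm y w
        linarith [hw.2, hw'.2]
      have e : ∑ y ∈ Q, a y =
          (Q.biUnion (fun y => (univ : Finset S).filter (fun w => E w y ≤ rho / 8))).card :=
        (card_biUnion hdis).symm
      rw [e, hb]
      unfold nb
      apply card_le_card
      intro w hw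
      rw [mem_biUnion] at hw
      obtain ⟨y, hy, hw⟩ := hw
      rw [mem_filter] at hw ⊢
      have h2 := hE.tri w y x
      have h3 := hE.symm y x
      have h4 := (hQm y hy).2.2
      exact ⟨mem_univ _, by linarith [hw.2]⟩
    have hle : ∀ y ∈ Q, b ≤ 2 ^ i * a y := by
      intro y hy
      have h1 : b ≤ A y := nb_mono hE (by linarith [(hQm y hy).2.2])
      have h2 := hcls1 y
      rw [(hQm y hy).2.1] at h2
      exact h1.trans h2
    have h1 : Q.card * b ≤ 2 ^ i * b := by
      calc Q.card * b = ∑ y ∈ Q, b := by rw [sum_const, smul_eq_mul]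
        _ ≤ ∑ y ∈ Q, 2 ^ i * a y := sum_le_sum hle
        _ = 2 ^ i * ∑ y ∈ Q, a y := by rw [mul_sum]
        _ ≤ 2 ^ i * b := Nat.mul_le_mul_left _ hsum
    exact Nat.le_of_mul_le_mul_right h1 hb1
  have hgreedy : ∀ i, ∃ f : S → ℕ, (∀ x ∈ Z.filter (fun y => cls y = i), f x < 2 ^ i) ∧
      ∀ x ∈ Z.filter (fun y => cls y = i), ∀ y ∈ Z.filter (fun y => cls y = i), x ≠ y →
        E x y ≤ 38 * rho → f x ≠ f y := by
    intro i
    refine greedy (fun x y => E x y ≤ 38 * rho) ?_ ?_ (2 ^ i) _ (hfew i)
    · intro x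
      rw [hE.self]
      linarith
    · intro x y hxy
      rw [hE.symm]
      exact hxy
  choose f hf1 hf2 using hgreedy
  have hzP : ∀ w, z w ∈ Z.filter (fun y => cls y = cls (z w)) := fun w =>
    mem_filter.2 ⟨hzZ w, rfl⟩
  have hlt : ∀ w, f (cls (z w)) (z w) < 2 ^ cls (z w) := fun w => hf1 _ _ (hzP w)
  have hbound : ∀ w, 2 ^ cls (z w) - 1 + f (cls (z w)) (z w) < 4 * Fintype.card S := by
    intro w
    have h1 := hlt w
    have h2 := hcls2 (z w)
    have h3 := ha1 (z w)
    have h4 : A (z w) ≤ Fintype.card S := nb_le_card _ _ _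
    have h5 : 2 ^ cls (z w) ≤ 2 ^ cls (z w) * a (z w) := Nat.le_mul_of_pos_right _ h3
    have h6 : 0 < Fintype.card S := Fintype.card_pos
    omega
  have hlog : ∀ w, Nat.log 2 (2 ^ cls (z w) - 1 + f (cls (z w)) (z w) + 1) = cls (z w) := by
    intro w
    have h1 := hlt w
    have h2 : 0 < 2 ^ cls (z w) := by positivity
    have h3 : 2 ^ cls (z w) - 1 + f (cls (z w)) (z w) + 1 =
        2 ^ cls (z w) + f (cls (z w)) (z w) := by omega
    rw [h3]
    apply Nat.log_eq_of_pow_le_of_lt_pow
    · omega
    · rw [pow_succ]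
      omega
  refine ⟨fun w => ⟨2 ^ cls (z w) - 1 + f (cls (z w)) (z w), hbound w⟩, ?_, ?_⟩
  · intro x x' hxx'
    have h1 : 2 ^ cls (z x) - 1 + f (cls (z x)) (z x) =
        2 ^ cls (z x') - 1 + f (cls (z x')) (z x') := by
      simpa using congrArg Fin.val hxx'
    have h2 : cls (z x) = cls (z x') := by
      rw [← hlog x, ← hlog x', h1]
    have h3 : f (cls (z x)) (z x) = f (cls (z x)) (z x') := by
      rw [h2] at h1 ⊢
      omega
    have t1 := hE.tri x (z x) x'
    have t2 := hE.symm x (z x)
    have d1 := hzd x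
    have d2 := hzd x'
    by_cases h4 : z x = z x'
    · left
      rw [h4] at t1 t2 d1
      linarith
    · right
      by_contra hcon
      push Not at hcon
      have h5 : E (z x) (z x') ≤ 38 * rho := by
        have t3 := hE.tri (z x) x (z x')
        have t4 := hE.tri x x' (z x')
        have t5 := hE.symm x' (z x')
        linarith
      exact hf2 (cls (z x)) (z x) (hzP x) (z x')
        (mem_filter.2 ⟨hzZ x', h2.symm⟩) h4 h5 h3
  · intro r x hrx
    simp only
    rw [hlog x]
    have h1 := hmass r x hrx
    have h2 := hcls2 (z x)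
    have h3 : A (z x) ≤ nb E (80 * rho) r := by
      apply nb_mono hE
      have t1 := hE.tri (z x) x r
      have t2 := hE.symm x r
      have d1 := hzd x
      linarith
    calc 2 ^ cls (z x) * nb E (rho / 8) r ≤ 2 ^ cls (z x) * a (z x) :=
          Nat.mul_le_mul_left _ h1
      _ ≤ 2 * A (z x) := h2
      _ ≤ 2 * nb E (80 * rho) r := Nat.mul_le_mul_left _ h3

end Pool.Agent.MP_a4c1f4_lc.Snow
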