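import Pool.Agent.Lib.MP_a4c1f4_lc.P9

set_option linter.all false

/-!
# Price windows

* `robust`: the price mass of a window changes by at most a factor `5` when the noise of the level
  changes;
* `bdry`: the prices of the cheap steps, for the boundary terms;
* `windowS`: weighted sums over the windows;
* `deltaSum`: the sum of the price masses of all the windows.
-/

namespace Pool.Agent.MP_a4c1f4_lc.Snow

open Finset Pool.Agent.MP_a4c1f4_lc

theorem robust (h1 : AsgBasicProp) (h2 : CapBasicProp) (h3 : CapInvProp)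
    {S T : Type} [Fintype T] [DecidableEq T] [Nonempty T] (σ : T → S) (D : S → S → ℝ)
    (β β' : S → ℝ) (θ R R' : ℝ) (loc : ℕ → T) (A : Finset ℕ) (hA : A.card ≤ Fintype.card T)
    (heq : ∀ r s, D r s ≤ θ → β r - β s = β' r - β' s)
    (hD : ∀ r s, D r s ≤ 2 * cst D β r s) (hD' : ∀ r s, D r s ≤ 2 * cst D β' r s)
    (hD3 : ∀ r s, cst D β' r s ≤ 3 / 2 * D r s)
    (hR0 : 0 ≤ R) (hRR : R ≤ R') (hR : 4 * R ≤ θ) :
    vR (asg (pull σ (cst D β')) loc) R' A - vR (asg (pull σ (cst D β')) loc) R A ≤
      5 * (vR (asg (pull σ (cst D β)) loc) R' A - vR (asg (pull σ (cst D β)) loc) R A) := by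
  classical
  have hinv := h3 S T σ D β β' θ R loc A hA heq hD hD' (by linarith)
  rw [← hinv]
  obtain ⟨E, hE, hv⟩ := (h2 (asg (pull σ (cst D β)) loc) R' A).1
  have hcard : (A \ E).card ≤ Fintype.card T := le_trans (card_le_card sdiff_subset) hA
  obtain ⟨f, hf, hfs⟩ := (h1 T (pull σ (cst D β)) loc (A \ E)).2 hcard
  set F : Finset ℕ := (A \ E).filter (fun i => θ < D (σ (loc i)) (σ (f i))) with hF
  have hFsub : F ⊆ A \ E := filter_subset _ _
  have hdisj : Disjoint E F := by
    rw [Finset.disjoint_left]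
    intro i hi hiF
    exact (mem_sdiff.1 (hFsub hiF)).2 hi
  have hE2 : E ∪ F ⊆ A := union_subset hE (hFsub.trans sdiff_subset)
  have hsd : A \ (E ∪ F) = (A \ E) \ F := by
    ext i
    simp only [mem_sdiff, mem_union, not_or]
    tauto
  have hub := (h2 (asg (pull σ (cst D β)) loc) R A).2.1 (E ∪ F) hE2
  have hf2 : Set.InjOn f ((A \ (E ∪ F) : Finset ℕ) : Set ℕ) := by
    rw [hsd]
    exact hf.mono (by exact_mod_cast sdiff_subset)
  have has := (h1 T (pull σ (cst D β)) loc (A \ (E ∪ F))).1 f hf2
  have hcardU : ((E ∪ F).card : ℝ) = (E.card : ℝ) + (F.card : ℝ) := by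
    rw [card_union_of_disjoint hdisj]
    push_cast
    ring
  have hsplit : ∀ c : T → T → ℝ, ∑ i ∈ A \ E, c (loc i) (f i) =
      ∑ i ∈ (A \ E) \ F, c (loc i) (f i) + ∑ i ∈ F, c (loc i) (f i) := by
    intro c
    rw [← sum_sdiff hFsub]
  have hsame : ∑ i ∈ (A \ E) \ F, pull σ (cst D β') (loc i) (f i) =
      ∑ i ∈ (A \ E) \ F, pull σ (cst D β) (loc i) (f i) := by
    apply sum_congr rfl
    intro i hi
    have hi1 := (mem_sdiff.1 hi).1
    have hi2 := (mem_sdiff.1 hi).2
    have hle : D (σ (loc i)) (σ (f i)) ≤ θ := by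
      by_contra hcon
      exact hi2 (mem_filter.2 ⟨hi1, not_le.1 hcon⟩)
    have hb := heq _ _ hle
    unfold pull cst
    linarith
  have hlong : ∀ i ∈ F, pull σ (cst D β') (loc i) (f i) - pull σ (cst D β) (loc i) (f i) ≤
      4 * (pull σ (cst D β) (loc i) (f i) - R) := by
    intro i hi
    have hi2 := (mem_filter.1 hi).2
    have a := hD (σ (loc i)) (σ (f i))
    have b := hD3 (σ (loc i)) (σ (f i))
    have e1 : pull σ (cst D β') (loc i) (f i) = cst D β' (σ (loc i)) (σ (f i)) := rfl
    have e2 : pull σ (cst D β) (loc i) (f i) = cst D β (σ (loc i)) (σ (f i)) := rfl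
    rw [e1, e2]
    linarith
  have hlongs : ∑ i ∈ F, pull σ (cst D β') (loc i) (f i) -
      ∑ i ∈ F, pull σ (cst D β) (loc i) (f i) ≤
      4 * (∑ i ∈ F, pull σ (cst D β) (loc i) (f i) - R * (F.card : ℝ)) := by
    have h := sum_le_sum hlong
    rw [sum_sub_distrib, ← mul_sum, sum_sub_distrib, sum_const, nsmul_eq_mul] at h
    linarith
  have hv' := (h2 (asg (pull σ (cst D β')) loc) R' A).2.1 E hE
  have has' := (h1 T (pull σ (cst D β')) loc (A \ E)).1 f hf
  have hfl : ∑ i ∈ A \ E, pull σ (cst D β) (loc i) (f i) =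
      asg (pull σ (cst D β)) loc (A \ E) := hfs
  have s1 := hsplit (pull σ (cst D β))
  have s2 := hsplit (pull σ (cst D β'))
  rw [hsd] at has hub
  rw [hcardU] at hub
  have hEn : 0 ≤ (R' - R) * (E.card : ℝ) := mul_nonneg (by linarith) (Nat.cast_nonneg _)
  nlinarith

/-- The cheap steps for the boundary terms. -/
theorem bdry (h1 : CapBasicProp) (h2 : CapMonoProp) (h3 : HaulProp)
    {S : Type} [Fintype S] [DecidableEq S] [Nonempty S] (N M : ℕ) (v : Finset ℕ → ℝ)
    (site : ℕ → S) (r : ℝ) (hV : Val N v) (hI : Inc N v) (hS : Sym site v) (h0 : v ∅ = 0)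
    (hM : M ≤ N) (hr : 0 < r) :
    ∑ t ∈ range M, ((v (range (t + 1)) - v (range t)) -
        (vR v (r / (8 * (Fintype.card S : ℝ))) (range (t + 1)) -
          vR v (r / (8 * (Fintype.card S : ℝ))) (range t))) *
        ind (v (range (t + 1)) - v (range t) ≤ 50 * r) ≤
      2 * (vR v (100 * (Fintype.card S : ℝ) * r) (range M) -
        vR v (r / (8 * (Fintype.card S : ℝ))) (range M)) := by
  obtain ⟨m, hm⟩ : ∃ m : ℝ, m = (Fintype.card S : ℝ) := ⟨_, rfl⟩
  have hm1 : 1 ≤ m := by
    rw [hm]
    exact_mod_cast Fintype.card_pos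
  have hm0 : 0 < m := by linarith
  rw [← hm]
  have hmr : r ≤ m * r := by nlinarith
  have hRR : r / (8 * m) ≤ 100 * m * r / 2 := by
    rw [div_le_iff₀ (by linarith)]
    nlinarith
  have hRR2 : r / (8 * m) ≤ 100 * m * r := by nlinarith
  have hfacts : ∀ t, t < M → (∀ R, 0 ≤ R → 0 ≤ P9UR v R t) ∧
      (∀ R R', R ≤ R' → P9UR v R t ≤ P9UR v R' t) ∧
      (∀ R, P9UR v R t ≤ P9U v t) ∧ 0 ≤ P9U v t := fun t ht =>
    P9_facts h2 hV hI (by omega)
  have hempty : ∀ R, vR v R ∅ = 0 := by
    intro R
    obtain ⟨E, hE, hv⟩ := (h1 v R ∅).1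
    have : E = ∅ := subset_empty.1 hE
    rw [hv, this]
    simp [h0]
  have second : ∑ t ∈ range M, ((P9U v t - P9UR v (100 * m * r) t) *
      ind (P9U v t ≤ 50 * r)) ≤
      vR v (100 * m * r) (range M) - vR v (100 * m * r / 2) (range M) := by
    have h5 := h3 S N M v site (100 * m * r) (50 * r) hV hI hS hM (by linarith)
      (by nlinarith)
    refine h5.trans (le_of_eq ?_)
    rw [← hm]
    field_simp
    ring
  have third : ∑ t ∈ range M, (P9UR v (100 * m * r) t - P9UR v (r / (8 * m)) t) =
      vR v (100 * m * r) (range M) - vR v (r / (8 * m)) (range M) := by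
    rw [sum_sub_distrib]
    unfold P9UR
    rw [sum_range_sub (fun t => vR v (100 * m * r) (range t)),
      sum_range_sub (fun t => vR v (r / (8 * m)) (range t)), range_zero, hempty, hempty]
    ring
  have split : ∀ t ∈ range M, ((v (range (t + 1)) - v (range t)) -
        (vR v (r / (8 * m)) (range (t + 1)) - vR v (r / (8 * m)) (range t))) *
        ind (v (range (t + 1)) - v (range t) ≤ 50 * r) ≤
      (P9UR v (100 * m * r) t - P9UR v (r / (8 * m)) t) +
        (P9U v t - P9UR v (100 * m * r) t) * ind (P9U v t ≤ 50 * r) := by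
    intro t ht
    obtain ⟨a, b, c, d⟩ := hfacts t (mem_range.1 ht)
    have hb := b _ _ hRR2
    have i0 := ind_nonneg (P9U v t ≤ 50 * r)
    have i1 := ind_le_one (P9U v t ≤ 50 * r)
    show (P9U v t - P9UR v (r / (8 * m)) t) * ind (P9U v t ≤ 50 * r) ≤ _
    nlinarith
  have hmono := (h1 v (r / (8 * m)) (range M)).2.2.2.1 _ hRR
  have hs := sum_le_sum split
  rw [sum_add_distrib, third] at hs
  linarith

/-- Weighted sums over the windows. -/
theorem windowS (h1 : CapBasicProp) (h2 : CapMonoProp) (h3 : HaulProp) (h4 : BlockProp)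
    {S : Type} [Fintype S] [DecidableEq S] [Nonempty S] (N M h n : ℕ) (v : Finset ℕ → ℝ)
    (site : ℕ → S) (rho : ℕ → ℝ) (W : ℕ → S → ℝ) (K : ℝ)
    (hV : Val N v) (hI : Inc N v) (hS : Sym site v) (h0 : v ∅ = 0) (hM : M ≤ N) (hn : 0 < n)
    (hpos : ∀ k, k < h → 0 < rho k) (hfour : ∀ k, k + 1 < h → 4 * rho k ≤ rho (k + 1))
    (hwin : ∀ k, k + n < h → 800 * (Fintype.card S : ℝ) ^ 2 * rho k ≤ rho (k + n))
    (hW : ∀ k s, 0 ≤ W k s) (hK : 0 ≤ K)
    (hblock : ∀ s b, ∑ k ∈ (range h).filter (fun k => k / n = b), W k s ≤ K) :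
    ∑ t ∈ range M, ∑ k ∈ range h, W k (site t) *
        (((v (range (t + 1)) - v (range t)) -
          (vR v (rho k / (8 * (Fintype.card S : ℝ))) (range (t + 1)) -
            vR v (rho k / (8 * (Fintype.card S : ℝ))) (range t))) *
          ind (v (range (t + 1)) - v (range t) ≤ 50 * rho k)) ≤
      3 * K * v (range M) := by
  obtain ⟨m, hm⟩ : ∃ m : ℝ, m = (Fintype.card S : ℝ) := ⟨_, rfl⟩
  have hm1 : 1 ≤ m := by
    rw [hm]
    exact_mod_cast Fintype.card_pos
  have hm0 : 0 < m := by linarith
  rw [← hm] at hwin ⊢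
  have hmono := P9_mono hpos hfour
  have hfacts : ∀ t, t < M → (∀ R, 0 ≤ R → 0 ≤ P9UR v R t) ∧
      (∀ R R', R ≤ R' → P9UR v R t ≤ P9UR v R' t) ∧
      (∀ R, P9UR v R t ≤ P9U v t) ∧ 0 ≤ P9U v t := fun t ht =>
    P9_facts h2 hV hI (by omega)
  have hvM : 0 ≤ v (range M) := P9_nonneg hI h0 _ (by simpa using hM)
  have hR0 : ∀ k, k < h → 0 ≤ rho k / (8 * m) := fun k hk =>
    div_nonneg (hpos k hk).le (by linarith)
  have hRR : ∀ k, k < h → rho k / (8 * m) ≤ 100 * m * rho k := by
    intro k hk
    have hp := hpos k hk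
    rw [div_le_iff₀ (by linarith)]
    have h5 : 1 ≤ m * m := by nlinarith
    nlinarith
  have first : ∀ t, t < M → ∑ k ∈ range h, W k (site t) *
      (P9UR v (100 * m * rho k) t - P9UR v (rho k / (8 * m)) t) ≤ 2 * K * P9U v t := by
    intro t ht
    obtain ⟨a, b, c, d⟩ := hfacts t ht
    refine h4 h n (fun k => W k (site t)) (fun k => P9UR v (100 * m * rho k) t)
      (fun k => P9UR v (rho k / (8 * m)) t) K (P9U v t) hn hK d (fun k _ => hW k _)
      (fun b => hblock (site t) b) ?_ ?_ ?_
    · intro k hk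
      exact ⟨a _ (hR0 k hk), b _ _ (hRR k hk), c _⟩
    · intro j k hjk hk
      have hle := hmono j k hjk hk
      constructor
      · apply b
        exact mul_le_mul_of_nonneg_left hle (by positivity)
      · apply b
        exact div_le_div_of_nonneg_right hle (by linarith)
    · intro k hk
      apply b
      rw [le_div_iff₀ (by linarith)]
      have := hwin k hk
      nlinarith
  have hWK : ∀ k s, k < h → W k s ≤ K := by
    intro k s hk
    refine le_trans ?_ (hblock s (k / n))
    exact single_le_sum (f := fun k => W k s) (fun k _ => hW k s)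
      (mem_filter.2 ⟨mem_range.2 hk, rfl⟩)
  have second : ∀ k, k < h → ∑ t ∈ range M, ((P9U v t - P9UR v (100 * m * rho k) t) *
      ind (P9U v t ≤ 50 * rho k)) ≤
      vR v (100 * m * rho k) (range M) - vR v (100 * m * rho k / 2) (range M) := by
    intro k hk
    have hp := hpos k hk
    have h5 := h3 S N M v site (100 * m * rho k) (50 * rho k) hV hI hS hM (by linarith)
      (by nlinarith)
    refine h5.trans (le_of_eq ?_)
    rw [← hm]
    field_simp
    ring
  have hvRnn : ∀ R, 0 ≤ R → 0 ≤ vR v R (range M) := by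
    intro R hR
    refine (h1 v R (range M)).2.2.2.2 hR fun B hB => P9_nonneg hI h0 B ?_
    have := card_le_card hB
    rw [card_range] at this
    omega
  have tele : ∑ k ∈ range h, (vR v (100 * m * rho k) (range M) -
      vR v (100 * m * rho k / 2) (range M)) ≤ v (range M) := by
    rcases Nat.eq_zero_or_pos h with hh | hh
    · subst hh
      rw [range_zero, sum_empty]
      exact hvM
    · obtain ⟨j, rfl⟩ : ∃ j, h = j + 1 := ⟨h - 1, by omega⟩
      refine (P9_tele (fun k => vR v (100 * m * rho k) (range M))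
        (fun k => vR v (100 * m * rho k / 2) (range M)) (j + 1) ?_ ?_ j (by omega)).trans
        (h1 v _ (range M)).2.2.1
      · intro k hk
        apply hvRnn
        have := hpos k hk
        positivity
      · intro k hk
        apply (h1 v _ (range M)).2.2.2.1
        have h6 := hfour k hk
        have h7 := hpos k (by omega)
        have h8 : 4 * (m * rho k) ≤ m * rho (k + 1) := by
          have := mul_le_mul_of_nonneg_left h6 hm0.le
          linarith
        have h9 : 0 < m * rho k := mul_pos hm0 h7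
        linarith
  have split : ∀ t, t < M → ∀ k, k < h → W k (site t) *
        (((v (range (t + 1)) - v (range t)) -
          (vR v (rho k / (8 * m)) (range (t + 1)) -
            vR v (rho k / (8 * m)) (range t))) *
          ind (v (range (t + 1)) - v (range t) ≤ 50 * rho k)) ≤
      W k (site t) * (P9UR v (100 * m * rho k) t - P9UR v (rho k / (8 * m)) t) +
      K * ((P9U v t - P9UR v (100 * m * rho k) t) * ind (P9U v t ≤ 50 * rho k)) := by
    intro t ht k hk
    obtain ⟨a, b, c, d⟩ := hfacts t ht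
    have hb := b _ _ (hRR k hk)
    have hc := c (100 * m * rho k)
    have hWn := hW k (site t)
    have hWK' := hWK k (site t) hk
    show W k (site t) * ((P9U v t - P9UR v (rho k / (8 * m)) t) *
      ind (P9U v t ≤ 50 * rho k)) ≤ _
    have e1 : (P9U v t - P9UR v (rho k / (8 * m)) t) * ind (P9U v t ≤ 50 * rho k) ≤
        (P9UR v (100 * m * rho k) t - P9UR v (rho k / (8 * m)) t) +
        (P9U v t - P9UR v (100 * m * rho k) t) * ind (P9U v t ≤ 50 * rho k) := by
      have i0 := ind_nonneg (P9U v t ≤ 50 * rho k)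
      have i1 := ind_le_one (P9U v t ≤ 50 * rho k)
      nlinarith
    have e2 : 0 ≤ (P9U v t - P9UR v (100 * m * rho k) t) * ind (P9U v t ≤ 50 * rho k) :=
      mul_nonneg (by linarith) (ind_nonneg _)
    calc W k (site t) * ((P9U v t - P9UR v (rho k / (8 * m)) t) *
          ind (P9U v t ≤ 50 * rho k)) ≤
        W k (site t) * ((P9UR v (100 * m * rho k) t - P9UR v (rho k / (8 * m)) t) +
        (P9U v t - P9UR v (100 * m * rho k) t) * ind (P9U v t ≤ 50 * rho k)) :=
          mul_le_mul_of_nonneg_left e1 hWn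
      _ = W k (site t) * (P9UR v (100 * m * rho k) t - P9UR v (rho k / (8 * m)) t) +
        W k (site t) * ((P9U v t - P9UR v (100 * m * rho k) t) *
          ind (P9U v t ≤ 50 * rho k)) := by ring
      _ ≤ _ := by
          have := mul_le_mul_of_nonneg_right hWK' e2
          linarith
  have hsumU : ∑ t ∈ range M, P9U v t = v (range M) := by
    unfold P9U
    rw [sum_range_sub (fun t => v (range t)), range_zero, h0, sub_zero]
  calc _ ≤ ∑ t ∈ range M, ∑ k ∈ range h, (W k (site t) *
        (P9UR v (100 * m * rho k) t - P9UR v (rho k / (8 * m)) t) +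
      K * ((P9U v t - P9UR v (100 * m * rho k) t) * ind (P9U v t ≤ 50 * rho k))) :=
        sum_le_sum fun t ht => sum_le_sum fun k hk =>
          split t (mem_range.1 ht) k (mem_range.1 hk)
    _ = ∑ t ∈ range M, ∑ k ∈ range h, W k (site t) *
        (P9UR v (100 * m * rho k) t - P9UR v (rho k / (8 * m)) t) +
      K * ∑ k ∈ range h, ∑ t ∈ range M,
        ((P9U v t - P9UR v (100 * m * rho k) t) * ind (P9U v t ≤ 50 * rho k)) := by
        simp only [sum_add_distrib]
        congr 1
        rw [sum_comm, mul_sum]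
        refine sum_congr rfl fun k _ => ?_
        rw [mul_sum]
    _ ≤ ∑ t ∈ range M, 2 * K * P9U v t + K * v (range M) := by
        apply add_le_add
        · exact sum_le_sum fun t ht => first t (mem_range.1 ht)
        · apply mul_le_mul_of_nonneg_left _ hK
          exact (sum_le_sum fun k hk => second k (mem_range.1 hk)).trans tele
    _ = 3 * K * v (range M) := by
        rw [← mul_sum, hsumU]
        ring

/-- The sum of the price masses of the windows. -/
theorem deltaSum (h1 : CapBasicProp) (h4 : BlockProp)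
    {m : ℝ} (hm1 : 1 ≤ m) (N M h n : ℕ) (v : Finset ℕ → ℝ)
    (rho : ℕ → ℝ) (hI : Inc N v) (h0 : v ∅ = 0) (hM : M ≤ N) (hn : 0 < n)
    (hpos : ∀ k, k < h → 0 < rho k) (hfour : ∀ k, k + 1 < h → 4 * rho k ≤ rho (k + 1))
    (hwin : ∀ k, k + n < h → 800 * m ^ 2 * rho k ≤ rho (k + n)) :
    ∑ k ∈ range h, (vR v (100 * m * rho k) (range M) - vR v (rho k / (8 * m)) (range M)) ≤
      2 * n * v (range M) := by
  have hm0 : 0 < m := by linarith
  have hmono := P9_mono hpos hfour
  have hvM : 0 ≤ v (range M) := P9_nonneg hI h0 _ (by simpa using hM)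
  have hvRnn : ∀ R, 0 ≤ R → 0 ≤ vR v R (range M) := by
    intro R hR
    refine (h1 v R (range M)).2.2.2.2 hR fun B hB => P9_nonneg hI h0 B ?_
    have := card_le_card hB
    rw [card_range] at this
    omega
  have hmonoR : ∀ R R', R ≤ R' → vR v R (range M) ≤ vR v R' (range M) := fun R R' h =>
    (h1 v R (range M)).2.2.2.1 R' h
  have hRR : ∀ k, k < h → rho k / (8 * m) ≤ 100 * m * rho k := by
    intro k hk
    have hp := hpos k hk
    rw [div_le_iff₀ (by linarith)]
    have h5 : 1 ≤ m * m := by nlinarith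
    nlinarith
  have := h4 h n (fun _ => 1) (fun k => vR v (100 * m * rho k) (range M))
    (fun k => vR v (rho k / (8 * m)) (range M)) n (v (range M)) hn (Nat.cast_nonneg _) hvM
    (fun k _ => zero_le_one) ?_ ?_ ?_ ?_
  · simpa using this
  · intro b
    rw [sum_const, nsmul_eq_mul, mul_one]
    have hsub : (range h).filter (fun k => k / n = b) ⊆ Ico (b * n) ((b + 1) * n) := by
      intro k hk
      rw [mem_filter, mem_range] at hk
      rw [mem_Ico]
      obtain ⟨-, rfl⟩ := hk
      constructor
      · exact Nat.div_mul_le_self k n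
      · have := Nat.lt_div_mul_add (a := k) hn
        rw [add_mul, one_mul]
        exact this
    have := card_le_card hsub
    rw [Nat.card_Ico] at this
    have e : (b + 1) * n - b * n = n := by
      rw [add_mul, one_mul]
      omega
    rw [e] at this
    exact_mod_cast this
  · intro k hk
    exact ⟨hvRnn _ (div_nonneg (hpos k hk).le (by linarith)), hmonoR _ _ (hRR k hk),
      (h1 v _ (range M)).2.2.1⟩
  · intro j k hjk hk
    have hle := hmono j k hjk hk
    constructor
    · apply hmonoR
      exact mul_le_mul_of_nonneg_left hle (by positivity)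
    · apply hmonoR
      exact div_le_div_of_nonneg_right hle (by linarith)
  · intro k hk
    apply hmonoR
    rw [le_div_iff₀ (by linarith)]
    have := hwin k hk
    nlinarith

end Pool.Agent.MP_a4c1f4_lc.Snow
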