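import Pool.Agent.Lib.MP_a4c1f4_lc.Snow.Level
import Pool.Agent.Lib.MP_a4c1f4_lc.Snow.Window

set_option linter.all false

/-!
# The theorem for the copies
-/

namespace Pool.Agent.MP_a4c1f4_lc.Snow

open Finset Pool.Agent.MP_a4c1f4_lc

section

variable {S T C : Type} [Fintype S] [DecidableEq S] [Nonempty S] [Fintype T] [DecidableEq T]
  [Nonempty T] [Fintype C] [LinearOrder C] {h : ℕ}

omit [DecidableEq S] in
/-- Expected cost of one step. -/
theorem stepS (hM : MonoProp) (hFar : FarProp) (hU : UsedProp) (hSt : StepProp) (hP : PotProp)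
    (hA : AbelProp)
    {n : ℕ} {D : S → S → ℝ} {E : ℕ → S → S → ℝ} {rho : ℕ → ℝ} {K lam : ℝ} {χ : ℕ → S → C}
    {u : C → ℝ} {W : ℕ → S → ℝ}
    (hLv : LvS D E rho h n K) (hCo : ColS E rho h χ u W) (hW : ∀ k s, 0 ≤ W k s)
    (hlam : 0 < lam) (hlam2 : lam ≤ 1 / 2) (hK : K * lam ≤ 1 / 2) {L : ℕ} (hL : 0 < L)
    (hTL : Fintype.card T ≤ L) (huL : ∀ c, u c ≤ L)
    (σ : T → S) (x : T) (l : List T) (hl : l.length + 1 ≤ Fintype.card T)
    (Cs : Fin h → (Fin h → C → ℕ) → ℝ)
    (hC1 : ∀ k G c j, (∀ k c, G k c ≤ L) → j ≤ L → Cs k (upG G k c j) = Cs k G)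
    (hC2 : ∀ k G, (∀ k c, G k c ≤ L) → Cs k G ≤ Ug σ D E lam rho L χ x l G) :
    Et (fun c => 1 - u c / L) (fun ω : Fin h × C → Fin L =>
        D (σ x) (σ (srv (pull σ (cst D (potG E lam rho L χ (gof ω)))) x l))) ≤
      32 / lam * ∑ k : Fin h, (Et (fun c => 1 - u c / L) (fun ω : Fin h × C → Fin L =>
          W k (σ x) * ((Ug σ D E lam rho L χ x l (gof ω) - Cs k (gof ω)) *
            ind (Ug σ D E lam rho L χ x l (gof ω) ≤ 50 * rho k)))
        + 2 * ∑ c, u c * Real.exp (- u c) * Et (fun c => 1 - u c / L)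
          (fun ω : Fin h × C → Fin L =>
            (Ug σ D E lam rho L χ x l (upG (gof ω) k c L) - Cs k (gof ω)) *
              ind (Ug σ D E lam rho L χ x l (upG (gof ω) k c L) ≤ 50 * rho k)))
      + h * (24 * optv (pull σ D) (x :: l) *
          ((2 / L * ∑ c, u c) * (1 + (Fintype.card T : ℝ)))) := by
  classical
  set q : C → ℝ := fun c => 1 - u c / L with hq
  have hqf : ∀ c, 0 ≤ q c ∧ q c ≤ 1 ∧ (q c) ^ L ≤ Real.exp (- u c) ∧
      1 / 2 ≤ 1 - (q c) ^ L ∧ (q c) ^ L ≠ 1 := fun c => q_facts hL (hCo.u1 c) (huL c)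
  have hq0 : ∀ c, 0 ≤ q c := fun c => (hqf c).1
  have hq1 : ∀ c, q c ≤ 1 := fun c => (hqf c).2.1
  have hqn : ∀ c, q c ^ L ≠ 1 := fun c => (hqf c).2.2.2.2
  have hLR : (0 : ℝ) < L := by exact_mod_cast hL
  have hDT0 : ∀ r s, 0 ≤ pull σ D r s := fun r s => hLv.pmD.nonneg _ _
  have hO0 : 0 ≤ optv (pull σ D) (x :: l) := (hM T (pull σ D) (x :: l)).2.1 hDT0
  have hu0 : 0 ≤ ∑ c, u c := sum_nonneg fun c _ => by linarith [hCo.u1 c]
  have hM0 : (0 : ℝ) ≤ (Fintype.card T : ℝ) := Nat.cast_nonneg _
  have hPMT : PM (pull σ D) := ⟨fun t => hLv.pmD.self _, fun t t' => hLv.pmD.symm _ _,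
    fun t t' t'' => hLv.pmD.tri _ _ _⟩
  -- distance to the server
  have hfar : ∀ ω : Fin h × C → Fin L,
      D (σ x) (σ (srv (pull σ (cst D (potG E lam rho L χ (gof ω)))) x l)) ≤
        6 * optv (pull σ D) (x :: l) := by
    intro ω
    have hc := costS hLv hlam.le hK hL χ (gof ω) (gof_le ω)
    set c : T → T → ℝ := pull σ (cst D (potG E lam rho L χ (gof ω))) with hcd
    have hc2 : ∀ r s, pull σ D r s ≤ 2 * c r s := fun r s => (hc (σ r) (σ s)).1
    have hc3 : ∀ r s, c r s ≤ 3 / 2 * pull σ D r s := fun r s => (hc (σ r) (σ s)).2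
    have hc0 : ∀ r s, 0 ≤ c r s := fun r s => by
      have := hc2 r s
      have := hDT0 r s
      linarith
    have h1 := hFar T (pull σ D) c x l hPMT hc0 hc2 hl
    have h2 := (hM T (pull σ D) (x :: l)).2.2 c (3 / 2) hc3 (by simpa using hl)
    have h3 : pull σ D x (srv c x l) = D (σ x) (σ (srv c x l)) := rfl
    rw [h3] at h1
    linarith
  -- decomposition into scales
  have hdec : ∀ ω : Fin h × C → Fin L,
      D (σ x) (σ (srv (pull σ (cst D (potG E lam rho L χ (gof ω)))) x l)) ≤
        ∑ k : Fin h, 32 * rho k * ind (Fg σ D E lam rho L χ x l k (gof ω)) := by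
    intro ω
    have hnn : ∀ k : Fin h, 0 ≤ 32 * rho k * ind (Fg σ D E lam rho L χ x l k (gof ω)) :=
      fun k => mul_nonneg (by have := hLv.pos k k.2; linarith) (ind_nonneg _)
    rcases hLv.cov (σ x) (σ (srv (pull σ (cst D (potG E lam rho L χ (gof ω)))) x l)) with
      h0 | ⟨k, hk, h1, h2⟩
    · rw [h0]
      exact sum_nonneg fun k _ => hnn k
    · refine le_trans ?_ (single_le_sum
        (f := fun k : Fin h => 32 * rho k * ind (Fg σ D E lam rho L χ x l k (gof ω)))
        (fun k _ => hnn k) (mem_univ (⟨k, hk⟩ : Fin h)))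
      have : ind (Fg σ D E lam rho L χ x l (⟨k, hk⟩ : Fin h) (gof ω)) = 1 := ind_true ⟨h1, h2⟩
      simp only [this, mul_one]
      exact h2.le
  have s1 : Et q (fun ω : Fin h × C → Fin L =>
        D (σ x) (σ (srv (pull σ (cst D (potG E lam rho L χ (gof ω)))) x l))) ≤
      ∑ k : Fin h, 32 * rho k * Et q (fun ω : Fin h × C → Fin L =>
        ind (Fg σ D E lam rho L χ x l k (gof ω))) := by
    refine (Et_mono hq0 hq1 hdec).trans (le_of_eq ?_)
    rw [Et_sum]
    exact sum_congr rfl fun k _ => Et_mul q _ _
  refine s1.trans ?_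
  rw [mul_sum]
  have e0 : (h : ℝ) * (24 * optv (pull σ D) (x :: l) *
          ((2 / L * ∑ c, u c) * (1 + (Fintype.card T : ℝ)))) =
      ∑ _k : Fin h, 24 * optv (pull σ D) (x :: l) *
          ((2 / L * ∑ c, u c) * (1 + (Fintype.card T : ℝ))) := by
    rw [sum_const, card_univ, Fintype.card_fin, nsmul_eq_mul]
  rw [e0, ← sum_add_distrib]
  apply sum_le_sum
  intro k _
  have hrk := hLv.pos k k.2
  have herr : 0 ≤ (2 / L * ∑ c, u c) * (1 + (Fintype.card T : ℝ)) := by positivity
  -- nonnegativity of the main terms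
  have hVnn : ∀ G : Fin h → C → ℕ, (∀ k c, G k c ≤ L) →
      0 ≤ (Ug σ D E lam rho L χ x l G - Cs k G) * ind (Ug σ D E lam rho L χ x l G ≤ 50 * rho k) :=
    fun G hG => mul_nonneg (by have := hC2 k G hG; linarith) (ind_nonneg _)
  have hA0 : 0 ≤ Et q (fun ω : Fin h × C → Fin L =>
          W k (σ x) * ((Ug σ D E lam rho L χ x l (gof ω) - Cs k (gof ω)) *
            ind (Ug σ D E lam rho L χ x l (gof ω) ≤ 50 * rho k))) :=
    Et_nonneg hq0 hq1 fun ω => mul_nonneg (hW _ _) (hVnn _ (gof_le ω))
  have hB0 : 0 ≤ ∑ c, u c * Real.exp (- u c) * Et q (fun ω : Fin h × C → Fin L =>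
            (Ug σ D E lam rho L χ x l (upG (gof ω) k c L) - Cs k (gof ω)) *
              ind (Ug σ D E lam rho L χ x l (upG (gof ω) k c L) ≤ 50 * rho k)) := by
    refine sum_nonneg fun c _ => mul_nonneg
      (mul_nonneg (by linarith [hCo.u1 c]) (Real.exp_pos _).le)
      (Et_nonneg hq0 hq1 fun ω => ?_)
    have := hVnn (upG (gof ω) k c L) (upG_le (gof_le ω) k c le_rfl)
    rw [hC1 k (gof ω) c L (gof_le ω) le_rfl] at this
    exact this
  by_cases hbig : 8 * rho k ≤ 6 * optv (pull σ D) (x :: l)
  · have h1 := level hU hSt hP hA hLv hCo hlam hlam2 hK hL hTL huL σ x l hl k (Cs k)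
      (fun G c j => hC1 k G c j) (hC2 k)
    have h2 := mul_le_mul_of_nonneg_left h1 (by positivity : 0 ≤ 32 * rho k)
    refine h2.trans ?_
    have h3 : 32 * rho k * ((2 / L * ∑ c, u c) * (1 + (Fintype.card T : ℝ))) ≤
        24 * optv (pull σ D) (x :: l) * ((2 / L * ∑ c, u c) * (1 + (Fintype.card T : ℝ))) :=
      mul_le_mul_of_nonneg_right (by linarith) herr
    rw [mul_add]
    apply add_le_add _ h3
    have e : 32 * rho k * (1 / (lam * rho k)) = 32 / lam := by field_simp
    rw [← mul_assoc, e]
  · have h1 : Et q (fun ω : Fin h × C → Fin L =>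
        ind (Fg σ D E lam rho L χ x l k (gof ω))) = 0 := by
      have : (fun ω : Fin h × C → Fin L => ind (Fg σ D E lam rho L χ x l k (gof ω))) =
          fun _ => 0 := by
        funext ω
        apply ind_false
        rintro ⟨h1, -⟩
        have := hfar ω
        linarith
      rw [this]
      unfold Et
      simp
    rw [h1, mul_zero]
    apply add_nonneg
    · apply mul_nonneg (by positivity)
      linarith
    · exact mul_nonneg (by linarith) herr

theorem lst_length (loc : ℕ → T) (t : ℕ) : (lst loc t).length = t := by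
  induction t with
  | zero => rfl
  | succ t ih => simp [lst, ih]

theorem coreS (hM : MonoProp) (hFar : FarProp) (hU : UsedProp) (hSt : StepProp) (hP : PotProp)
    (hA : AbelProp) (hAL : AsgListProp) (hAV : AsgValProp) (hAB : AsgBasicProp)
    (hCB : CapBasicProp) (hCM : CapMonoProp) (hCI : CapInvProp) (hHa : HaulProp)
    (hBl : BlockProp)
    {n : ℕ} {D : S → S → ℝ} {E : ℕ → S → S → ℝ} {rho : ℕ → ℝ} {K lam : ℝ} {χ : ℕ → S → C}
    {u : C → ℝ} {W : ℕ → S → ℝ}
    (hLv : LvS D E rho h n K) (hCo : ColS E rho h χ u W) (hW : ∀ k s, 0 ≤ W k s)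
    (KW : ℝ) (hKW : 0 ≤ KW)
    (hblock : ∀ s b, ∑ k ∈ (range h).filter (fun k => k / n = b), W k s ≤ KW)
    (hlam : 0 < lam) (hlam2 : lam ≤ 1 / 2) (hK : K * lam ≤ 1 / 2) (σ : T → S) :
    ∃ (Ω : Type) (_ : Fintype Ω) (w : Ω → ℝ) (c : Ω → T → T → ℝ),
      (∀ ω, 0 ≤ w ω) ∧ ∑ ω, w ω = 1 ∧
      ∀ l : List T, l.length ≤ Fintype.card T →
        ∑ ω, w ω * tcost (pull σ D) (c ω) l ≤
          (48 / lam * (3 * KW + 40 * n) + 1) * optv (pull σ D) l := by
  classical
  have hMpos : 0 < Fintype.card T := Fintype.card_pos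
  have hmpos : 0 < Fintype.card S := Fintype.card_pos
  set m : ℝ := (Fintype.card S : ℝ) with hm
  set M : ℝ := (Fintype.card T : ℝ) with hMM
  have hm1 : 1 ≤ m := by rw [hm]; exact_mod_cast hmpos
  have hM1 : 1 ≤ M := by rw [hMM]; exact_mod_cast hMpos
  have hm0 : 0 < m := by linarith
  have hu0 : ∀ c, 0 ≤ u c := fun c => by linarith [hCo.u1 c]
  have hus0 : 0 ≤ ∑ c, u c := sum_nonneg fun c _ => hu0 c
  -- the parameter `L`
  obtain ⟨L, hLdef⟩ : ∃ L : ℕ, (1 + M + ∑ c, u c + 48 * h * (∑ c, u c) * (1 + M) * M : ℝ) ≤ L :=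
    exists_nat_ge _
  have hbigM : 0 ≤ 48 * h * (∑ c, u c) * (1 + M) * M := by positivity
  have hLR : (0 : ℝ) < L := by linarith
  have hL : 0 < L := by exact_mod_cast hLR
  have hTL : Fintype.card T ≤ L := by
    have : M ≤ L := by linarith
    rw [hMM] at this
    exact_mod_cast this
  have huL : ∀ c, u c ≤ L := by
    intro c
    have : u c ≤ ∑ c, u c := single_le_sum (f := u) (fun c _ => hu0 c) (mem_univ c)
    linarith
  set q : C → ℝ := fun c => 1 - u c / L with hq
  have hqf : ∀ c, 0 ≤ q c ∧ q c ≤ 1 ∧ (q c) ^ L ≤ Real.exp (- u c) ∧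
      1 / 2 ≤ 1 - (q c) ^ L ∧ (q c) ^ L ≠ 1 := fun c => q_facts hL (hCo.u1 c) (huL c)
  have hq0 : ∀ c, 0 ≤ q c := fun c => (hqf c).1
  have hq1 : ∀ c, q c ≤ 1 := fun c => (hqf c).2.1
  have hqn : ∀ c, q c ^ L ≠ 1 := fun c => (hqf c).2.2.2.2
  have hDT0 : ∀ r s, 0 ≤ pull σ D r s := fun r s => hLv.pmD.nonneg _ _
  obtain ⟨Err, hErr⟩ : ∃ Err : ℝ, Err = h * (24 * ((2 / L * ∑ c, u c) * (1 + M))) := ⟨_, rfl⟩
  have hErr0 : 0 ≤ Err := by rw [hErr]; positivity
  have hErrM : Err * M ≤ 1 := by
    have e : Err * M = (48 * h * (∑ c, u c) * (1 + M) * M) / L := by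
      rw [hErr]
      field_simp
      ring
    rw [e, div_le_one hLR]
    linarith
  have hc : ∀ G : Fin h → C → ℕ, (∀ k c, G k c ≤ L) → ∀ r s,
      D r s ≤ 2 * cst D (potG E lam rho L χ G) r s ∧
      cst D (potG E lam rho L χ G) r s ≤ 3 / 2 * D r s := fun G hG r s =>
    costS hLv hlam.le hK hL χ G hG r s
  have hc0 : ∀ G : Fin h → C → ℕ, (∀ k c, G k c ≤ L) → ∀ r s,
      0 ≤ pull σ (cst D (potG E lam rho L χ G)) r s := fun G hG r s => by
    have h1 := (hc G hG (σ r) (σ s)).1
    have h2 := hDT0 r s
    simp only [pull] at h2 ⊢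
    linarith
  refine ⟨Fin h × C → Fin L, inferInstance, fun ω => ∏ p, tw (q p.2) L (ω p),
    fun ω => pull σ (cst D (potG E lam rho L χ (gof ω))), ?_, ?_, ?_⟩
  · intro ω
    exact Et_w_nonneg hq0 hq1 ω
  · have := Et_one (h := h) (L := L) hqn
    unfold Et at this
    simpa using this
  · intro l hl
    obtain ⟨loc, hloc⟩ := (hAL T).2 l
    have hopt : ∀ (c : T → T → ℝ) (t : ℕ), t ≤ Fintype.card T →
        asg c loc (range t) = optv c (lst loc t) := fun c t ht => (hAL T).1 c loc t ht
    let v : (Fin h → C → ℕ) → Finset ℕ → ℝ := fun G =>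
      asg (pull σ (cst D (potG E lam rho L χ G))) loc
    let Cs : ℕ → Fin h → (Fin h → C → ℕ) → ℝ := fun t k G =>
      vR (v G) (rho k / (8 * m)) (range (t + 1)) - vR (v G) (rho k / (8 * m)) (range t)
    have hUo : ∀ t G, t + 1 ≤ Fintype.card T →
        Ug σ D E lam rho L χ (loc t) (lst loc t) G = v G (range (t + 1)) - v G (range t) := by
      intro t G ht
      have h1 := hopt (pull σ (cst D (potG E lam rho L χ G))) (t + 1) ht
      have h2 := hopt (pull σ (cst D (potG E lam rho L χ G))) t (by omega)
      change _ = asg _ loc (range (t + 1)) - asg _ loc (range t)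
      rw [h1, h2]
      rfl
    have hVal : ∀ G, Val (Fintype.card T) (v G) := fun G => (hAV T _ loc).1
    have hInc : ∀ G, (∀ k c, G k c ≤ L) → Inc (Fintype.card T) (v G) := fun G hG =>
      (hAV T _ loc).2.1 (hc0 G hG)
    have hSym : ∀ G, Sym (fun t => σ (loc t)) (v G) := fun G => by
      refine (hAV T _ loc).2.2.1 S (fun t => σ (loc t)) ?_
      intro x y hxy t
      simp only [pull]
      rw [hxy]
    have hv0 : ∀ G, v G ∅ = 0 := fun G => (hAV T _ loc).2.2.2
    have hCinv : ∀ t, t + 1 ≤ Fintype.card T → ∀ (k : Fin h) (G : Fin h → C → ℕ) c j,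
        (∀ k c, G k c ≤ L) → j ≤ L → Cs t k (upG G k c j) = Cs t k G := by
      intro t ht k G c j hG hj
      have hrk := hLv.pos k k.2
      have h1 : ∀ A : Finset ℕ, A.card ≤ Fintype.card T →
          vR (v (upG G k c j)) (rho k / (8 * m)) A = vR (v G) (rho k / (8 * m)) A := by
        intro A hA
        refine hCI S T σ D (potG E lam rho L χ (upG G k c j)) (potG E lam rho L χ G)
          (rho k / (2 * m)) (rho k / (8 * m)) loc A hA ?_ (fun r s => (hc _ (upG_le hG k c hj) r s).1)
          (fun r s => (hc _ hG r s).1) ?_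
        · intro r s hrs
          exact pot_zero hLv hlam.le L χ G k c j r s hrs
        · have e : rho k / (2 * m) = 4 * (rho k / (8 * m)) := by
            field_simp
            ring
          have : 0 ≤ rho k / (8 * m) := by positivity
          linarith
      change vR (v (upG G k c j)) _ _ - vR (v (upG G k c j)) _ _ = _
      rw [h1 _ (by rw [Finset.card_range]; exact ht), h1 _ (by rw [Finset.card_range]; omega)]
    have hCU : ∀ t, t + 1 ≤ Fintype.card T → ∀ (k : Fin h) (G : Fin h → C → ℕ),
        (∀ k c, G k c ≤ L) → Cs t k G ≤ Ug σ D E lam rho L χ (loc t) (lst loc t) G := by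
      intro t ht k G hG
      have := (hCM (Fintype.card T) (v G) (range t) t (hVal G) Finset.notMem_range_self
        (by rw [Finset.card_range]; exact ht)).2.2 (rho k / (8 * m))
      rw [← Finset.range_add_one] at this
      rw [hUo t G ht]
      exact this
    -- the two parts of the cost
    let VV : ℕ → Fin h → (Fin h → C → ℕ) → ℝ := fun t k G =>
      ((v G (range (t + 1)) - v G (range t)) - Cs t k G) *
        ind (v G (range (t + 1)) - v G (range t) ≤ 50 * rho k)
    let Q : ℕ → (Fin h × C → Fin L) → ℝ := fun t ω =>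
      ∑ k : Fin h, (W k (σ (loc t)) * VV t k (gof ω) +
        2 * ∑ c, u c * Real.exp (- u c) * VV t k (upG (gof ω) k c L))
    have step : ∀ t, t + 1 ≤ Fintype.card T →
        Et q (fun ω : Fin h × C → Fin L =>
            D (σ (loc t)) (σ (srv (pull σ (cst D (potG E lam rho L χ (gof ω)))) (loc t)
              (lst loc t)))) ≤
          32 / lam * Et q (Q t) + Err * optv (pull σ D) (lst loc (t + 1)) := by
      intro t ht
      have h1 := stepS hM hFar hU hSt hP hA hLv hCo hW hlam hlam2 hK hL hTL huL σ (loc t)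
        (lst loc t) (by rw [lst_length]; exact ht) (Cs t)
        (fun k G c j hG hj => hCinv t ht k G c j hG hj) (fun k G hG => hCU t ht k G hG)
      refine h1.trans (le_of_eq ?_)
      have e1 : Et q (Q t) = ∑ k : Fin h, (Et q (fun ω : Fin h × C → Fin L =>
          W k (σ (loc t)) * ((Ug σ D E lam rho L χ (loc t) (lst loc t) (gof ω) -
            Cs t k (gof ω)) *
            ind (Ug σ D E lam rho L χ (loc t) (lst loc t) (gof ω) ≤ 50 * rho k)))
        + 2 * ∑ c, u c * Real.exp (- u c) * Et q
          (fun ω : Fin h × C → Fin L =>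
            (Ug σ D E lam rho L χ (loc t) (lst loc t) (upG (gof ω) k c L) -
              Cs t k (gof ω)) *
              ind (Ug σ D E lam rho L χ (loc t) (lst loc t) (upG (gof ω) k c L) ≤
                50 * rho k))) := by
        change Et q (fun ω => ∑ k : Fin h, (W k (σ (loc t)) * VV t k (gof ω) +
          2 * ∑ c, u c * Real.exp (- u c) * VV t k (upG (gof ω) k c L))) = _
        rw [Et_sum]
        refine sum_congr rfl fun k _ => ?_
        rw [Et_add, Et_mul, Et_mul, Et_sum]
        simp only [hUo t _ ht]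
        refine congrArg₂ (fun y z : ℝ => y + z) ?_ ?_
        · rw [← Et_mul]
        · refine congrArg (fun z : ℝ => 2 * z) ?_
          refine sum_congr rfl fun c _ => ?_
          rw [Et_mul]
          refine congrArg (fun z : ℝ => u c * Real.exp (- u c) * z) ?_
          refine congrArg (Et q) ?_
          funext ω
          have := hCinv t ht k (gof ω) c L (gof_le ω) le_rfl
          change ((v (upG (gof ω) k c L) (range (t + 1)) - v (upG (gof ω) k c L) (range t)) -
            Cs t k (upG (gof ω) k c L)) * _ = _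
          rw [this]
      rw [e1, hErr]
      change _ = _ + _ * optv (pull σ D) (loc t :: lst loc t)
      ring
    have main : ∀ t, t ≤ Fintype.card T →
        Et q (fun ω : Fin h × C → Fin L =>
            tcost (pull σ D) (pull σ (cst D (potG E lam rho L χ (gof ω)))) (lst loc t)) ≤
          32 / lam * Et q (fun ω => ∑ t' ∈ range t, Q t' ω)
            + t * Err * optv (pull σ D) (lst loc t) := by
      intro t
      induction t with
      | zero =>
        intro _
        have h1 : Et q (fun ω : Fin h × C → Fin L =>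
            tcost (pull σ D) (pull σ (cst D (potG E lam rho L χ (gof ω)))) (lst loc 0)) = 0 := by
          unfold Et
          exact Finset.sum_eq_zero fun ω _ => by simp [tcost, lst]
        have h2 : Et q (fun ω : Fin h × C → Fin L => ∑ t' ∈ range 0, Q t' ω) = 0 := by
          unfold Et
          exact Finset.sum_eq_zero fun ω _ => by simp
        rw [h1, h2]
        simp
      | succ t ih =>
        intro ht
        have ih' := ih (by omega)
        have hst := step t ht
        have e : Et q (fun ω : Fin h × C → Fin L =>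
            tcost (pull σ D) (pull σ (cst D (potG E lam rho L χ (gof ω)))) (lst loc (t + 1))) =
            Et q (fun ω : Fin h × C → Fin L =>
              tcost (pull σ D) (pull σ (cst D (potG E lam rho L χ (gof ω)))) (lst loc t)) +
            Et q (fun ω : Fin h × C → Fin L =>
              D (σ (loc t)) (σ (srv (pull σ (cst D (potG E lam rho L χ (gof ω)))) (loc t)
                (lst loc t)))) := by
          rw [← Et_add]
          rfl
        have e' : Et q (fun ω : Fin h × C → Fin L => ∑ t' ∈ range (t + 1), Q t' ω) =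
            Et q (fun ω : Fin h × C → Fin L => ∑ t' ∈ range t, Q t' ω) + Et q (Q t) := by
          rw [← Et_add]
          congr 1
          funext ω
          rw [Finset.sum_range_succ]
        rw [e, e']
        have hmono : optv (pull σ D) (lst loc t) ≤ optv (pull σ D) (lst loc (t + 1)) :=
          (hM T (pull σ D) (lst loc t)).1 hDT0 (loc t) (by rw [lst_length]; exact ht)
        have h3 : (t : ℝ) * Err * optv (pull σ D) (lst loc t) ≤
            (t : ℝ) * Err * optv (pull σ D) (lst loc (t + 1)) :=
          mul_le_mul_of_nonneg_left hmono (by positivity)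
        push_cast
        rw [mul_add]
        linarith
    have hO0 : 0 ≤ optv (pull σ D) l := (hM T (pull σ D) l).2.1 hDT0
    -- the value
    have hvle : ∀ G, (∀ k c, G k c ≤ L) → v G (range l.length) ≤ 3 / 2 * optv (pull σ D) l := by
      intro G hG
      have h4 : v G (range l.length) = optv (pull σ (cst D (potG E lam rho L χ G))) l := by
        have := hopt (pull σ (cst D (potG E lam rho L χ G))) l.length hl
        rw [hloc] at this
        exact this
      rw [h4]
      exact (hM T (pull σ D) l).2.2 _ (3 / 2) (fun r s => (hc G hG (σ r) (σ s)).2) hl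
    -- pointwise bound of the sum
    have hQp : ∀ ω : Fin h × C → Fin L, ∑ t ∈ range l.length, Q t ω ≤
        3 / 2 * (3 * KW + 40 * n) * optv (pull σ D) l := by
      intro ω
      have hG := gof_le ω
      -- first part
      have p1 : ∑ t ∈ range l.length, ∑ k : Fin h, W k (σ (loc t)) * VV t k (gof ω) ≤
          3 * KW * v (gof ω) (range l.length) := by
        have h1 := windowS hCB hCM hHa hBl (Fintype.card T) l.length h n (v (gof ω))
          (fun t => σ (loc t)) rho W KW (hVal _) (hInc _ hG) (hSym _) (hv0 _) hl hLv.npos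
          hLv.pos hLv.four hLv.win hW hKW hblock
        refine le_trans (le_of_eq ?_) h1
        refine sum_congr rfl fun t _ => ?_
        rw [Finset.sum_range]
      -- second part
      have p2 : ∀ (k : Fin h) (c : C), ∑ t ∈ range l.length, VV t k (upG (gof ω) k c L) ≤
          10 * (vR (v (gof ω)) (100 * m * rho k) (range l.length) -
            vR (v (gof ω)) (rho k / (8 * m)) (range l.length)) := by
        intro k c
        have hrk := hLv.pos k k.2
        have hG' := upG_le hG k c (le_refl L)
        have h1 := bdry hCB hCM hHa (Fintype.card T) l.length (v (upG (gof ω) k c L))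
          (fun t => σ (loc t)) (rho k) (hVal _) (hInc _ hG') (hSym _) (hv0 _) hl hrk
        have h2 := robust hAB hCB hCI σ D (potG E lam rho L χ (gof ω))
          (potG E lam rho L χ (upG (gof ω) k c L)) (rho k / (2 * m)) (rho k / (8 * m))
          (100 * m * rho k) loc (range l.length) (by rw [card_range]; exact hl)
          (fun r s hrs => (pot_zero hLv hlam.le L χ (gof ω) k c L r s hrs).symm)
          (fun r s => (hc _ hG r s).1) (fun r s => (hc _ hG' r s).1)
          (fun r s => (hc _ hG' r s).2) (by positivity) ?_ (le_of_eq ?_)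
        · change ∑ t ∈ range l.length, ((v (upG (gof ω) k c L) (range (t + 1)) -
            v (upG (gof ω) k c L) (range t)) -
            (vR (v (upG (gof ω) k c L)) (rho k / (8 * m)) (range (t + 1)) -
              vR (v (upG (gof ω) k c L)) (rho k / (8 * m)) (range t))) * _ ≤ _
          have h3 : vR (v (upG (gof ω) k c L)) (100 * m * rho k) (range l.length) -
            vR (v (upG (gof ω) k c L)) (rho k / (8 * m)) (range l.length) ≤
            5 * (vR (v (gof ω)) (100 * m * rho k) (range l.length) -
              vR (v (gof ω)) (rho k / (8 * m)) (range l.length)) := h2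
          linarith
        · rw [div_le_iff₀ (by positivity)]
          have h5 : 1 ≤ m * m := by nlinarith
          nlinarith
        · field_simp
          ring
      have p3 : ∑ k : Fin h, (vR (v (gof ω)) (100 * m * rho k) (range l.length) -
            vR (v (gof ω)) (rho k / (8 * m)) (range l.length)) ≤
          2 * n * v (gof ω) (range l.length) := by
        have h1 := deltaSum hCB hBl hm1 (Fintype.card T) l.length h n (v (gof ω)) rho
          (hInc _ hG) (hv0 _) hl hLv.npos hLv.pos hLv.four hLv.win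
        rw [Finset.sum_range] at h1
        exact h1
      have p4 : ∑ t ∈ range l.length, ∑ k : Fin h,
          2 * ∑ c, u c * Real.exp (- u c) * VV t k (upG (gof ω) k c L) ≤
          40 * n * v (gof ω) (range l.length) := by
        have e : ∑ t ∈ range l.length, ∑ k : Fin h,
            2 * ∑ c, u c * Real.exp (- u c) * VV t k (upG (gof ω) k c L) =
            ∑ k : Fin h, 2 * ∑ c, u c * Real.exp (- u c) *
              ∑ t ∈ range l.length, VV t k (upG (gof ω) k c L) := by
          rw [sum_comm]
          refine sum_congr rfl fun k _ => ?_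
          rw [← mul_sum, sum_comm]
          congr 1
          refine sum_congr rfl fun c _ => ?_
          rw [mul_sum]
        rw [e]
        have h1 : ∀ k : Fin h, 2 * ∑ c, u c * Real.exp (- u c) *
              ∑ t ∈ range l.length, VV t k (upG (gof ω) k c L) ≤
            20 * (vR (v (gof ω)) (100 * m * rho k) (range l.length) -
              vR (v (gof ω)) (rho k / (8 * m)) (range l.length)) := by
          intro k
          set Δ := vR (v (gof ω)) (100 * m * rho k) (range l.length) -
              vR (v (gof ω)) (rho k / (8 * m)) (range l.length) with hΔ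
          have hrk := hLv.pos k k.2
          have hΔ0 : 0 ≤ Δ := by
            have : rho k / (8 * m) ≤ 100 * m * rho k := by
              rw [div_le_iff₀ (by positivity)]
              have h5 : 1 ≤ m * m := by nlinarith
              nlinarith
            have := (hCB (v (gof ω)) (rho k / (8 * m)) (range l.length)).2.2.2.1 _ this
            linarith
          have h2 : ∑ c, u c * Real.exp (- u c) *
              ∑ t ∈ range l.length, VV t k (upG (gof ω) k c L) ≤
              ∑ c, u c * Real.exp (- u c) * (10 * Δ) :=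
            sum_le_sum fun c _ => mul_le_mul_of_nonneg_left (p2 k c)
              (mul_nonneg (hu0 c) (Real.exp_pos _).le)
          rw [← sum_mul] at h2
          have h3 : (∑ c, u c * Real.exp (- u c)) * (10 * Δ) ≤ 1 * (10 * Δ) :=
            mul_le_mul_of_nonneg_right hCo.kraft (by linarith)
          linarith
        refine (sum_le_sum fun k _ => h1 k).trans ?_
        rw [← mul_sum]
        linarith
      have e : ∑ t ∈ range l.length, Q t ω =
          ∑ t ∈ range l.length, ∑ k : Fin h, W k (σ (loc t)) * VV t k (gof ω) +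
          ∑ t ∈ range l.length, ∑ k : Fin h,
            2 * ∑ c, u c * Real.exp (- u c) * VV t k (upG (gof ω) k c L) := by
        rw [← sum_add_distrib]
        refine sum_congr rfl fun t _ => ?_
        rw [← sum_add_distrib]
      rw [e]
      have h5 := hvle (gof ω) hG
      have h6 : 0 ≤ 3 * KW + 40 * (n : ℝ) := by positivity
      have h7 := mul_le_mul_of_nonneg_left h5 h6
      linarith
    have hQ : Et q (fun ω : Fin h × C → Fin L => ∑ t ∈ range l.length, Q t ω) ≤
        3 / 2 * (3 * KW + 40 * n) * optv (pull σ D) l := by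
      refine (Et_mono hq0 hq1 hQp).trans (le_of_eq ?_)
      exact Et_const hqn _
    have h1 := main l.length hl
    rw [hloc] at h1
    have h3 : (l.length : ℝ) * Err * optv (pull σ D) l ≤ 1 * optv (pull σ D) l := by
      refine mul_le_mul_of_nonneg_right ?_ hO0
      have : (l.length : ℝ) * Err ≤ M * Err := mul_le_mul_of_nonneg_right
        (by rw [hMM]; exact_mod_cast hl) hErr0
      linarith
    have h4 := mul_le_mul_of_nonneg_left hQ (by positivity : 0 ≤ 32 / lam)
    have h5 : ∑ ω : Fin h × C → Fin L, (∏ p, tw (q p.2) L (ω p)) *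
        tcost (pull σ D) (pull σ (cst D (potG E lam rho L χ (gof ω)))) l =
        Et q (fun ω : Fin h × C → Fin L =>
            tcost (pull σ D) (pull σ (cst D (potG E lam rho L χ (gof ω)))) l) := rfl
    rw [h5]
    have e : (48 / lam * (3 * KW + 40 * n) + 1) * optv (pull σ D) l =
        32 / lam * (3 / 2 * (3 * KW + 40 * n) * optv (pull σ D) l) + 1 * optv (pull σ D) l := by
      ring
    rw [e]
    linarith

end

end Pool.Agent.MP_a4c1f4_lc.Snow
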