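import Pool.Agent.Lib.MP_a4c1f4_lc.Spec

set_option linter.all false

/-!
# Coloured noise fields

The centre map of the earlier files is replaced by a map `χ` to a linearly ordered set of colours.
-/

namespace Pool.Agent.MP_a4c1f4_lc.Snow

open Finset

/-- The noise field with slope `lam`, grid step `eta`, colours `χ` and values `g`. -/
noncomputable def cf {T C : Type} [Fintype T] [Nonempty T] (E : T → T → ℝ) (eta lam : ℝ)
    (χ : T → C) (g : C → ℕ) (s : T) : ℝ :=
  (Finset.univ : Finset T).sup' Finset.univ_nonempty (fun x => eta * (g (χ x) : ℝ) - lam * E s x)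

/-- `c` is the colour selected at `r`. -/
def Sl {T C : Type} [LinearOrder C] (E : T → T → ℝ) (eta lam : ℝ) (χ : T → C) (g : C → ℕ)
    (r : T) (c : C) : Prop :=
  ∃ x, χ x = c ∧ ∀ x',
    (eta * (g (χ x') : ℝ) - lam * E r x' < eta * (g (χ x) : ℝ) - lam * E r x) ∨
    (eta * (g (χ x') : ℝ) - lam * E r x' = eta * (g (χ x) : ℝ) - lam * E r x ∧ χ x' ≤ c)

section

variable {T C : Type} [Fintype T] [Nonempty T]

theorem le_cf (E : T → T → ℝ) (eta lam : ℝ) (χ : T → C) (g : C → ℕ) (s x : T) :
    eta * (g (χ x) : ℝ) - lam * E s x ≤ cf E eta lam χ g s := by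
  unfold cf
  exact Finset.le_sup' (fun x => eta * (g (χ x) : ℝ) - lam * E s x) (Finset.mem_univ x)

theorem cf_le (E : T → T → ℝ) (eta lam : ℝ) (χ : T → C) (g : C → ℕ) (s : T) {b : ℝ}
    (h : ∀ x, eta * (g (χ x) : ℝ) - lam * E s x ≤ b) : cf E eta lam χ g s ≤ b := by
  unfold cf
  exact Finset.sup'_le _ _ fun x _ => h x

theorem cf_exists (E : T → T → ℝ) (eta lam : ℝ) (χ : T → C) (g : C → ℕ) (s : T) :
    ∃ x, cf E eta lam χ g s = eta * (g (χ x) : ℝ) - lam * E s x := by
  obtain ⟨x, -, hx⟩ := Finset.exists_mem_eq_sup' (s := (Finset.univ : Finset T))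
    Finset.univ_nonempty (fun x => eta * (g (χ x) : ℝ) - lam * E s x)
  exact ⟨x, hx⟩

/-- A field is Lipschitz. -/
theorem cf_lip {E : T → T → ℝ} (hE : PM E) {eta lam : ℝ} (hl : 0 ≤ lam) (χ : T → C) (g : C → ℕ)
    (s s' : T) : cf E eta lam χ g s - cf E eta lam χ g s' ≤ lam * E s s' := by
  have h : cf E eta lam χ g s ≤ cf E eta lam χ g s' + lam * E s s' := by
    refine cf_le E eta lam χ g s fun x => ?_
    have h1 := le_cf E eta lam χ g s' x
    have h2 := hE.tri s' s x
    have h3 := hE.symm s' s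
    have h4 : lam * E s' x ≤ lam * (E s s' + E s x) := by
      apply mul_le_mul_of_nonneg_left _ hl
      linarith
    linarith
  linarith

theorem cf_nonneg {E : T → T → ℝ} (hE : PM E) {eta lam : ℝ} (he : 0 ≤ eta) (χ : T → C)
    (g : C → ℕ) (s : T) : 0 ≤ cf E eta lam χ g s := by
  have h1 := le_cf E eta lam χ g s s
  rw [hE.self s, mul_zero, sub_zero] at h1
  exact (mul_nonneg he (Nat.cast_nonneg _)).trans h1

theorem cf_bdd {E : T → T → ℝ} (hE : PM E) {eta lam : ℝ} (he : 0 ≤ eta) (hl : 0 ≤ lam)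
    (χ : T → C) (g : C → ℕ) {L : ℕ} (hg : ∀ c, g c ≤ L) (s : T) :
    cf E eta lam χ g s ≤ eta * L := by
  refine cf_le E eta lam χ g s fun x => ?_
  have h1 := mul_nonneg hl (hE.nonneg s x)
  have h2 : eta * (g (χ x) : ℝ) ≤ eta * L :=
    mul_le_mul_of_nonneg_left (by exact_mod_cast hg (χ x)) he
  linarith

/-- Differences of a field are at most `lam * min (E s s') rho` when `eta * L = lam * rho`. -/
theorem cf_diff {E : T → T → ℝ} (hE : PM E) {eta lam rho : ℝ} (he : 0 ≤ eta) (hl : 0 ≤ lam)
    (χ : T → C) (g : C → ℕ) {L : ℕ} (hg : ∀ c, g c ≤ L) (hL : eta * L = lam * rho) (s s' : T) :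
    |cf E eta lam χ g s - cf E eta lam χ g s'| ≤ lam * min (E s s') rho := by
  have h1 := cf_lip hE (eta := eta) hl χ g s s'
  have h2 := cf_lip hE (eta := eta) hl χ g s' s
  rw [hE.symm s' s] at h2
  have h3 := cf_nonneg hE (lam := lam) he χ g s
  have h4 := cf_nonneg hE (lam := lam) he χ g s'
  have h5 := cf_bdd hE he hl χ g hg s
  have h6 := cf_bdd hE he hl χ g hg s'
  rw [mul_min_of_nonneg _ _ hl, abs_le]
  rw [hL] at h5 h6
  constructor
  · rw [← sub_nonneg]
    rcases le_total (lam * E s s') (lam * rho) with h | h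
    · rw [min_eq_left h]; linarith
    · rw [min_eq_right h]; linarith
  · exact le_min h1 (by linarith)

/-- The effect of one variable. -/
theorem cf_step [DecidableEq C] (E : T → T → ℝ) {eta : ℝ} (lam : ℝ) (he : 0 ≤ eta) (χ : T → C)
    (g : C → ℕ) (c : C) (j : ℕ) (s : T) :
    0 ≤ cf E eta lam χ (Function.update g c (j + 1)) s
          - cf E eta lam χ (Function.update g c j) s ∧
    cf E eta lam χ (Function.update g c (j + 1)) s
          - cf E eta lam χ (Function.update g c j) s ≤ eta ∧
    cf E eta lam χ (Function.update g c (j + 1)) s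
          - cf E eta lam χ (Function.update g c j) s ≤
      cf E eta lam χ (Function.update g c (j + 2)) s
          - cf E eta lam χ (Function.update g c (j + 1)) s := by
  have hup : ∀ (k : ℕ) (w : C), (Function.update g c k) w = if w = c then k else g w :=
    fun k w => Function.update_apply g c k w
  have hmono : ∀ k x, eta * (((Function.update g c k) (χ x) : ℕ) : ℝ) ≤
      eta * (((Function.update g c (k + 1)) (χ x) : ℕ) : ℝ) := by
    intro k x
    rw [hup, hup]
    split_ifs
    · push_cast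
      nlinarith
    · exact le_rfl
  have hstep : ∀ k x, eta * (((Function.update g c (k + 1)) (χ x) : ℕ) : ℝ) ≤
      eta * (((Function.update g c k) (χ x) : ℕ) : ℝ) + eta := by
    intro k x
    rw [hup, hup]
    split_ifs
    · push_cast
      nlinarith
    · linarith
  have hconv : ∀ x, 2 * (eta * (((Function.update g c (j + 1)) (χ x) : ℕ) : ℝ)) =
      eta * (((Function.update g c j) (χ x) : ℕ) : ℝ) +
        eta * (((Function.update g c (j + 2)) (χ x) : ℕ) : ℝ) := by
    intro x
    rw [hup, hup, hup]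
    split_ifs
    · push_cast
      ring
    · ring
  refine ⟨?_, ?_, ?_⟩
  · rw [sub_nonneg]
    refine cf_le E eta lam χ _ s fun x => ?_
    have h1 := le_cf E eta lam χ (Function.update g c (j + 1)) s x
    have h2 := hmono j x
    linarith
  · rw [sub_le_iff_le_add]
    refine cf_le E eta lam χ _ s fun x => ?_
    have h1 := le_cf E eta lam χ (Function.update g c j) s x
    have h2 := hstep j x
    linarith
  · obtain ⟨x, hx⟩ := cf_exists E eta lam χ (Function.update g c (j + 1)) s
    have h1 := le_cf E eta lam χ (Function.update g c j) s x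
    have h2 := le_cf E eta lam χ (Function.update g c (j + 2)) s x
    have h3 := hconv x
    linarith

end

section Sel

variable {T C : Type} [Fintype T] [Nonempty T] [LinearOrder C]

private theorem sel_cf (E : T → T → ℝ) (eta lam : ℝ)
    (χ : T → C) (g : C → ℕ) (r x : T)
    (h : ∀ x', eta * (g (χ x') : ℝ) - lam * E r x' ≤ eta * (g (χ x) : ℝ) - lam * E r x) :
    cf E eta lam χ g r = eta * (g (χ x) : ℝ) - lam * E r x :=
  le_antisymm (cf_le E eta lam χ g r h) (le_cf E eta lam χ g r x)

theorem sl_exists (E : T → T → ℝ) (eta lam : ℝ) (χ : T → C) (g : C → ℕ) (r : T) :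
    ∃ c, Sl E eta lam χ g r c := by
  obtain ⟨x, -, hx⟩ := Finset.exists_max_image (univ : Finset T)
    (fun x => toLex (eta * (g (χ x) : ℝ) - lam * E r x, χ x)) univ_nonempty
  refine ⟨χ x, x, rfl, ?_⟩
  intro x'
  have h := hx x' (mem_univ _)
  rw [Prod.Lex.toLex_le_toLex] at h
  exact h

omit [Fintype T] [Nonempty T] in
theorem sl_unique {E : T → T → ℝ} {eta lam : ℝ} {χ : T → C} {g : C → ℕ} {r : T} {c1 c2 : C}
    (h1 : Sl E eta lam χ g r c1) (h2 : Sl E eta lam χ g r c2) : c1 = c2 := by
  obtain ⟨x1, h1, H1⟩ := h1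
  obtain ⟨x2, h2, H2⟩ := h2
  subst h1
  subst h2
  have a := H1 x2
  have b := H2 x1
  rcases a with a | ⟨a, a'⟩
  · rcases b with b | ⟨b, b'⟩ <;> exfalso <;> linarith
  · rcases b with b | ⟨b, b'⟩
    · exfalso
      linarith
    · exact le_antisymm b' a'

theorem sl_succ {E : T → T → ℝ} {eta lam : ℝ} (heta : 0 < eta) {χ : T → C} {g : C → ℕ} {r : T}
    {c : C} {j : ℕ} (hS : Sl E eta lam χ (Function.update g c j) r c) :
    Sl E eta lam χ (Function.update g c (j + 1)) r c ∧
      cf E eta lam χ (Function.update g c (j + 1)) r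
        - cf E eta lam χ (Function.update g c j) r = eta := by
  obtain ⟨x, hx, H⟩ := hS
  have key : ∀ x', ((eta * ((Function.update g c (j + 1)) (χ x') : ℝ) - lam * E r x' <
      eta * ((Function.update g c (j + 1)) (χ x) : ℝ) - lam * E r x) ∨
      (eta * ((Function.update g c (j + 1)) (χ x') : ℝ) - lam * E r x' =
      eta * ((Function.update g c (j + 1)) (χ x) : ℝ) - lam * E r x ∧
      χ x' ≤ c)) := by
    intro x'
    have h := H x'
    rw [hx, Function.update_self] at h ⊢
    by_cases hz : χ x' = c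
    · rw [hz, Function.update_self] at h ⊢
      push_cast
      rcases h with h | ⟨h, -⟩
      · left
        linarith
      · right
        exact ⟨by linarith, le_rfl⟩
    · rw [Function.update_of_ne hz] at h ⊢
      push_cast
      left
      rcases h with h | ⟨h, -⟩ <;> linarith
  refine ⟨⟨x, hx, key⟩, ?_⟩
  rw [sel_cf E eta lam χ (Function.update g c j) r x (fun x' => by
    rcases H x' with h | ⟨h, -⟩
    · exact h.le
    · exact h.le), sel_cf E eta lam χ (Function.update g c (j + 1)) r x (fun x' => by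
    rcases key x' with h | ⟨h, -⟩
    · exact h.le
    · exact h.le)]
  rw [hx, Function.update_self, Function.update_self]
  push_cast
  ring

omit [Fintype T] [Nonempty T] in
theorem sl_close {E : T → T → ℝ} (hE : PM E) {eta lam rho : ℝ} (heta : 0 ≤ eta) (hlam : 0 < lam)
    {χ : T → C} {g : C → ℕ} {r : T} {c : C} {L : ℕ} (hg : ∀ w, g w ≤ L)
    (hL : eta * L = lam * rho) (hS : Sl E eta lam χ g r c) : ∃ x, χ x = c ∧ E r x ≤ rho := by
  obtain ⟨x, hx, H⟩ := hS
  refine ⟨x, hx, ?_⟩
  have h1 : eta * (g (χ r) : ℝ) - lam * E r r ≤ eta * (g (χ x) : ℝ) - lam * E r x := by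
    rcases H r with h | ⟨h, -⟩
    · exact h.le
    · exact h.le
  rw [hE.self r] at h1
  have h2 : (0 : ℝ) ≤ eta * (g (χ r) : ℝ) := by positivity
  have h3 : eta * (g (χ x) : ℝ) ≤ eta * L := by
    apply mul_le_mul_of_nonneg_left _ heta
    exact_mod_cast hg (χ x)
  have h4 : lam * E r x ≤ lam * rho := by linarith
  exact le_of_mul_le_mul_left h4 hlam

/-- Exit lemma. -/
theorem cf_exit {E : T → T → ℝ} (hE : PM E) {eta lam rho : ℝ} (heta : 0 < eta) (hlam : 0 < lam)
    {χ : T → C} {g : C → ℕ} {L j : ℕ} {r y : T} {c : C} (hL : eta * L = lam * rho)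
    (hsep : ∀ x x', χ x = χ x' → E x x' ≤ 4 * rho ∨ 34 * rho < E x x')
    (hrho : 0 ≤ rho) (hg : ∀ w, g w ≤ L) (hj : j < L)
    (hS : Sl E eta lam χ (Function.update g c j) r c)
    (h1 : 6 * rho ≤ E r y) (h2 : E r y ≤ 32 * rho) :
    cf E eta lam χ (Function.update g c (j + 1)) y
      - cf E eta lam χ (Function.update g c j) y = 0 := by
  have hg' : ∀ w, (Function.update g c j) w ≤ L := by
    intro w
    rw [Function.update_apply]
    split_ifs
    · exact hj.le
    · exact hg w
  obtain ⟨x0, hx0, hr0⟩ := sl_close hE heta.le hlam hg' hL hS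
  have hstep := cf_step E lam heta.le χ g c j y
  apply le_antisymm _ hstep.1
  rw [sub_nonpos]
  refine cf_le E eta lam χ _ y fun x' => ?_
  by_cases hx' : χ x' = c
  · have hfar : rho ≤ E y x' := by
      have t1 := hE.tri r x0 y
      have t2 := hE.tri x0 x' y
      have t3 := hE.symm x' y
      have t4 := hE.tri x0 r x'
      have t5 := hE.tri r y x'
      have t6 := hE.symm x0 r
      rcases hsep x0 x' (by rw [hx0, hx']) with h | h <;> linarith
    rw [hx', Function.update_self]
    have h3 : 0 ≤ cf E eta lam χ (Function.update g c j) y := cf_nonneg hE heta.le χ _ y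
    have h4 : eta * ((j + 1 : ℕ) : ℝ) ≤ eta * L :=
      mul_le_mul_of_nonneg_left (by exact_mod_cast hj) heta.le
    have h5 : lam * rho ≤ lam * E y x' := mul_le_mul_of_nonneg_left hfar hlam.le
    linarith
  · rw [Function.update_of_ne hx']
    have h3 := le_cf E eta lam χ (Function.update g c j) y x'
    rw [Function.update_of_ne hx'] at h3
    exact h3

end Sel

end Pool.Agent.MP_a4c1f4_lc.Snow
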