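import Pool.Agent.Lib.MP_a4c1f4_lc.Snow.Prob
import Pool.Agent.Lib.MP_a4c1f4_lc.Snow.OneVar

set_option linter.all false

/-!
# One level
-/

namespace Pool.Agent.MP_a4c1f4_lc.Snow

open Finset Pool.Agent.MP_a4c1f4_lc

section

variable {S T C : Type} [Fintype S] [Nonempty S] [Fintype T] [DecidableEq T]
  [Nonempty T] [Fintype C] [LinearOrder C] {h : ℕ}

/-- The price of the step. -/
noncomputable def Ug (σ : T → S) (D : S → S → ℝ) (E : ℕ → S → S → ℝ) (lam : ℝ) (rho : ℕ → ℝ)
    (L : ℕ) (χ : ℕ → S → C) (x : T) (l : List T) (G : Fin h → C → ℕ) : ℝ :=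
  optv (pull σ (cst D (potG E lam rho L χ G))) (x :: l) -
    optv (pull σ (cst D (potG E lam rho L χ G))) l

/-- The step has the scale `k`. -/
def Fg (σ : T → S) (D : S → S → ℝ) (E : ℕ → S → S → ℝ) (lam : ℝ) (rho : ℕ → ℝ)
    (L : ℕ) (χ : ℕ → S → C) (x : T) (l : List T) (k : Fin h) (G : Fin h → C → ℕ) : Prop :=
  8 * rho k ≤ D (σ x) (σ (srv (pull σ (cst D (potG E lam rho L χ G))) x l)) ∧
    D (σ x) (σ (srv (pull σ (cst D (potG E lam rho L χ G))) x l)) < 32 * rho k

theorem exp_neg_one_lt_half : Real.exp (-1) < 1 / 2 := by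
  have h1 := Real.exp_one_gt_d9
  rw [Real.exp_neg, ← one_div]
  apply one_div_lt_one_div_of_lt (by norm_num)
  linarith

/-- Facts on the parameter `q = 1 - u / L`. -/
theorem q_facts {u : ℝ} {L : ℕ} (hL : 0 < L) (hu : 1 ≤ u) (huL : u ≤ L) :
    0 ≤ 1 - u / L ∧ 1 - u / L ≤ 1 ∧ (1 - u / L) ^ L ≤ Real.exp (-u) ∧
      1 / 2 ≤ 1 - (1 - u / L) ^ L ∧ (1 - u / L) ^ L ≠ 1 := by
  have hLR : (0 : ℝ) < L := by exact_mod_cast hL
  have h0 : 0 ≤ 1 - u / L := by
    rw [sub_nonneg, div_le_one hLR]
    exact huL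
  have h1 : 1 - u / L ≤ 1 := by
    have : 0 ≤ u / L := by positivity
    linarith
  have h2 : (1 - u / L) ^ L ≤ Real.exp (-u) := by
    have h3 : 1 - u / L ≤ Real.exp (-(u / L)) := by
      have := Real.add_one_le_exp (-(u / L))
      linarith
    calc (1 - u / L) ^ L ≤ (Real.exp (-(u / L))) ^ L := pow_le_pow_left₀ h0 h3 L
      _ = Real.exp (-u) := by
        rw [← Real.exp_nat_mul]
        congr 1
        field_simp
  have h4 : Real.exp (-u) ≤ Real.exp (-1) := Real.exp_le_exp.2 (by linarith)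
  have h5 := exp_neg_one_lt_half
  refine ⟨h0, h1, h2, by linarith, ?_⟩
  intro h6
  rw [h6] at h2
  linarith

theorem level (hU : UsedProp) (hSt : StepProp) (hP : PotProp) (hA : AbelProp)
    {n : ℕ} {D : S → S → ℝ} {E : ℕ → S → S → ℝ} {rho : ℕ → ℝ} {K lam : ℝ} {χ : ℕ → S → C}
    {u : C → ℝ} {W : ℕ → S → ℝ}
    (hLv : LvS D E rho h n K) (hCo : ColS E rho h χ u W)
    (hlam : 0 < lam) (hlam2 : lam ≤ 1 / 2) (hK : K * lam ≤ 1 / 2) {L : ℕ} (hL : 0 < L)
    (hTL : Fintype.card T ≤ L) (huL : ∀ c, u c ≤ L)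
    (σ : T → S) (x : T) (l : List T) (hl : l.length + 1 ≤ Fintype.card T) (k : Fin h)
    (Cs : (Fin h → C → ℕ) → ℝ)
    (hC1 : ∀ G c j, (∀ k c, G k c ≤ L) → j ≤ L → Cs (upG G k c j) = Cs G)
    (hC2 : ∀ G, (∀ k c, G k c ≤ L) → Cs G ≤ Ug σ D E lam rho L χ x l G) :
    Et (fun c => 1 - u c / L) (fun ω : Fin h × C → Fin L =>
        ind (Fg σ D E lam rho L χ x l k (gof ω))) ≤
      1 / (lam * rho k) * (Et (fun c => 1 - u c / L) (fun ω : Fin h × C → Fin L =>
          W k (σ x) * ((Ug σ D E lam rho L χ x l (gof ω) - Cs (gof ω)) *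
            ind (Ug σ D E lam rho L χ x l (gof ω) ≤ 50 * rho k)))
        + 2 * ∑ c, u c * Real.exp (- u c) * Et (fun c => 1 - u c / L)
          (fun ω : Fin h × C → Fin L =>
            (Ug σ D E lam rho L χ x l (upG (gof ω) k c L) - Cs (gof ω)) *
              ind (Ug σ D E lam rho L χ x l (upG (gof ω) k c L) ≤ 50 * rho k)))
      + (2 / L * ∑ c, u c) * (1 + (Fintype.card T : ℝ)) := by
  classical
  set q : C → ℝ := fun c => 1 - u c / L with hq
  have hqf : ∀ c, 0 ≤ q c ∧ q c ≤ 1 ∧ (q c) ^ L ≤ Real.exp (- u c) ∧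
      1 / 2 ≤ 1 - (q c) ^ L ∧ (q c) ^ L ≠ 1 := fun c => q_facts hL (hCo.u1 c) (huL c)
  have hq0 : ∀ c, 0 ≤ q c := fun c => (hqf c).1
  have hq1 : ∀ c, q c ≤ 1 := fun c => (hqf c).2.1
  have hqn : ∀ c, q c ^ L ≠ 1 := fun c => (hqf c).2.2.2.2
  have hLR : (0 : ℝ) < L := by exact_mod_cast hL
  have hrk := hLv.pos k k.2
  have hM0 : (0 : ℝ) ≤ (Fintype.card T : ℝ) := Nat.cast_nonneg _
  set eta : ℝ := lam * rho k / L with heta
  have heta0 : 0 < eta := by rw [heta]; positivity
  have hetaL : eta * L = lam * rho k := by rw [heta]; field_simp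
  -- abbreviations
  set U : (Fin h → C → ℕ) → ℝ := fun G => Ug σ D E lam rho L χ x l G with hUdef
  set F : (Fin h → C → ℕ) → Prop := fun G => Fg σ D E lam rho L χ x l k G with hFdef
  set Q : (Fin h → C → ℕ) → C → Prop := fun G c => Sl (E k) eta lam (χ k) (G k) (σ x) c with hQ
  set V : (Fin h → C → ℕ) → ℝ := fun G => (U G - Cs G) * ind (U G ≤ 50 * rho k) with hV
  have hV0 : ∀ G, (∀ k c, G k c ≤ L) → 0 ≤ V G := fun G hG =>
    mul_nonneg (by have := hC2 G hG; simp only [hUdef]; linarith) (ind_nonneg _)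
  -- step 1
  have s1 : ∀ ω : Fin h × C → Fin L, ind (F (gof ω)) ≤
      ∑ c, ind (Q (gof ω) c ∧ F (gof ω)) := by
    intro ω
    obtain ⟨c0, hc0⟩ := sl_exists (E k) eta lam (χ k) (gof ω k) (σ x)
    have h1 : ind (F (gof ω)) ≤ ind (Q (gof ω) c0 ∧ F (gof ω)) :=
      ind_mono fun hF => ⟨hc0, hF⟩
    exact h1.trans (single_le_sum (f := fun c => ind (Q (gof ω) c ∧ F (gof ω)))
      (fun c _ => ind_nonneg _) (mem_univ c0))
  -- step 2: the one variable inequality
  have s2 : ∀ (c : C) (ω : Fin h × C → Fin L),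
      ∑ j : Fin L, tw (q c) L j * ind (Q (upG (gof ω) k c j) c ∧ F (upG (gof ω) k c j)) ≤
        u c / (lam * rho k) * ((∑ j : Fin L, tw (q c) L j *
          (V (upG (gof ω) k c j) * ind (Q (upG (gof ω) k c j) c)))
          + 2 * Real.exp (- u c) * V (upG (gof ω) k c L))
          + 2 / L * u c * (1 + (Fintype.card T : ℝ)) := by
    intro c ω
    set G := gof ω with hG
    have hGL : ∀ k c, G k c ≤ L := gof_le ω
    set B : S → ℝ := fun s => potG E lam rho L χ G s - cf (E k) eta lam (χ k) (G k) s with hB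
    have hpot : ∀ j, potG E lam rho L χ (upG G k c j) =
        fun s => B s + cf (E k) eta lam (χ k) (Function.update (G k) c j) s := fun j =>
      potG_up E lam rho L χ G k c j
    have hGk : ∀ j, upG G k c j k = Function.update (G k) c j := fun j => by
      unfold upG
      rw [Function.update_self]
    have hov := oneVar hU hSt hP hA σ D (E k) eta lam (rho k) (q c) (Cs G) (χ k) (G k) L B x c l
      hLv.pmD (hLv.pmE k) (hLv.le k) (hLv.ge k k.2) heta0 hlam hlam2 hrk hetaL hTL
      (hCo.sep k k.2) (hGL k) (hq0 c) (hq1 c) hl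
      (fun j hj r s => by
        have := costS hLv hlam.le hK hL χ (upG G k c j) (upG_le hGL k c hj) r s
        rw [hpot j] at this
        exact this)
      (fun j hj => by
        have := hC2 (upG G k c j) (upG_le hGL k c hj)
        rw [hC1 G c j hGL hj] at this
        unfold Ug at this
        rw [hpot j] at this
        exact this)
    -- rewrite in terms of `U`, `F`, `Q`
    have eU : ∀ j, optv (pull σ (cst D
          (fun s => B s + cf (E k) eta lam (χ k) (Function.update (G k) c j) s))) (x :: l) -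
        optv (pull σ (cst D
          (fun s => B s + cf (E k) eta lam (χ k) (Function.update (G k) c j) s))) l =
        U (upG G k c j) := by
      intro j
      rw [← hpot j]
      rfl
    have eF : ∀ j, (8 * rho k ≤ D (σ x) (σ (srv (pull σ (cst D
            (fun s => B s + cf (E k) eta lam (χ k) (Function.update (G k) c j) s))) x l)) ∧
          D (σ x) (σ (srv (pull σ (cst D
            (fun s => B s + cf (E k) eta lam (χ k) (Function.update (G k) c j) s))) x l)) <
            32 * rho k) = F (upG G k c j) := by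
      intro j
      rw [← hpot j]
      rfl
    have eQ : ∀ j, Sl (E k) eta lam (χ k) (Function.update (G k) c j) (σ x) c =
        Q (upG G k c j) c := by
      intro j
      simp only [hQ]
      rw [hGk j]
    simp only [eU, eF, eQ] at hov
    obtain ⟨g0, g1, g2, g3, g4⟩ := hqf c
    have hpos : 0 < 1 - q c ^ L := by linarith
    -- the sums
    have conv : ∀ f : ℕ → ℝ, ∑ j : Fin L, tw (q c) L j * f j =
        (∑ j ∈ range L, (1 - q c) * q c ^ j * f j) / (1 - q c ^ L) := by
      intro f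
      rw [Fin.sum_univ_eq_sum_range (fun j => tw (q c) L j * f j) L, sum_div]
      refine sum_congr rfl fun j _ => ?_
      unfold tw
      ring
    rw [conv (fun j => ind (Q (upG G k c j) c ∧ F (upG G k c j))),
      conv (fun j => V (upG G k c j) * ind (Q (upG G k c j) c)), div_le_iff₀ hpos]
    have hCs : ∀ j, j ≤ L → Cs (upG G k c j) = Cs G := fun j hj => hC1 G c j hGL hj
    have eV : ∀ j, j ≤ L → V (upG G k c j) =
        (U (upG G k c j) - Cs G) * ind (U (upG G k c j) ≤ 50 * rho k) := by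
      intro j hj
      simp only [hV]
      rw [hCs j hj]
    have eS : ∑ j ∈ range L, (1 - q c) * q c ^ j * (V (upG G k c j) *
        ind (Q (upG G k c j) c)) = ∑ j ∈ range L, (1 - q c) * q c ^ j *
        (((U (upG G k c j) - Cs G) * ind (U (upG G k c j) ≤ 50 * rho k)) *
          ind (Q (upG G k c j) c)) := by
      refine sum_congr rfl fun j hj => ?_
      rw [eV j (mem_range.1 hj).le]
    have eVL := eV L le_rfl
    have hVL0 : 0 ≤ V (upG G k c L) := hV0 _ (upG_le hGL k c le_rfl)
    rw [eS]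
    rw [← eVL] at hov
    set X := ∑ j ∈ range L, (1 - q c) * q c ^ j *
        (((U (upG G k c j) - Cs G) * ind (U (upG G k c j) ≤ 50 * rho k)) *
          ind (Q (upG G k c j) c)) with hX
    have e1 : (1 - q c) / eta = u c / (lam * rho k) := by
      rw [hq, heta]
      field_simp
      ring
    have e2 : 1 - q c = u c / L := by
      rw [hq]
      ring
    rw [e1] at hov
    have hu0 : 0 ≤ u c := by linarith [hCo.u1 c]
    have hA0 : 0 ≤ u c / (lam * rho k) := by positivity
    have hex0 : 0 < Real.exp (- u c) := Real.exp_pos _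
    have i1 : q c ^ L * V (upG G k c L) ≤
        2 * Real.exp (- u c) * V (upG G k c L) * (1 - q c ^ L) := by
      have : q c ^ L * V (upG G k c L) ≤ Real.exp (- u c) * V (upG G k c L) :=
        mul_le_mul_of_nonneg_right g2 hVL0
      have h3 : 0 ≤ Real.exp (- u c) * V (upG G k c L) := mul_nonneg hex0.le hVL0
      nlinarith
    have i2 : (1 - q c) * (1 + (Fintype.card T : ℝ)) ≤
        2 / L * u c * (1 + (Fintype.card T : ℝ)) * (1 - q c ^ L) := by
      rw [e2]
      have h3 : 0 ≤ u c / L * (1 + (Fintype.card T : ℝ)) := by positivity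
      have h4 : 2 / L * u c * (1 + (Fintype.card T : ℝ)) * (1 - q c ^ L) =
          (u c / L * (1 + (Fintype.card T : ℝ))) * (2 * (1 - q c ^ L)) := by ring
      rw [h4]
      nlinarith
    calc _ ≤ _ := hov
      _ ≤ u c / (lam * rho k) * (X + 2 * Real.exp (- u c) * V (upG G k c L) * (1 - q c ^ L)) +
          2 / L * u c * (1 + (Fintype.card T : ℝ)) * (1 - q c ^ L) := by
        apply add_le_add _ i2
        apply mul_le_mul_of_nonneg_left _ hA0
        linarith
      _ = _ := by
        field_simp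
  -- step 3: expectation for one colour
  have s3 : ∀ c : C, Et q (fun ω : Fin h × C → Fin L => ind (Q (gof ω) c ∧ F (gof ω))) ≤
      u c / (lam * rho k) * (Et q (fun ω : Fin h × C → Fin L =>
          V (gof ω) * ind (Q (gof ω) c))
        + 2 * Real.exp (- u c) * Et q (fun ω : Fin h × C → Fin L => V (upG (gof ω) k c L)))
        + 2 / L * u c * (1 + (Fintype.card T : ℝ)) := by
    intro c
    have r1 := Et_resample (h := h) (L := L) hqn (k, c)
      (fun ω : Fin h × C → Fin L => ind (Q (gof ω) c ∧ F (gof ω)))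
    have r2 := Et_resample (h := h) (L := L) hqn (k, c)
      (fun ω : Fin h × C → Fin L => V (gof ω) * ind (Q (gof ω) c))
    simp only [gof_update] at r1 r2
    rw [r1, r2]
    refine (Et_mono hq0 hq1 (s2 c)).trans (le_of_eq ?_)
    rw [Et_add, Et_mul, Et_add, Et_mul, Et_const hqn]
  -- step 4: summation over the colours
  have s4 : ∑ c, u c * Et q (fun ω : Fin h × C → Fin L => V (gof ω) * ind (Q (gof ω) c)) ≤
      Et q (fun ω : Fin h × C → Fin L => W k (σ x) * V (gof ω)) := by
    have e : ∑ c, u c * Et q (fun ω : Fin h × C → Fin L => V (gof ω) * ind (Q (gof ω) c)) =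
        Et q (fun ω : Fin h × C → Fin L => ∑ c, u c * (V (gof ω) * ind (Q (gof ω) c))) := by
      rw [Et_sum]
      exact sum_congr rfl fun c _ => (Et_mul q _ _).symm
    rw [e]
    apply Et_mono hq0 hq1
    intro ω
    obtain ⟨c0, hc0⟩ := sl_exists (E k) eta lam (χ k) (gof ω k) (σ x)
    have h1 : ∑ c, u c * (V (gof ω) * ind (Q (gof ω) c)) = u c0 * V (gof ω) := by
      rw [sum_eq_single c0]
      · have : ind (Q (gof ω) c0) = 1 := ind_true hc0
        rw [this, mul_one]
      · intro c _ hne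
        have : ind (Q (gof ω) c) = 0 := ind_false fun hc => hne (sl_unique hc hc0)
        rw [this, mul_zero, mul_zero]
      · intro h'
        exact absurd (mem_univ _) h'
    obtain ⟨y, hy, hry⟩ := sl_close (hLv.pmE k) heta0.le hlam (gof_le ω k) hetaL hc0
    have h2 := hCo.wt k k.2 (σ x) y hry
    rw [hy] at h2
    rw [h1]
    exact mul_le_mul_of_nonneg_right h2 (hV0 _ (gof_le ω))
  -- conclusion
  have s5 : Et q (fun ω : Fin h × C → Fin L => ind (F (gof ω))) ≤
      ∑ c, Et q (fun ω : Fin h × C → Fin L => ind (Q (gof ω) c ∧ F (gof ω))) := by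
    rw [← Et_sum]
    exact Et_mono hq0 hq1 s1
  refine s5.trans ((sum_le_sum fun c _ => s3 c).trans ?_)
  have e1 : ∑ c, (u c / (lam * rho k) * (Et q (fun ω : Fin h × C → Fin L =>
          V (gof ω) * ind (Q (gof ω) c))
        + 2 * Real.exp (- u c) * Et q (fun ω : Fin h × C → Fin L => V (upG (gof ω) k c L)))
        + 2 / L * u c * (1 + (Fintype.card T : ℝ))) =
      1 / (lam * rho k) * (∑ c, u c * Et q (fun ω : Fin h × C → Fin L =>
          V (gof ω) * ind (Q (gof ω) c))
        + 2 * ∑ c, u c * Real.exp (- u c) *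
          Et q (fun ω : Fin h × C → Fin L => V (upG (gof ω) k c L)))
        + (2 / L * ∑ c, u c) * (1 + (Fintype.card T : ℝ)) := by
    simp only [mul_add, mul_sum, sum_mul, ← sum_add_distrib]
    exact sum_congr rfl fun c _ => by ring
  rw [e1]
  have e2 : ∀ c, Et q (fun ω : Fin h × C → Fin L => V (upG (gof ω) k c L)) =
      Et q (fun ω : Fin h × C → Fin L =>
            (U (upG (gof ω) k c L) - Cs (gof ω)) *
              ind (U (upG (gof ω) k c L) ≤ 50 * rho k)) := by
    intro c
    congr 1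
    funext ω
    simp only [hV]
    rw [hC1 (gof ω) c L (gof_le ω) le_rfl]
  simp only [e2]
  have hpos : 0 ≤ 1 / (lam * rho k) := by positivity
  have := mul_le_mul_of_nonneg_left s4 hpos
  have e3 : Et q (fun ω : Fin h × C → Fin L => W k (σ x) * V (gof ω)) =
      Et q (fun ω : Fin h × C → Fin L =>
          W k (σ x) * ((U (gof ω) - Cs (gof ω)) * ind (U (gof ω) ≤ 50 * rho k))) := rfl
  rw [e3] at this
  linarith

end

end Pool.Agent.MP_a4c1f4_lc.Snow
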