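import Pool.Agent.Lib.MP_a4c1f4_lc.Spec3
import Pool.Agent.Lib.MP_a4c1f4_lc.Snow.Field

set_option linter.all false

/-!
# The probability space and the potentials

For each level and each colour there is one truncated geometric variable.
-/

namespace Pool.Agent.MP_a4c1f4_lc.Snow

open Finset Pool.Agent.MP_a4c1f4_lc

/-- Truncated geometric weights on `0, ..., L - 1`. -/
noncomputable def tw (q : ℝ) (L : ℕ) (j : ℕ) : ℝ := (1 - q) * q ^ j / (1 - q ^ L)

theorem tw_nonneg {q : ℝ} (h0 : 0 ≤ q) (h1 : q ≤ 1) (L j : ℕ) : 0 ≤ tw q L j := by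
  unfold tw
  have : q ^ L ≤ 1 := pow_le_one₀ h0 h1
  exact div_nonneg (mul_nonneg (by linarith) (pow_nonneg h0 _)) (by linarith)

theorem tw_sum {q : ℝ} {L : ℕ} (h : q ^ L ≠ 1) : ∑ j : Fin L, tw q L j = 1 := by
  unfold tw
  rw [Fin.sum_univ_eq_sum_range (fun j => (1 - q) * q ^ j / (1 - q ^ L)) L, ← sum_div,
    ← mul_sum, mul_comm, ← neg_sub q 1, mul_neg, geom_sum_mul]
  rw [neg_sub, div_self]
  intro h'
  exact h (by linarith)

section

variable {h L : ℕ} {C : Type} [Fintype C] [DecidableEq C]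

/-- Expectation. -/
noncomputable def Et (q : C → ℝ) (f : (Fin h × C → Fin L) → ℝ) : ℝ :=
  ∑ ω, (∏ p, tw (q p.2) L (ω p)) * f ω

theorem Et_w_nonneg {q : C → ℝ} (h0 : ∀ c, 0 ≤ q c) (h1 : ∀ c, q c ≤ 1) (ω : Fin h × C → Fin L) :
    0 ≤ ∏ p, tw (q p.2) L (ω p) := prod_nonneg fun p _ => tw_nonneg (h0 _) (h1 _) _ _

theorem Et_mono {q : C → ℝ} (h0 : ∀ c, 0 ≤ q c) (h1 : ∀ c, q c ≤ 1)
    {f g : (Fin h × C → Fin L) → ℝ} (hfg : ∀ ω, f ω ≤ g ω) : Et q f ≤ Et q g :=
  sum_le_sum fun ω _ => mul_le_mul_of_nonneg_left (hfg ω) (Et_w_nonneg h0 h1 ω)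

theorem Et_add (q : C → ℝ) (f g : (Fin h × C → Fin L) → ℝ) :
    Et q (fun ω => f ω + g ω) = Et q f + Et q g := by
  unfold Et
  rw [← sum_add_distrib]
  exact sum_congr rfl fun ω _ => by ring

theorem Et_mul (q : C → ℝ) (a : ℝ) (f : (Fin h × C → Fin L) → ℝ) :
    Et q (fun ω => a * f ω) = a * Et q f := by
  unfold Et
  rw [mul_sum]
  exact sum_congr rfl fun ω _ => by ring

theorem Et_sum {ι : Type} (s : Finset ι) (q : C → ℝ) (f : ι → (Fin h × C → Fin L) → ℝ) :
    Et q (fun ω => ∑ i ∈ s, f i ω) = ∑ i ∈ s, Et q (f i) := by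
  unfold Et
  rw [sum_comm]
  refine sum_congr rfl fun ω _ => ?_
  rw [mul_sum]

theorem Et_one {q : C → ℝ} (hq : ∀ c, q c ^ L ≠ 1) :
    Et q (fun _ : Fin h × C → Fin L => (1 : ℝ)) = 1 := by
  unfold Et
  simp only [mul_one]
  have h1 := (prod_univ_sum (fun _ : Fin h × C => (univ : Finset (Fin L)))
    (fun p j => tw (q p.2) L j)).symm
  rw [Fintype.piFinset_univ] at h1
  rw [h1]
  exact prod_eq_one fun p _ => tw_sum (hq p.2)

theorem Et_const {q : C → ℝ} (hq : ∀ c, q c ^ L ≠ 1) (a : ℝ) :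
    Et q (fun _ : Fin h × C → Fin L => a) = a := by
  have h1 := Et_mul (h := h) (L := L) q a (fun _ => 1)
  simp only [mul_one] at h1
  rw [h1, Et_one hq, mul_one]

theorem Et_nonneg {q : C → ℝ} (h0 : ∀ c, 0 ≤ q c) (h1 : ∀ c, q c ≤ 1)
    {f : (Fin h × C → Fin L) → ℝ} (hf : ∀ ω, 0 ≤ f ω) : 0 ≤ Et q f :=
  sum_nonneg fun ω _ => mul_nonneg (Et_w_nonneg h0 h1 ω) (hf ω)

private theorem resample_aux {ι β : Type} [Fintype ι] [DecidableEq ι] [Fintype β]
    (w : ι → β → ℝ) (p0 : ι) (hw : ∑ b, w p0 b = 1) (f : (ι → β) → ℝ) :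
    ∑ g : ι → β, (∏ p, w p (g p)) * f g =
      ∑ g : ι → β, (∏ p, w p (g p)) * ∑ b, w p0 b * f (Function.update g p0 b) := by
  classical
  let e : (ι → β) × β ≃ (ι → β) × β :=
    { toFun := fun p => (Function.update p.1 p0 p.2, p.1 p0)
      invFun := fun p => (Function.update p.1 p0 p.2, p.1 p0)
      left_inv := by intro p; simp
      right_inv := by intro p; simp }
  have key : ∀ (g : ι → β) (b : β), (∏ p, w p (Function.update g p0 b p)) * w p0 (g p0) =
      (∏ p, w p (g p)) * w p0 b := by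
    intro g b
    rw [← Finset.mul_prod_erase univ _ (Finset.mem_univ p0),
      ← Finset.mul_prod_erase univ (fun p => w p (g p)) (Finset.mem_univ p0)]
    have : ∏ p ∈ univ.erase p0, w p (Function.update g p0 b p) =
        ∏ p ∈ univ.erase p0, w p (g p) := by
      refine Finset.prod_congr rfl fun p hp => ?_
      rw [Function.update_of_ne (Finset.ne_of_mem_erase hp)]
    rw [this]
    simp only [Function.update_self]
    ring
  have h1 : ∑ g : ι → β, (∏ p, w p (g p)) * ∑ b, w p0 b * f (Function.update g p0 b) =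
      ∑ x : (ι → β) × β, (∏ p, w p (x.1 p)) * w p0 x.2 * f (Function.update x.1 p0 x.2) := by
    rw [Fintype.sum_prod_type]
    refine Finset.sum_congr rfl fun g _ => ?_
    rw [Finset.mul_sum]
    exact Finset.sum_congr rfl fun b _ => by ring
  have h2 : ∑ x : (ι → β) × β, (∏ p, w p (x.1 p)) * w p0 x.2 * f (Function.update x.1 p0 x.2) =
      ∑ x : (ι → β) × β, (∏ p, w p (x.1 p)) * w p0 x.2 * f x.1 := by
    refine Fintype.sum_equiv e _ _ fun x => ?_
    simp only [e, Equiv.coe_fn_mk]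
    rw [key]
  rw [h1, h2, Fintype.sum_prod_type]
  refine Finset.sum_congr rfl fun g _ => ?_
  have : ∀ b, (∏ p, w p (g p)) * w p0 b * f g = ((∏ p, w p (g p)) * f g) * w p0 b := by
    intro b; ring
  simp only [this]
  rw [← Finset.mul_sum, hw, mul_one]

/-- Resampling one variable. -/
theorem Et_resample {q : C → ℝ} (hq : ∀ c, q c ^ L ≠ 1) (p0 : Fin h × C)
    (f : (Fin h × C → Fin L) → ℝ) :
    Et q f = Et q (fun ω => ∑ j : Fin L, tw (q p0.2) L j * f (Function.update ω p0 j)) :=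
  resample_aux (fun (p : Fin h × C) (j : Fin L) => tw (q p.2) L j) p0 (tw_sum (hq p0.2)) f

end

/-! ### Potentials -/

/-- The values as natural numbers. -/
def gof {h L : ℕ} {C : Type} (ω : Fin h × C → Fin L) (k : Fin h) (c : C) : ℕ := (ω (k, c) : ℕ)

/-- Change of one value. -/
def upG {h : ℕ} {C : Type} [DecidableEq C] (G : Fin h → C → ℕ) (k : Fin h) (c : C) (j : ℕ) :
    Fin h → C → ℕ := Function.update G k (Function.update (G k) c j)

theorem gof_update {h L : ℕ} {C : Type} [DecidableEq C] (ω : Fin h × C → Fin L) (k : Fin h)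
    (c : C) (j : Fin L) : gof (Function.update ω (k, c) j) = upG (gof ω) k c j := by
  funext k' c'
  unfold gof upG
  by_cases hk : k' = k
  · subst hk
    rw [Function.update_self]
    by_cases hc : c' = c
    · subst hc
      rw [Function.update_self, Function.update_self]
    · rw [Function.update_of_ne hc, Function.update_of_ne]
      intro h'
      exact hc (Prod.ext_iff.1 h').2
  · rw [Function.update_of_ne hk, Function.update_of_ne]
    intro h'
    exact hk (Prod.ext_iff.1 h').1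

theorem upG_le {h L : ℕ} {C : Type} [DecidableEq C] {G : Fin h → C → ℕ} (hG : ∀ k c, G k c ≤ L)
    (k : Fin h) (c : C) {j : ℕ} (hj : j ≤ L) : ∀ k' c', upG G k c j k' c' ≤ L := by
  intro k' c'
  unfold upG
  by_cases hk : k' = k
  · subst hk
    rw [Function.update_self]
    by_cases hc : c' = c
    · subst hc
      rw [Function.update_self]
      exact hj
    · rw [Function.update_of_ne hc]
      exact hG _ _
  · rw [Function.update_of_ne hk]
    exact hG _ _

theorem gof_le {h L : ℕ} {C : Type} (ω : Fin h × C → Fin L) : ∀ k c, gof ω k c ≤ L :=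
  fun k c => (ω (k, c)).2.le

/-- The total noise. -/
noncomputable def potG {S C : Type} [Fintype S] [Nonempty S] {h : ℕ} (E : ℕ → S → S → ℝ)
    (lam : ℝ) (rho : ℕ → ℝ) (L : ℕ) (χ : ℕ → S → C) (G : Fin h → C → ℕ) (s : S) : ℝ :=
  ∑ k : Fin h, cf (E k) (lam * rho k / (L : ℝ)) lam (χ k) (G k) s

theorem potG_up {S C : Type} [Fintype S] [Nonempty S] [DecidableEq C] {h : ℕ}
    (E : ℕ → S → S → ℝ) (lam : ℝ) (rho : ℕ → ℝ) (L : ℕ) (χ : ℕ → S → C) (G : Fin h → C → ℕ)
    (k : Fin h) (c : C) (j : ℕ) :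
    potG E lam rho L χ (upG G k c j) = fun s =>
      (potG E lam rho L χ G s - cf (E k) (lam * rho k / (L : ℝ)) lam (χ k) (G k) s) +
        cf (E k) (lam * rho k / (L : ℝ)) lam (χ k) (Function.update (G k) c j) s := by
  funext s
  unfold potG
  rw [← Finset.add_sum_erase univ _ (mem_univ k),
    ← Finset.add_sum_erase univ
      (fun k : Fin h => cf (E k) (lam * rho k / (L : ℝ)) lam (χ k) (G k) s) (mem_univ k)]
  have e1 : upG G k c j k = Function.update (G k) c j := by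
    unfold upG
    rw [Function.update_self]
  have e2 : ∑ k' ∈ univ.erase k, cf (E k') (lam * rho k' / (L : ℝ)) lam (χ k')
      (upG G k c j k') s = ∑ k' ∈ univ.erase k,
        cf (E k') (lam * rho k' / (L : ℝ)) lam (χ k') (G k') s := by
    refine sum_congr rfl fun k' hk' => ?_
    have : upG G k c j k' = G k' := by
      unfold upG
      rw [Function.update_of_ne (ne_of_mem_erase hk')]
    rw [this]
  rw [e1, e2]
  ring

/-- The hypotheses on the levels. -/
structure LvS {S : Type} [Fintype S] (D : S → S → ℝ) (E : ℕ → S → S → ℝ) (rho : ℕ → ℝ)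
    (h n : ℕ) (K : ℝ) : Prop where
  pmD : PM D
  pmE : ∀ k, PM (E k)
  le : ∀ k x y, E k x y ≤ D x y
  ge : ∀ k, k < h → ∀ x y, D x y ≤ E k x y + rho k
  zero : ∀ k, k < h → ∀ x y, D x y ≤ rho k / (2 * (Fintype.card S : ℝ)) → E k x y = 0
  pos : ∀ k, k < h → 0 < rho k
  four : ∀ k, k + 1 < h → 4 * rho k ≤ rho (k + 1)
  win : ∀ k, k + n < h → 800 * (Fintype.card S : ℝ) ^ 2 * rho k ≤ rho (k + n)
  cov : ∀ r s, D r s = 0 ∨ ∃ k, k < h ∧ 8 * rho k ≤ D r s ∧ D r s < 32 * rho k
  npos : 0 < n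
  ksum : ∀ r s, ∑ k ∈ range h, min (E k r s) (rho k) ≤ K * D r s

/-- The hypotheses on the colours. -/
structure ColS {S C : Type} [Fintype C] (E : ℕ → S → S → ℝ) (rho : ℕ → ℝ)
    (h : ℕ) (χ : ℕ → S → C) (u : C → ℝ) (W : ℕ → S → ℝ) : Prop where
  sep : ∀ k, k < h → ∀ x x', χ k x = χ k x' → E k x x' ≤ 4 * rho k ∨ 34 * rho k < E k x x'
  wt : ∀ k, k < h → ∀ r x, E k r x ≤ rho k → u (χ k x) ≤ W k r
  u1 : ∀ c, 1 ≤ u c
  kraft : ∑ c, u c * Real.exp (- u c) ≤ 1

theorem costS {S C : Type} [Fintype S] [Nonempty S] {h n : ℕ} {D : S → S → ℝ}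
    {E : ℕ → S → S → ℝ} {rho : ℕ → ℝ} {K lam : ℝ} (hLv : LvS D E rho h n K) (hlam : 0 ≤ lam)
    (hK : K * lam ≤ 1 / 2) {L : ℕ} (hL : 0 < L) (χ : ℕ → S → C) (G : Fin h → C → ℕ)
    (hG : ∀ k c, G k c ≤ L) (r s : S) :
    D r s ≤ 2 * cst D (potG E lam rho L χ G) r s ∧
      cst D (potG E lam rho L χ G) r s ≤ 3 / 2 * D r s := by
  have hLR : (0 : ℝ) < L := by exact_mod_cast hL
  have h1 : |potG E lam rho L χ G r - potG E lam rho L χ G s| ≤ 1 / 2 * D r s := by
    unfold potG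
    rw [← sum_sub_distrib]
    refine (abs_sum_le_sum_abs _ _).trans ?_
    have h2 : ∀ k : Fin h, |cf (E k) (lam * rho k / (L : ℝ)) lam (χ k) (G k) r -
        cf (E k) (lam * rho k / (L : ℝ)) lam (χ k) (G k) s| ≤
        lam * min (E k r s) (rho k) := by
      intro k
      have hrk := (hLv.pos k k.2).le
      refine cf_diff (hLv.pmE k) (by positivity) hlam (χ k) (G k) (hG k) ?_ r s
      field_simp
    refine (sum_le_sum fun k _ => h2 k).trans ?_
    rw [← mul_sum, Fin.sum_univ_eq_sum_range (fun k => min (E k r s) (rho k)) h]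
    have h3 := mul_le_mul_of_nonneg_left (hLv.ksum r s) hlam
    have h4 := mul_le_mul_of_nonneg_right hK (hLv.pmD.nonneg r s)
    linarith
  rw [abs_le] at h1
  unfold cst
  constructor <;> linarith [h1.1, h1.2]

/-- Changing the noise of level `k` does not change the differences of the total noise at points
at distance at most `rho k / (2 card S)`. -/
theorem pot_zero {S C : Type} [Fintype S] [Nonempty S] [DecidableEq C] {h n : ℕ}
    {D : S → S → ℝ} {E : ℕ → S → S → ℝ} {rho : ℕ → ℝ} {K lam : ℝ} (hLv : LvS D E rho h n K)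
    (hlam : 0 ≤ lam) (L : ℕ) (χ : ℕ → S → C) (G : Fin h → C → ℕ) (k : Fin h) (c : C) (j : ℕ)
    (r s : S) (hrs : D r s ≤ rho k / (2 * (Fintype.card S : ℝ))) :
    potG E lam rho L χ (upG G k c j) r - potG E lam rho L χ (upG G k c j) s =
      potG E lam rho L χ G r - potG E lam rho L χ G s := by
  have key : ∀ g : C → ℕ, cf (E k) (lam * rho k / (L : ℝ)) lam (χ k) g r =
      cf (E k) (lam * rho k / (L : ℝ)) lam (χ k) g s := by
    intro g
    have h1 := cf_lip (hLv.pmE k) (eta := lam * rho k / (L : ℝ)) hlam (χ k) g r s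
    have h2 := cf_lip (hLv.pmE k) (eta := lam * rho k / (L : ℝ)) hlam (χ k) g s r
    rw [(hLv.pmE k).symm s r] at h2
    rw [hLv.zero k k.2 r s hrs, mul_zero] at h1 h2
    linarith
  rw [potG_up]
  simp only
  rw [key, key]
  ring

end Pool.Agent.MP_a4c1f4_lc.Snow
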