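import Pool.Agent.Lib.MP_a4c1f4_lc.Spec3
import Pool.Agent.Lib.MP_a4c1f4_lc.Snow.Prob

set_option linter.all false

/-!
# The levels of a finite pseudometric

`D` is a pseudometric whose `p`-th power satisfies the triangle inequality, `p ≥ 1`.
-/

namespace Pool.Agent.MP_a4c1f4_lc.Snow

open Finset Pool.Agent.MP_a4c1f4_lc

/-- Distances below `a` are made smaller. -/
noncomputable def trn (p a d : ℝ) : ℝ := if a ≤ d then d else a ^ (1 - p) * d ^ p

theorem trn_nonneg {p a d : ℝ} (ha : 0 < a) (hd : 0 ≤ d) : 0 ≤ trn p a d := by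
  unfold trn
  split_ifs
  · exact hd
  · positivity

theorem trn_zero {p a : ℝ} (ha : 0 < a) (hp : 1 ≤ p) : trn p a 0 = 0 := by
  unfold trn
  rw [if_neg (not_le.2 ha), Real.zero_rpow (by linarith), mul_zero]

/-- `a ^ (1 - p) * d ^ p = d * (d / a) ^ (p - 1)`. -/
theorem trn_id {p a d : ℝ} (ha : 0 < a) (hd : 0 < d) :
    a ^ (1 - p) * d ^ p = d * (d / a) ^ (p - 1) := by
  rw [Real.div_rpow hd.le ha.le]
  have e1 : d ^ p = d ^ (p - 1) * d := by
    rw [← Real.rpow_add_one hd.ne']
    congr 1
    ring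
  have e2 : a ^ (1 - p) = (a ^ (p - 1))⁻¹ := by
    rw [← Real.rpow_neg ha.le]
    congr 1
    ring
  rw [e1, e2]
  field_simp

theorem trn_le {p a d : ℝ} (ha : 0 < a) (hp : 1 ≤ p) (hd : 0 ≤ d) : trn p a d ≤ d := by
  rcases hd.eq_or_lt with h0 | h0
  · rw [← h0, trn_zero ha hp]
  · unfold trn
    split_ifs with h
    · exact le_rfl
    · rw [trn_id ha h0]
      have h1 : d / a ≤ 1 := by
        rw [div_le_one ha]
        exact (not_le.1 h).le
      have h2 : (d / a) ^ (p - 1) ≤ 1 := Real.rpow_le_one (by positivity) h1 (by linarith)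
      nlinarith

theorem le_trn {p a d : ℝ} (ha : 0 < a) (hd : 0 ≤ d) : d ≤ trn p a d + a := by
  unfold trn
  split_ifs with h
  · linarith
  · have h1 : 0 ≤ a ^ (1 - p) * d ^ p := by positivity
    have := not_le.1 h
    linarith

theorem trn_le' {p a d : ℝ} (ha : 0 < a) (hp : 1 ≤ p) (hd : 0 ≤ d) :
    trn p a d ≤ a ^ (1 - p) * d ^ p := by
  unfold trn
  split_ifs with h
  · have h0 : 0 < d := by linarith
    rw [trn_id ha h0]
    have h1 : 1 ≤ d / a := by
      rw [le_div_iff₀ ha]
      linarith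
    have h2 : 1 ≤ (d / a) ^ (p - 1) := Real.one_le_rpow h1 (by linarith)
    nlinarith
  · exact le_rfl

/-- The mixed case of the triangle inequality. -/
theorem trn_mix {p a x y z : ℝ} (ha : 0 < a) (hp : 1 ≤ p) (hx : 0 ≤ x) (hy : a ≤ y)
    (hz0 : 0 ≤ z) (h : x ^ p ≤ y ^ p + z ^ p) : x ≤ y + a ^ (1 - p) * z ^ p := by
  have hy0 : 0 < y := by linarith
  obtain ⟨t, ht⟩ : ∃ t : ℝ, t = a ^ (1 - p) * z ^ p := ⟨_, rfl⟩
  have ht0 : 0 ≤ t := by rw [ht]; positivity
  rw [← ht]
  have hb := one_add_mul_self_le_rpow_one_add (s := t / y) (by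
    have : 0 ≤ t / y := by positivity
    linarith) hp
  have e1 : (y + t) ^ p = y ^ p * (1 + t / y) ^ p := by
    rw [← Real.mul_rpow hy0.le (by positivity)]
    congr 1
    field_simp
  have hyp0 : 0 < y ^ p := by positivity
  have h1 : y ^ p + z ^ p ≤ (y + t) ^ p := by
    rw [e1]
    have h2 : y ^ p * (1 + p * (t / y)) ≤ y ^ p * (1 + t / y) ^ p :=
      mul_le_mul_of_nonneg_left hb hyp0.le
    have h3 : z ^ p ≤ y ^ p * (p * (t / y)) := by
      have e2 : y ^ p = y ^ (p - 1) * y := by
        rw [← Real.rpow_add_one hy0.ne']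
        congr 1
        ring
      have e3 : y ^ p * (p * (t / y)) = p * (y ^ (p - 1) * t) := by
        rw [e2]
        field_simp
      rw [e3, ht]
      have h4 : 1 ≤ y ^ (p - 1) * a ^ (1 - p) := by
        have e4 : a ^ (1 - p) = (a ^ (p - 1))⁻¹ := by
          rw [← Real.rpow_neg ha.le]
          congr 1
          ring
        rw [e4, ← div_eq_mul_inv, ← Real.div_rpow hy0.le ha.le]
        exact Real.one_le_rpow (by rw [le_div_iff₀ ha]; linarith) (by linarith)
      have h5 : 0 ≤ z ^ p := by positivity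
      have h6 : z ^ p ≤ y ^ (p - 1) * (a ^ (1 - p) * z ^ p) := by nlinarith
      have h7 : 0 ≤ y ^ (p - 1) * (a ^ (1 - p) * z ^ p) := by positivity
      nlinarith
    linarith
  have h2 := h.trans h1
  exact (Real.rpow_le_rpow_iff hx (by positivity) (by linarith)).1 h2

theorem trn_pm {S : Type} {D : S → S → ℝ} (hD : PM D) {p a : ℝ} (ha : 0 < a) (hp : 1 ≤ p)
    (hpm : ∀ x y z, D x z ^ p ≤ D x y ^ p + D y z ^ p) : PM (fun x y => trn p a (D x y)) := by
  refine ⟨fun x => ?_, fun x y => ?_, fun x y z => ?_⟩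
  · show trn p a (D x x) = 0
    rw [hD.self, trn_zero ha hp]
  · show trn p a (D x y) = trn p a (D y x)
    rw [hD.symm]
  · show trn p a (D x z) ≤ trn p a (D x y) + trn p a (D y z)
    have hxz := hD.nonneg x z
    have hxy := hD.nonneg x y
    have hyz := hD.nonneg y z
    have hap : 0 < a ^ (1 - p) := by positivity
    by_cases h1 : a ≤ D x y
    · by_cases h2 : a ≤ D y z
      · have e1 : trn p a (D x y) = D x y := if_pos h1
        have e2 : trn p a (D y z) = D y z := if_pos h2
        rw [e1, e2]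
        exact (trn_le ha hp hxz).trans (hD.tri x y z)
      · have e1 : trn p a (D x y) = D x y := if_pos h1
        have e2 : trn p a (D y z) = a ^ (1 - p) * D y z ^ p := if_neg h2
        rw [e1, e2]
        exact (trn_le ha hp hxz).trans (trn_mix ha hp hxz h1 hyz (hpm x y z))
    · by_cases h2 : a ≤ D y z
      · have e1 : trn p a (D x y) = a ^ (1 - p) * D x y ^ p := if_neg h1
        have e2 : trn p a (D y z) = D y z := if_pos h2
        rw [e1, e2, add_comm]
        refine (trn_le ha hp hxz).trans (trn_mix ha hp hxz h2 hxy ?_)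
        have := hpm x y z
        linarith
      · have e1 : trn p a (D x y) = a ^ (1 - p) * D x y ^ p := if_neg h1
        have e2 : trn p a (D y z) = a ^ (1 - p) * D y z ^ p := if_neg h2
        rw [e1, e2, ← mul_add]
        exact (trn_le' ha hp hxz).trans (mul_le_mul_of_nonneg_left (hpm x y z) hap.le)

private theorem uniq {x : ℝ} {k k' : ℤ} (h1 : (4 : ℝ) ^ k ≤ x) (h2 : x < (4 : ℝ) ^ (k + 1))
    (h3 : (4 : ℝ) ^ k' ≤ x) (h4 : x < (4 : ℝ) ^ (k' + 1)) : k = k' := by
  have a : k < k' + 1 := (zpow_lt_zpow_iff_right₀ (by norm_num : (1 : ℝ) < 4)).1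
    (lt_of_le_of_lt h1 h4)
  have b : k' < k + 1 := (zpow_lt_zpow_iff_right₀ (by norm_num : (1 : ℝ) < 4)).1
    (lt_of_le_of_lt h3 h2)
  omega

theorem low_sum {h : ℕ} {rho : ℕ → ℝ} (hpos : ∀ k, 0 < rho k)
    (hfour : ∀ k, k + 1 < h → 4 * rho k ≤ rho (k + 1)) :
    ∀ j, j < h → ∑ k ∈ range (j + 1), rho k ≤ 4 / 3 * rho j := by
  intro j
  induction j with
  | zero =>
    intro _
    have := hpos 0
    simp
    linarith
  | succ j ih =>
    intro hj
    rw [sum_range_succ]
    have h1 := ih (by omega)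
    have h2 := hfour j hj
    linarith

theorem geo_sum {y : ℝ} (hy0 : 0 ≤ y) (hy1 : y < 1) (N : ℕ) :
    ∑ i ∈ range N, (if i < 2 then (1 : ℝ) else y ^ (i - 2)) ≤ 2 + 1 / (1 - y) := by
  have h1 : ∑ i ∈ range N, (if i < 2 then (1 : ℝ) else y ^ (i - 2)) ≤
      ∑ i ∈ range (N + 2), (if i < 2 then (1 : ℝ) else y ^ (i - 2)) := by
    apply sum_le_sum_of_subset_of_nonneg
    · intro i hi
      rw [mem_range] at hi ⊢
      omega
    · intro i _ _
      split_ifs
      · norm_num
      · positivity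
  refine h1.trans ?_
  rw [sum_range_succ', sum_range_succ']
  have e : ∀ i, (if i + 1 + 1 < 2 then (1 : ℝ) else y ^ (i + 1 + 1 - 2)) = y ^ i := by
    intro i
    rw [if_neg (by omega)]
    rfl
  simp only [e]
  have h2 : ∑ i ∈ range N, y ^ i ≤ 1 / (1 - y) := by
    rw [le_div_iff₀ (by linarith), geom_sum_mul_neg]
    have : 0 ≤ y ^ N := by positivity
    linarith
  norm_num
  have e2 : 1 / (1 - y) = (1 - y)⁻¹ := one_div _
  rw [e2] at h2
  linarith

/-- Construction of the levels. -/
theorem metricS (hC : ContractProp) (m : ℕ) (D : Fin m → Fin m → ℝ) (n : ℕ) (K : ℝ)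
    (hD : PM D) (hm : 0 < m) (hn : 0 < n)
    (hyp : Nat.log 2 m + 6 ≤ n ∨ ∃ Z : Finset ℤ, Z.card ≤ n ∧ ∀ i j, D i j = 0 ∨
      ∃ k ∈ Z, (4 : ℝ) ^ k ≤ D i j ∧ D i j < (4 : ℝ) ^ (k + 1))
    (hK : (n : ℝ) ≤ K ∨ ∃ p : ℝ, 1 < p ∧ 4 * p / (p - 1) ≤ K ∧
      ∀ i j k, D i k ^ p ≤ D i j ^ p + D j k ^ p) :
    ∃ (h : ℕ) (E : ℕ → Fin m → Fin m → ℝ) (rho : ℕ → ℝ), LvS D E rho h n K := by
  classical
  haveI : Nonempty (Fin m) := ⟨⟨0, hm⟩⟩
  have hmR : (0 : ℝ) < m := by exact_mod_cast hm
  have hmR1 : (1 : ℝ) ≤ m := by exact_mod_cast hm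
  -- the exponent
  obtain ⟨p, hp1, hpm, hp⟩ : ∃ p : ℝ, 1 ≤ p ∧ (∀ i j k, D i k ^ p ≤ D i j ^ p + D j k ^ p) ∧
      ((n : ℝ) ≤ K ∨ (1 < p ∧ 4 * p / (p - 1) ≤ K)) := by
    rcases hK with h | ⟨p, h1, h2, h3⟩
    · refine ⟨1, le_rfl, fun i j k => ?_, Or.inl h⟩
      simp only [Real.rpow_one]
      exact hD.tri i j k
    · exact ⟨p, h1.le, h3, Or.inr ⟨h1, h2⟩⟩
  obtain ⟨Z, hZ⟩ : ∃ Z : Finset ℤ, Z = ((Finset.univ : Finset (Fin m × Fin m)).filter
    (fun p => 0 < D p.1 p.2)).image (fun p => Int.log 4 (D p.1 p.2)) := ⟨_, rfl⟩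
  have hZmem : ∀ i j, 0 < D i j → Int.log 4 (D i j) ∈ Z := by
    intro i j hij
    rw [hZ]
    exact Finset.mem_image.2 ⟨(i, j), by simp [hij], rfl⟩
  have hlog : ∀ x : ℝ, 0 < x → (4 : ℝ) ^ (Int.log 4 x) ≤ x ∧ x < (4 : ℝ) ^ (Int.log 4 x + 1) := by
    intro x hx
    have h1 := Int.zpow_log_le_self (b := 4) (by norm_num) hx
    have h2 := Int.lt_zpow_succ_log_self (b := 4) (by norm_num) x
    exact ⟨by exact_mod_cast h1, by exact_mod_cast h2⟩
  obtain ⟨h, hh⟩ : ∃ h : ℕ, h = Z.card := ⟨_, rfl⟩
  obtain ⟨e, he⟩ : ∃ e : Fin h ↪o ℤ, Set.range e = (Z : Set ℤ) :=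
    ⟨Z.orderEmbOfFin hh.symm, Finset.range_orderEmbOfFin _ _⟩
  obtain ⟨rho, hrho⟩ : ∃ rho : ℕ → ℝ, rho = fun k =>
    if hk : k < h then (4 : ℝ) ^ (e ⟨k, hk⟩) / 8 else 1 := ⟨_, rfl⟩
  have hrk : ∀ k (hk : k < h), rho k = (4 : ℝ) ^ (e ⟨k, hk⟩) / 8 := by
    intro k hk
    rw [hrho]
    simp only [hk, dif_pos]
  have hpos : ∀ k, 0 < rho k := by
    intro k
    rw [hrho]
    simp only
    split_ifs with hk
    · positivity
    · norm_num
  have hE : ∀ k, ∃ E' : Fin m → Fin m → ℝ, PM E' ∧
      (∀ x y, E' x y ≤ trn p (rho k / 2) (D x y)) ∧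
      (∀ x y, D x y ≤ E' x y + rho k) ∧
      (∀ x y, D x y ≤ rho k / (2 * (m : ℝ)) → E' x y = 0) := by
    intro k
    have hk2 : 0 < rho k / 2 := by have := hpos k; linarith
    obtain ⟨E', h1, h2, h3, h4⟩ := hC (Fin m) (fun x y => trn p (rho k / 2) (D x y))
      (rho k / (2 * (m : ℝ))) (trn_pm hD hk2 hp1 hpm) (div_nonneg (hpos k).le (by linarith))
    refine ⟨E', h1, h2, ?_, ?_⟩
    · intro x y
      have h5 := h3 x y
      rw [Fintype.card_fin] at h5
      have h6 : (m : ℝ) * (rho k / (2 * (m : ℝ))) = rho k / 2 := by field_simp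
      rw [h6] at h5
      have h7 := le_trn (p := p) hk2 (hD.nonneg x y)
      linarith
    · intro x y hxy
      exact h4 x y ((trn_le hk2 hp1 (hD.nonneg x y)).trans hxy)
  choose E hE1 hE2 hE3 hE4 using hE
  have hEle : ∀ k x y, E k x y ≤ D x y := fun k x y =>
    (hE2 k x y).trans (trn_le (by have := hpos k; linarith) hp1 (hD.nonneg x y))
  have hstep : ∀ (n k : ℕ) (hk : k + n < h), e ⟨k, by omega⟩ + n ≤ e ⟨k + n, hk⟩ := by
    intro n
    induction n with
    | zero => intro k hk; simp
    | succ n ih =>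
      intro k hk
      have h1 := ih k (by omega)
      have h2 : e ⟨k + n, by omega⟩ < e ⟨k + (n + 1), hk⟩ :=
        e.lt_iff_lt.2 (by simp [Fin.lt_def])
      push_cast
      omega
  have hpow : ∀ (n k : ℕ), k + n < h → (4 : ℝ) ^ n * rho k ≤ rho (k + n) := by
    intro n k hk
    rw [hrk k (by omega), hrk (k + n) hk]
    have h1 := hstep n k hk
    have h2 : (4 : ℝ) ^ (e ⟨k, by omega⟩ + (n : ℤ)) ≤ (4 : ℝ) ^ (e ⟨k + n, hk⟩) :=
      zpow_le_zpow_right₀ (by norm_num) h1
    rw [zpow_add₀ (by norm_num), zpow_natCast] at h2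
    have e1 : (4 : ℝ) ^ n * ((4 : ℝ) ^ (e ⟨k, by omega⟩) / 8) =
        (4 : ℝ) ^ (e ⟨k, by omega⟩) * (4 : ℝ) ^ n / 8 := by ring
    rw [e1]
    linarith
  have hfour : ∀ k, k + 1 < h → 4 * rho k ≤ rho (k + 1) := by
    intro k hk
    have := hpow 1 k hk
    rw [pow_one] at this
    exact this
  have hwin : ∀ k, k + n < h → 800 * (m : ℝ) ^ 2 * rho k ≤ rho (k + n) := by
    intro k hk
    rcases hyp with hyp | ⟨Z', hZ', hyp⟩
    · have h1 := hpow n k hk
      have h2 : (800 : ℝ) * m ^ 2 ≤ 4 ^ n := by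
        have h3 : (m : ℝ) < 2 ^ (Nat.log 2 m + 1) := by
          exact_mod_cast Nat.lt_pow_succ_log_self (b := 2) (by norm_num) m
        obtain ⟨w, hw⟩ : ∃ w : ℝ, w = 2 ^ (Nat.log 2 m) := ⟨_, rfl⟩
        have h4 : (m : ℝ) < 2 * w := by rw [hw, ← pow_succ']; exact h3
        have h5 : (4 : ℝ) ^ (Nat.log 2 m + 6) = 4096 * w ^ 2 := by
          rw [hw, ← pow_mul, mul_comm (Nat.log 2 m) 2, pow_mul, pow_add]
          norm_num
          ring
        have h6 : (4 : ℝ) ^ (Nat.log 2 m + 6) ≤ 4 ^ n := pow_le_pow_right₀ (by norm_num) hyp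
        have h7 : (m : ℝ) ^ 2 ≤ (2 * w) ^ 2 := pow_le_pow_left₀ hmR.le h4.le 2
        nlinarith
      calc (800 : ℝ) * m ^ 2 * rho k ≤ 4 ^ n * rho k :=
            mul_le_mul_of_nonneg_right h2 (hpos k).le
        _ ≤ rho (k + n) := h1
    · exfalso
      have h1 : Z ⊆ Z' := by
        intro k0 hk0
        rw [hZ, Finset.mem_image] at hk0
        obtain ⟨⟨i, j⟩, hij, hk0⟩ := hk0
        simp only [Finset.mem_filter, Finset.mem_univ, true_and] at hij hk0
        obtain ⟨h2, h3⟩ := hlog _ hij
        rcases hyp i j with h4 | ⟨k1, hk1, h5, h6⟩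
        · linarith
        · have := uniq h2 h3 h5 h6
          rw [← hk0, this]
          exact hk1
      have h2 := Finset.card_le_card h1
      omega
  have hcov : ∀ r s, D r s = 0 ∨ ∃ k, k < h ∧ 8 * rho k ≤ D r s ∧ D r s < 32 * rho k := by
    intro i j
    rcases (hD.nonneg i j).eq_or_lt with h0 | h0
    · left; exact h0.symm
    · right
      have h1 := hZmem i j h0
      have h2 : Int.log 4 (D i j) ∈ Set.range e := by rw [he]; exact h1
      obtain ⟨⟨k, hk⟩, hk2⟩ := h2
      obtain ⟨h3, h4⟩ := hlog _ h0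
      refine ⟨k, hk, ?_, ?_⟩
      · rw [hrk k hk, hk2]
        linarith
      · rw [hrk k hk, hk2]
        rw [zpow_add₀ (by norm_num), zpow_one] at h4
        linarith
  have hmn : ∀ j k, j ≤ k → k < h → (4 : ℝ) ^ (k - j) * rho j ≤ rho k := by
    intro j k hjk hk
    have := hpow (k - j) j (by omega)
    rwa [Nat.add_sub_cancel' hjk] at this
  refine ⟨h, E, rho, ⟨hD, hE1, hEle, fun k _ => hE3 k, ?_, fun k _ => hpos k, hfour, ?_,
    hcov, hn, ?_⟩⟩
  · intro k _ x y hxy
    rw [Fintype.card_fin] at hxy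
    exact hE4 k x y hxy
  · intro k hk
    rw [Fintype.card_fin]
    exact hwin k hk
  · -- the sum of the slopes
    intro r s
    have hK0 : 0 ≤ K := by
      rcases hp with hp | ⟨hp, hp2⟩
      · exact (Nat.cast_nonneg n).trans hp
      · refine le_trans ?_ hp2
        apply div_nonneg <;> linarith
    rcases hcov r s with h0 | ⟨j, hj, h1, h2⟩
    · rw [h0, mul_zero]
      refine sum_nonpos fun k _ => ?_
      refine (min_le_left _ _).trans ?_
      rw [← h0]
      exact hEle k r s
    · obtain ⟨d, hd⟩ : ∃ d : ℝ, d = D r s := ⟨_, rfl⟩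
      rw [← hd] at h1 h2 ⊢
      have hrj := hpos j
      have hd0 : 0 < d := by linarith
      rw [range_eq_Ico, ← sum_Ico_consecutive _ (Nat.zero_le (j + 1)) (by omega : j + 1 ≤ h),
        ← range_eq_Ico]
      have hlow : ∑ k ∈ range (j + 1), min (E k r s) (rho k) ≤ d / 6 := by
        refine (sum_le_sum fun k _ => min_le_right _ _).trans ?_
        have := low_sum hpos hfour j hj
        linarith
      have hup : ∀ k, min (E k r s) (rho k) ≤ d := fun k =>
        (min_le_left _ _).trans (by rw [hd]; exact hEle k r s)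
      rcases hp with hp | ⟨hp, hp2⟩
      · have hhigh : ∑ k ∈ Ico (j + 1) h, min (E k r s) (rho k) ≤ (n - 1) * d := by
          have h3 : ∀ k ∈ Ico (j + 1) h, min (E k r s) (rho k) ≤ if k < j + n then d else 0 := by
            intro k hk
            rw [mem_Ico] at hk
            split_ifs with hkn
            · exact hup k
            · refine (min_le_left _ _).trans (le_of_eq ?_)
              apply hE4
              have h4 := hwin j (by omega)
              have h5 : rho (j + n) ≤ rho k := by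
                have h6 := hmn (j + n) k (by omega) hk.2
                have h7 : (1 : ℝ) ≤ 4 ^ (k - (j + n)) := one_le_pow₀ (by norm_num)
                have := hpos (j + n)
                nlinarith
              rw [← hd, le_div_iff₀ (by linarith)]
              have h8 : m * rho j ≤ m ^ 2 * rho j := by
                have : (m : ℝ) ≤ m ^ 2 := by nlinarith
                exact mul_le_mul_of_nonneg_right this hrj.le
              have h9 : d * (2 * m) ≤ 64 * (m * rho j) := by nlinarith
              have h10 : 0 ≤ (m : ℝ) ^ 2 * rho j := by positivity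
              linarith
          refine (sum_le_sum h3).trans ?_
          rw [← sum_filter, sum_const, nsmul_eq_mul]
          apply mul_le_mul_of_nonneg_right _ hd0.le
          have h4 : ((Ico (j + 1) h).filter (fun k => k < j + n)) ⊆ Ico (j + 1) (j + n) := by
            intro k hk
            rw [mem_filter, mem_Ico] at hk
            rw [mem_Ico]
            exact ⟨hk.1.1, hk.2⟩
          have h5 := card_le_card h4
          rw [Nat.card_Ico] at h5
          have h6 : ((Ico (j + 1) h).filter (fun k => k < j + n)).card + 1 ≤ n := by omega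
          have h7 : ((((Ico (j + 1) h).filter (fun k => k < j + n)).card + 1 : ℕ) : ℝ) ≤ n := by
            exact_mod_cast h6
          push_cast at h7
          linarith
        have h3 : (n : ℝ) * d ≤ K * d := mul_le_mul_of_nonneg_right hp hd0.le
        linarith
      · obtain ⟨y, hy⟩ : ∃ y : ℝ, y = (4 : ℝ) ^ (-(p - 1)) := ⟨_, rfl⟩
        have hy0 : 0 < y := by rw [hy]; positivity
        have hyp' : y ≤ 1 / p := by
          rw [hy, Real.rpow_neg (by norm_num), ← one_div]
          apply one_div_le_one_div_of_le (by linarith)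
          have h3 := one_add_mul_self_le_rpow_one_add (s := 3) (by norm_num)
            (p := p) hp1
          have e1 : (1 : ℝ) + 3 = 4 := by norm_num
          rw [e1] at h3
          have e2 : (4 : ℝ) ^ p = (4 : ℝ) ^ (p - 1) * 4 := by
            rw [← Real.rpow_add_one (by norm_num)]
            congr 1
            ring
          rw [e2] at h3
          -- 1 + 3 p ≤ 4 * 4 ^ (p-1); need p ≤ 4 ^ (p-1)
          by_cases hp3 : 2 ≤ p
          · have h4 := one_add_mul_self_le_rpow_one_add (s := 3) (by norm_num)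
              (p := p - 1) (by linarith)
            rw [e1] at h4
            linarith
          · have h4 : (2 : ℝ) ^ (2 * (p - 1)) = (4 : ℝ) ^ (p - 1) := by
              rw [Real.rpow_mul (by norm_num)]
              norm_num
            have h5 := Real.add_one_le_exp (Real.log 4 * (p - 1))
            rw [Real.exp_mul, Real.exp_log (by norm_num)] at h5
            have h6 : 1 ≤ Real.log 4 := by
              rw [Real.le_log_iff_exp_le (by norm_num)]
              have := Real.exp_one_lt_d9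
              linarith
            nlinarith
        have hy1 : y < 1 := lt_of_le_of_lt hyp' (by rw [div_lt_one (by linarith)]; exact hp)
        have hhigh : ∑ k ∈ Ico (j + 1) h, min (E k r s) (rho k) ≤ d * (2 + 1 / (1 - y)) := by
          rw [sum_Ico_eq_sum_range]
          have h3 : ∀ i ∈ range (h - (j + 1)), min (E (j + 1 + i) r s) (rho (j + 1 + i)) ≤
              d * (if i < 2 then (1 : ℝ) else y ^ (i - 2)) := by
            intro i hi
            rw [mem_range] at hi
            split_ifs with hi2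
            · rw [mul_one]
              exact hup _
            · refine (min_le_left _ _).trans ((hE2 _ r s).trans ?_)
              have hk0 := hpos (j + 1 + i)
              have hk2 : 0 < rho (j + 1 + i) / 2 := by linarith
              rw [← hd]
              refine (trn_le' hk2 hp1 hd0.le).trans ?_
              rw [trn_id hk2 hd0]
              apply mul_le_mul_of_nonneg_left _ hd0.le
              have h4 := hmn j (j + 1 + i) (by omega) (by omega)
              have e1 : j + 1 + i - j = (i - 2) + 3 := by omega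
              rw [e1, pow_add] at h4
              have h5 : d / (rho (j + 1 + i) / 2) ≤ ((4 : ℝ) ^ (i - 2))⁻¹ := by
                rw [div_le_iff₀ hk2, ← div_eq_inv_mul, le_div_iff₀ (by positivity)]
                have h6 : (0 : ℝ) < 4 ^ (i - 2) := by positivity
                have h7 : d * 4 ^ (i - 2) ≤ 32 * rho j * 4 ^ (i - 2) :=
                  mul_le_mul_of_nonneg_right h2.le h6.le
                have e2 : (4 : ℝ) ^ 3 = 64 := by norm_num
                rw [e2] at h4
                linarith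
              have h8 : (d / (rho (j + 1 + i) / 2)) ^ (p - 1) ≤
                  (((4 : ℝ) ^ (i - 2))⁻¹) ^ (p - 1) :=
                Real.rpow_le_rpow (by positivity) h5 (by linarith)
              refine h8.trans (le_of_eq ?_)
              rw [hy, ← Real.rpow_natCast ((4 : ℝ) ^ (-(p - 1))), ← Real.rpow_mul (by norm_num),
                Real.inv_rpow (by positivity), ← Real.rpow_natCast (4 : ℝ),
                ← Real.rpow_mul (by norm_num), ← Real.rpow_neg (by norm_num)]
              congr 1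
              ring
          refine (sum_le_sum h3).trans ?_
          rw [← mul_sum]
          exact mul_le_mul_of_nonneg_left (geo_sum hy0.le hy1 _) hd0.le
        have h3 : 1 / (1 - y) ≤ p / (p - 1) := by
          rw [div_le_div_iff₀ (by linarith) (by linarith)]
          have h4 : y * p ≤ 1 := by
            rw [le_div_iff₀ (by linarith)] at hyp'
            exact hyp'
          nlinarith
        have h4 : 1 ≤ p / (p - 1) := by
          rw [le_div_iff₀ (by linarith)]
          linarith
        have e3 : 4 * p / (p - 1) = 4 * (p / (p - 1)) := by ring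
        rw [e3] at hp2
        have h5 : 1 / 6 + (2 + 1 / (1 - y)) ≤ K := by linarith
        have h6 : d * (1 / 6 + (2 + 1 / (1 - y))) ≤ d * K := mul_le_mul_of_nonneg_left h5 hd0.le
        linarith

end Pool.Agent.MP_a4c1f4_lc.Snow
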