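import Pool.Agent.Lib.MP_a4c1f4_lc.Snow.Prob
import Pool.Agent.Lib.MP_a4c1f4_lc.Snow.Color
import Pool.Agent.Lib.MP_a4c1f4_lc.P9

set_option linter.all false

/-!
# The rates of the colours and their block sums
-/

namespace Pool.Agent.MP_a4c1f4_lc.Snow

open Finset Pool.Agent.MP_a4c1f4_lc

/-- The rate of the colour `c`. -/
noncomputable def uc (c : ℕ) : ℝ := 3 * ((Nat.log 2 (c + 1) : ℕ) + 1)

theorem uc_one (c : ℕ) : 1 ≤ uc c := by
  unfold uc
  have : (0 : ℝ) ≤ (Nat.log 2 (c + 1) : ℕ) := Nat.cast_nonneg _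
  linarith

theorem three_le_five : ∀ i : ℕ, 3 * ((i : ℝ) + 1) ≤ 5 ^ (i + 1) := by
  intro i
  induction i with
  | zero => norm_num
  | succ i ih =>
    rw [pow_succ]
    push_cast
    have : (0 : ℝ) ≤ i := Nat.cast_nonneg i
    nlinarith

theorem exp_three : (20 : ℝ) ≤ Real.exp 3 := by
  have h1 := Real.exp_one_gt_d9
  have h2 : Real.exp 3 = Real.exp 1 ^ 3 := by
    rw [← Real.exp_nat_mul]
    norm_num
  rw [h2]
  have h3 : (2.7182818283 : ℝ) ^ 3 ≤ Real.exp 1 ^ 3 := pow_le_pow_left₀ (by norm_num) h1.le 3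
  refine le_trans ?_ h3
  norm_num

theorem uc_exp (c : ℕ) : uc c * Real.exp (- uc c) ≤ 1 / (((c : ℝ) + 1) * ((c : ℝ) + 2)) := by
  obtain ⟨i, hi⟩ : ∃ i : ℕ, i = Nat.log 2 (c + 1) := ⟨_, rfl⟩
  have hu : uc c = 3 * ((i : ℝ) + 1) := by
    unfold uc
    rw [hi]
  have h1 : (c : ℝ) + 2 ≤ 2 ^ (i + 1) := by
    have := Nat.lt_pow_succ_log_self (b := 2) (by norm_num) (c + 1)
    rw [← hi] at this
    have h2 : c + 2 ≤ 2 ^ (i + 1) := by omega
    exact_mod_cast h2
  have hc0 : (0 : ℝ) ≤ c := Nat.cast_nonneg c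
  have h2 : ((c : ℝ) + 1) * ((c : ℝ) + 2) ≤ 4 ^ (i + 1) := by
    have e : (4 : ℝ) ^ (i + 1) = 2 ^ (i + 1) * 2 ^ (i + 1) := by
      rw [← mul_pow]
      norm_num
    rw [e]
    nlinarith
  have h3 : (20 : ℝ) ^ (i + 1) ≤ Real.exp (uc c) := by
    have e : Real.exp (uc c) = Real.exp 3 ^ (i + 1) := by
      rw [← Real.exp_nat_mul, hu]
      congr 1
      push_cast
      ring
    rw [e]
    exact pow_le_pow_left₀ (by norm_num) exp_three _
  have h4 := three_le_five i
  have e5 : (20 : ℝ) ^ (i + 1) = 5 ^ (i + 1) * 4 ^ (i + 1) := by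
    rw [← mul_pow]
    norm_num
  rw [Real.exp_neg, ← div_eq_mul_inv, div_le_div_iff₀ (Real.exp_pos _) (by positivity), one_mul]
  refine le_trans ?_ h3
  rw [e5]
  rw [← hu] at h4
  have hu0 : 0 ≤ uc c := by linarith [uc_one c]
  exact mul_le_mul h4 h2 (by positivity) (by positivity)

theorem kraft (N : ℕ) : ∑ c : Fin N, uc c * Real.exp (- uc c) ≤ 1 := by
  rw [Fin.sum_univ_eq_sum_range (fun c => uc c * Real.exp (- uc c)) N]
  have h1 : ∑ c ∈ range N, uc c * Real.exp (- uc c) ≤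
      ∑ c ∈ range N, 1 / (((c : ℝ) + 1) * ((c : ℝ) + 2)) := sum_le_sum fun c _ => uc_exp c
  refine h1.trans ?_
  have h2 : ∀ N : ℕ, ∑ c ∈ range N, 1 / (((c : ℝ) + 1) * ((c : ℝ) + 2)) =
      1 - 1 / ((N : ℝ) + 1) := by
    intro N
    induction N with
    | zero => simp
    | succ N ih =>
      rw [sum_range_succ, ih]
      push_cast
      field_simp
      ring
  rw [h2]
  have : (0 : ℝ) ≤ 1 / ((N : ℝ) + 1) := by positivity
  linarith

/-- The weights. -/
noncomputable def Wf {S : Type} [Fintype S] (E : ℕ → S → S → ℝ) (rho : ℕ → ℝ) (h : ℕ)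
    (k : ℕ) (r : S) : ℝ :=
  if k < h then
    3 * (2 + Real.logb 2 ((nb (E k) (80 * rho k) r : ℝ) / (nb (E k) (rho k / 8) r : ℝ)))
  else 0

theorem one_lt_two' : (1 : ℝ) < 2 := by norm_num

theorem colsS {S : Type} [Fintype S] [Nonempty S] {D : S → S → ℝ} {E : ℕ → S → S → ℝ}
    {rho : ℕ → ℝ} {h n : ℕ} {K : ℝ} (hLv : LvS D E rho h n K) :
    ∃ χ : ℕ → S → Fin (4 * Fintype.card S),
      ColS E rho h χ (fun c => uc (c : ℕ)) (Wf E rho h) := by
  classical
  have hcard : 0 < Fintype.card S := Fintype.card_pos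
  have hex : ∀ k, ∃ χ : S → Fin (4 * Fintype.card S), k < h →
      ((∀ x x', χ x = χ x' → E k x x' ≤ 4 * rho k ∨ 34 * rho k < E k x x') ∧
      ∀ r x, E k r x ≤ rho k →
        2 ^ (Nat.log 2 ((χ x : ℕ) + 1)) * nb (E k) (rho k / 8) r ≤
          2 * nb (E k) (80 * rho k) r) := by
    intro k
    by_cases hk : k < h
    · obtain ⟨χ, hχ⟩ := color (E k) (hLv.pmE k) (rho k) (hLv.pos k hk)
      exact ⟨χ, fun _ => hχ⟩
    · exact ⟨fun _ => ⟨0, by omega⟩, fun h' => absurd h' hk⟩
  choose χ hχ using hex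
  refine ⟨χ, ⟨fun k hk => (hχ k hk).1, ?_, fun c => uc_one _, kraft _⟩⟩
  intro k hk r x hrx
  have h1 := (hχ k hk).2 r x hrx
  have hρ := hLv.pos k hk
  have ha : 0 < nb (E k) (rho k / 8) r := nb_pos (hLv.pmE k) (by linarith) r
  have haR : (0 : ℝ) < nb (E k) (rho k / 8) r := by exact_mod_cast ha
  have h2 : (2 : ℝ) ^ (Nat.log 2 ((χ k x : ℕ) + 1)) * nb (E k) (rho k / 8) r ≤
      2 * nb (E k) (80 * rho k) r := by exact_mod_cast h1
  have hA : 0 < nb (E k) (80 * rho k) r := nb_pos (hLv.pmE k) (by linarith) r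
  have hAR : (0 : ℝ) < nb (E k) (80 * rho k) r := by exact_mod_cast hA
  unfold Wf
  rw [if_pos hk]
  unfold uc
  obtain ⟨i, hi⟩ : ∃ i : ℕ, i = Nat.log 2 ((χ k x : ℕ) + 1) := ⟨_, rfl⟩
  rw [← hi] at h2 ⊢
  have h3 : (2 : ℝ) ^ ((i : ℝ) - 1) ≤
      (nb (E k) (80 * rho k) r : ℝ) / (nb (E k) (rho k / 8) r : ℝ) := by
    rw [le_div_iff₀ haR, Real.rpow_sub (by norm_num), Real.rpow_one, Real.rpow_natCast]
    linarith
  have h4 : (i : ℝ) - 1 ≤
      Real.logb 2 ((nb (E k) (80 * rho k) r : ℝ) / (nb (E k) (rho k / 8) r : ℝ)) := by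
    rw [Real.le_logb_iff_rpow_le one_lt_two' (by positivity)]
    exact h3
  linarith

theorem Wf_nonneg {S : Type} [Fintype S] {D : S → S → ℝ} {E : ℕ → S → S → ℝ}
    {rho : ℕ → ℝ} {h n : ℕ} {K : ℝ} (hLv : LvS D E rho h n K) (k : ℕ) (r : S) :
    0 ≤ Wf E rho h k r := by
  unfold Wf
  split_ifs with hk
  · have hρ := hLv.pos k hk
    have ha : 0 < nb (E k) (rho k / 8) r := nb_pos (hLv.pmE k) (by linarith) r
    have haR : (0 : ℝ) < nb (E k) (rho k / 8) r := by exact_mod_cast ha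
    have h1 : nb (E k) (rho k / 8) r ≤ nb (E k) (80 * rho k) r :=
      nb_mono (hLv.pmE k) (by rw [(hLv.pmE k).self]; linarith)
    have h2 : (1 : ℝ) ≤ (nb (E k) (80 * rho k) r : ℝ) / (nb (E k) (rho k / 8) r : ℝ) := by
      rw [le_div_iff₀ haR, one_mul]
      exact_mod_cast h1
    have := Real.logb_nonneg one_lt_two' h2
    linarith
  · exact le_rfl

/-- Telescoping with stride `5`. -/
theorem stride (f : ℕ → ℝ) (M : ℝ) (h0 : ∀ k, 0 ≤ f k) (hM : ∀ k, f k ≤ M) (a n : ℕ) :
    ∑ k ∈ range n, (f (a + k + 5) - f (a + k)) ≤ 5 * M := by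
  have h1 := sum_range_sub (fun k => f (a + k) + f (a + k + 1) + f (a + k + 2) + f (a + k + 3) +
    f (a + k + 4)) n
  have h2 : ∑ k ∈ range n, (f (a + k + 5) - f (a + k)) = ∑ i ∈ range n,
      (f (a + (i + 1)) + f (a + (i + 1) + 1) + f (a + (i + 1) + 2) + f (a + (i + 1) + 3) +
          f (a + (i + 1) + 4) -
        (f (a + i) + f (a + i + 1) + f (a + i + 2) + f (a + i + 3) + f (a + i + 4))) := by
    refine sum_congr rfl fun i _ => ?_
    have e1 : a + (i + 1) = a + i + 1 := rfl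
    have e2 : a + i + 1 + 1 = a + i + 2 := rfl
    have e3 : a + i + 1 + 2 = a + i + 3 := rfl
    have e4 : a + i + 1 + 3 = a + i + 4 := rfl
    have e5 : a + i + 1 + 4 = a + i + 5 := rfl
    rw [e1, e2, e3, e4, e5]
    ring
  rw [h2, h1]
  have := h0 (a + 0)
  have := h0 (a + 0 + 1)
  have := h0 (a + 0 + 2)
  have := h0 (a + 0 + 3)
  have := h0 (a + 0 + 4)
  have := hM (a + n)
  have := hM (a + n + 1)
  have := hM (a + n + 2)
  have := hM (a + n + 3)
  have := hM (a + n + 4)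
  linarith

theorem blockS {S : Type} [Fintype S] [Nonempty S] {D : S → S → ℝ} {E : ℕ → S → S → ℝ}
    {rho : ℕ → ℝ} {h n : ℕ} {K : ℝ} (hLv : LvS D E rho h n K) (s : S) (b : ℕ) :
    ∑ k ∈ (range h).filter (fun k => k / n = b), Wf E rho h k s ≤
      6 * n + 15 * Real.logb 2 (Fintype.card S) := by
  classical
  have hcard : 0 < Fintype.card S := Fintype.card_pos
  obtain ⟨m, hm⟩ : ∃ m : ℝ, m = (Fintype.card S : ℝ) := ⟨_, rfl⟩
  have hm1 : 1 ≤ m := by
    rw [hm]
    exact_mod_cast hcard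
  rw [← hm]
  obtain ⟨f, hf⟩ : ∃ f : ℕ → ℝ, f = fun k =>
    if k < h then Real.logb 2 (nb D (rho k / 8) s : ℝ) else Real.logb 2 m := ⟨_, rfl⟩
  have hM0 : 0 ≤ Real.logb 2 m := Real.logb_nonneg one_lt_two' hm1
  have hnb1 : ∀ R, 0 ≤ R → (1 : ℝ) ≤ (nb D R s : ℝ) := fun R hR => by
    exact_mod_cast nb_pos hLv.pmD hR s
  have hnbm : ∀ R, (nb D R s : ℝ) ≤ m := fun R => by
    rw [hm]
    exact_mod_cast nb_le_card D R s
  have hf0 : ∀ k, 0 ≤ f k := by
    intro k
    rw [hf]
    simp only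
    split_ifs with hk
    · exact Real.logb_nonneg one_lt_two' (hnb1 _ (by have := hLv.pos k hk; linarith))
    · exact hM0
  have hfM : ∀ k, f k ≤ Real.logb 2 m := by
    intro k
    rw [hf]
    simp only
    split_ifs with hk
    · have := hnb1 (rho k / 8) (by have := hLv.pos k hk; linarith)
      exact Real.logb_le_logb_of_le one_lt_two' (by linarith) (hnbm _)
    · exact le_rfl
  have hmono := P9_mono (fun k hk => hLv.pos k hk) hLv.four
  -- one term
  have hterm : ∀ k, k < h → Wf E rho h k s ≤ 3 * (2 + (f (k + 5) - f k)) := by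
    intro k hk
    have hρ := hLv.pos k hk
    have ha : (1 : ℝ) ≤ (nb D (rho k / 8) s : ℝ) := hnb1 _ (by linarith)
    have hA : (1 : ℝ) ≤ (nb D (81 * rho k) s : ℝ) := hnb1 _ (by linarith)
    have h1 : nb D (rho k / 8) s ≤ nb (E k) (rho k / 8) s := by
      unfold nb
      apply card_le_card
      intro w hw
      rw [mem_filter] at hw ⊢
      exact ⟨hw.1, (hLv.le k w s).trans hw.2⟩
    have h2 : nb (E k) (80 * rho k) s ≤ nb D (81 * rho k) s := by
      unfold nb
      apply card_le_card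
      intro w hw
      rw [mem_filter] at hw ⊢
      refine ⟨hw.1, ?_⟩
      have := hLv.ge k hk w s
      have := hw.2
      linarith
    have h1' : (nb D (rho k / 8) s : ℝ) ≤ (nb (E k) (rho k / 8) s : ℝ) := by exact_mod_cast h1
    have h2' : (nb (E k) (80 * rho k) s : ℝ) ≤ (nb D (81 * rho k) s : ℝ) := by exact_mod_cast h2
    have hE0 : 0 < (nb (E k) (80 * rho k) s : ℝ) := by
      have : 0 < nb (E k) (80 * rho k) s := nb_pos (hLv.pmE k) (by linarith) s
      exact_mod_cast this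
    have h3 : Real.logb 2 ((nb (E k) (80 * rho k) s : ℝ) / (nb (E k) (rho k / 8) s : ℝ)) ≤
        Real.logb 2 (nb D (81 * rho k) s : ℝ) - Real.logb 2 (nb D (rho k / 8) s : ℝ) := by
      rw [← Real.logb_div (by linarith) (by linarith)]
      apply Real.logb_le_logb_of_le one_lt_two' (div_pos hE0 (by linarith))
      apply div_le_div₀ (by linarith) h2' (by linarith) h1'
    have h4 : Real.logb 2 (nb D (81 * rho k) s : ℝ) ≤ f (k + 5) := by
      rw [hf]
      simp only
      split_ifs with hk5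
      · apply Real.logb_le_logb_of_le one_lt_two' (by linarith)
        have h5 := hLv.four k (by omega)
        have h6 := hLv.four (k + 1) (by omega)
        have h7 := hLv.four (k + 2) (by omega)
        have h8 := hLv.four (k + 3) (by omega)
        have h9 := hLv.four (k + 4) (by omega)
        have h10 : nb D (81 * rho k) s ≤ nb D (rho (k + 5) / 8) s := by
          apply nb_mono hLv.pmD
          rw [hLv.pmD.self]
          norm_num at *
          linarith
        exact_mod_cast h10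
      · exact Real.logb_le_logb_of_le one_lt_two' (by linarith) (hnbm _)
    have h5 : f k = Real.logb 2 (nb D (rho k / 8) s : ℝ) := by
      rw [hf]
      simp only
      rw [if_pos hk]
    unfold Wf
    rw [if_pos hk, h5]
    linarith
  have hfinc : ∀ k, f k ≤ f (k + 5) := by
    intro k
    by_cases hk5 : k + 5 < h
    · rw [hf]
      simp only
      rw [if_pos hk5, if_pos (by omega : k < h)]
      have := hnb1 (rho k / 8) (by have := hLv.pos k (by omega); linarith)
      apply Real.logb_le_logb_of_le one_lt_two' (by linarith)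
      have h1 : nb D (rho k / 8) s ≤ nb D (rho (k + 5) / 8) s := by
        apply nb_mono hLv.pmD
        rw [hLv.pmD.self]
        have := hmono k (k + 5) (by omega) hk5
        linarith
      exact_mod_cast h1
    · have : f (k + 5) = Real.logb 2 m := by
        rw [hf]
        simp only
        rw [if_neg hk5]
      rw [this]
      exact hfM k
  have hsub : (range h).filter (fun k => k / n = b) ⊆ Ico (b * n) (b * n + n) := by
    intro k hk
    rw [mem_filter, mem_range] at hk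
    rw [mem_Ico]
    obtain ⟨-, rfl⟩ := hk
    constructor
    · exact Nat.div_mul_le_self k n
    · exact Nat.lt_div_mul_add (a := k) hLv.npos
  calc ∑ k ∈ (range h).filter (fun k => k / n = b), Wf E rho h k s
      ≤ ∑ k ∈ (range h).filter (fun k => k / n = b), 3 * (2 + (f (k + 5) - f k)) :=
        sum_le_sum fun k hk => hterm k (mem_range.1 (mem_filter.1 hk).1)
    _ ≤ ∑ k ∈ Ico (b * n) (b * n + n), 3 * (2 + (f (k + 5) - f k)) := by
        apply sum_le_sum_of_subset_of_nonneg hsub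
        intro k _ _
        have := hfinc k
        linarith
    _ = 3 * (2 * n + ∑ k ∈ range n, (f (b * n + k + 5) - f (b * n + k))) := by
        rw [sum_Ico_eq_sum_range, Nat.add_sub_cancel_left, ← mul_sum, sum_add_distrib, sum_const,
          card_range, nsmul_eq_mul]
        ring
    _ ≤ 3 * (2 * n + 5 * Real.logb 2 m) := by
        have := stride f (Real.logb 2 m) hf0 hfM (b * n) n
        linarith
    _ = _ := by ring

end Pool.Agent.MP_a4c1f4_lc.Snow
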