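import Pool.Agent.Lib.MP_a4c1f4_lc.Spec
import Pool.Agent.Lib.MP_a4c1f4_lc.Augment
import Pool.Agent.Lib.MP_a4c1f4_lc.OptBasic
import Pool.Agent.Lib.MP_a4c1f4_lc.AugOpt
import Pool.Agent.Lib.MP_a4c1f4_lc.Used
import Pool.Agent.Lib.MP_a4c1f4_lc.Mono
import Pool.Agent.Lib.MP_a4c1f4_lc.Step
import Pool.Agent.Lib.MP_a4c1f4_lc.Far
import Pool.Agent.Lib.MP_a4c1f4_lc.Abel
import Pool.Agent.Lib.MP_a4c1f4_lc.Copies
import Pool.Agent.Lib.MP_a4c1f4_lc.Spec3
import Pool.Agent.Lib.MP_a4c1f4_lc.P1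
import Pool.Agent.Lib.MP_a4c1f4_lc.P2
import Pool.Agent.Lib.MP_a4c1f4_lc.P3
import Pool.Agent.Lib.MP_a4c1f4_lc.P4
import Pool.Agent.Lib.MP_a4c1f4_lc.P5
import Pool.Agent.Lib.MP_a4c1f4_lc.P6
import Pool.Agent.Lib.MP_a4c1f4_lc.P7
import Pool.Agent.Lib.MP_a4c1f4_lc.P8
import Pool.Agent.Lib.MP_a4c1f4_lc.P9
import Pool.Agent.Lib.MP_a4c1f4_lc.P10
import Pool.Agent.Lib.MP_a4c1f4_lc.N0
import Pool.Agent.Lib.MP_a4c1f4_lc.Snow.Core
import Pool.Agent.Lib.MP_a4c1f4_lc.Snow.Metric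
import Pool.Agent.Lib.MP_a4c1f4_lc.Snow.Wt
import Pool.Agent.Lib.MP_a4c1f4_lc.Dbl.LDefs

set_option linter.all false

/-!
Few distance scales and p-metrics: the theorem in the form used by the hand-in Padded.
-/

namespace Pool.Agent.MP_a4c1f4_lc.Snow.TopP

open Finset Pool.Agent.MP_a4c1f4_lc Pool.Agent.MP_a4c1f4_lc.Snow
open Pool.Agent.MP_a4c1f4_lc.Dbl.L (assigned cost Respects)

section Aux

variable {N : Type*} [MetricSpace N] {m : ℕ}

private theorem cost_cons (s : Fin m → N) (x : N) (l : List N) (j : Fin m) (τ : List (Fin m)) :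
    cost s (x :: l) (j :: τ) = dist x (s j) + cost s l τ := by
  simp [cost]

private theorem cost_nonneg (s : Fin m → N) (l : List N) (τ : List (Fin m)) :
    0 ≤ cost s l τ := by
  induction l generalizing τ with
  | nil => simp [cost]
  | cons x l ih =>
    cases τ with
    | nil => simp [cost]
    | cons j τ => rw [cost_cons]; have := ih τ; positivity

variable (cap : Fin m → ℕ)

private theorem assigned_eq (p : N → (j : Fin m) × Fin (cap j)) [Nonempty ((j : Fin m) × Fin (cap j))]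
    (c : ((j : Fin m) × Fin (cap j)) → ((j : Fin m) × Fin (cap j)) → ℝ) (l : List N) :
    assigned (fun x l => (srv c (p x) (l.map p)).1) l = (srvs c (l.map p)).map Sigma.fst := by
  induction l with
  | nil => rfl
  | cons x l ih => simp only [assigned, List.map_cons, srvs, ih]

private theorem alg_cost (s : Fin m → N) (p : N → (j : Fin m) × Fin (cap j))
    [Nonempty ((j : Fin m) × Fin (cap j))]
    (c : ((j : Fin m) × Fin (cap j)) → ((j : Fin m) × Fin (cap j)) → ℝ) (l : List N) :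
    cost s l (assigned (fun x l => (srv c (p x) (l.map p)).1) l) ≤
      (l.map (fun x => dist x (s (p x).1))).sum +
        tcost (fun t t' => dist (s t.1) (s t'.1)) c (l.map p) := by
  induction l with
  | nil => simp [cost, tcost, assigned]
  | cons x l ih =>
    simp only [assigned, cost_cons, List.map_cons, List.sum_cons, tcost]
    have := dist_triangle x (s (p x).1) (s (srv c (p x) (l.map p)).1)
    linarith

private theorem opt_cost (s : Fin m → N) (p : N → (j : Fin m) × Fin (cap j))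
    (hp : ∀ x (t : (j : Fin m) × Fin (cap j)), dist x (s (p x).1) ≤ dist x (s t.1))
    (l : List N) (τ' : List ((j : Fin m) × Fin (cap j))) (hl : τ'.length = l.length) :
    acost (fun t t' : (j : Fin m) × Fin (cap j) => dist (s t.1) (s t'.1)) (l.map p) τ' ≤
        2 * cost s l (τ'.map Sigma.fst) ∧
      (l.map (fun x => dist x (s (p x).1))).sum ≤ cost s l (τ'.map Sigma.fst) := by
  induction l generalizing τ' with
  | nil =>
    cases τ' with
    | nil => simp [acost, cost]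
    | cons t τ' => simp at hl
  | cons x l ih =>
    cases τ' with
    | nil => simp at hl
    | cons t τ' =>
      obtain ⟨h1, h2⟩ := ih τ' (by simpa using hl)
      simp only [List.map_cons, cost_cons, List.sum_cons]
      have h3 := hp x t
      have h4 := dist_triangle (s (p x).1) x (s t.1)
      rw [dist_comm (s (p x).1) x] at h4
      have h5 : acost (fun t t' : (j : Fin m) × Fin (cap j) => dist (s t.1) (s t'.1))
          (p x :: l.map p) (t :: τ') = dist (s (p x).1) (s t.1) +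
          acost (fun t t' : (j : Fin m) × Fin (cap j) => dist (s t.1) (s t'.1)) (l.map p) τ' := by
        simp [acost]
      rw [h5]
      constructor <;> linarith

end Aux

/-- The theorem for the copies of the sites. -/
private theorem copies_aux (m : ℕ) (hm : 0 < m) (cap : Fin m → ℕ) (hcap : ∀ j, 0 < cap j)
    [Nonempty ((j : Fin m) × Fin (cap j))]
    (n : ℕ) (hn : 0 < n) (K : ℝ) (D : Fin m → Fin m → ℝ) (hPM : PM D)
    (hs : Nat.log 2 m + 6 ≤ n ∨ ∃ Z : Finset ℤ, Z.card ≤ n ∧ ∀ i j, D i j = 0 ∨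
      ∃ k ∈ Z, (4 : ℝ) ^ k ≤ D i j ∧ D i j < (4 : ℝ) ^ (k + 1))
    (hK : (n : ℝ) ≤ K ∨ ∃ p : ℝ, 1 < p ∧ 4 * p / (p - 1) ≤ K ∧
      ∀ i j k, D i k ^ p ≤ D i j ^ p + D j k ^ p) :
    1 ≤ K ∧ ∃ (Ω : Type) (_ : Fintype Ω) (w : Ω → ℝ)
      (c : Ω → ((j : Fin m) × Fin (cap j)) → ((j : Fin m) × Fin (cap j)) → ℝ),
      (∀ ω, 0 ≤ w ω) ∧ ∑ ω, w ω = 1 ∧
      ∀ l : List ((j : Fin m) × Fin (cap j)), l.length ≤ Fintype.card ((j : Fin m) × Fin (cap j)) →
        ∑ ω, w ω * tcost (pull Sigma.fst D) (c ω) l ≤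
          (6336 * K * (Real.log m + n) + 1) * optv (pull Sigma.fst D) l := by
  classical
  haveI hne' : Nonempty (Fin m) := ⟨⟨0, hm⟩⟩
  have hn1 : (1 : ℝ) ≤ (n : ℝ) := by exact_mod_cast hn
  have hK1 : 1 ≤ K := by
    rcases hK with h | ⟨p, h1, h2, -⟩
    · linarith
    · refine le_trans ?_ h2
      rw [le_div_iff₀ (by linarith)]
      linarith
  refine ⟨hK1, ?_⟩
  obtain ⟨h, E, rho, hLv⟩ := metricS contract m D n K hPM hm hn hs hK
  obtain ⟨χ, hCo⟩ := colsS hLv
  have hA2 := optBasic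
  have hA3 := augOpt augment hA2
  have hA4 := usedP hA3
  have hA5 := mono hA2
  have hA6 := potP hA2
  have hA7 := stepP hA4 hA6
  have hA8 := farP hA2 hA4 hA5
  have hP1 := asgBasic
  have hP2 := asgList hP1 hA2
  have hP3 := asgVal hP1
  have hP5 := capBasic
  have hP6 := capMono hP5 sup
  have hP7 := haul sup hP5 hP6
  have hP10 := capInv hP1 hP5
  have hM1 : (1 : ℝ) ≤ (m : ℝ) := by exact_mod_cast hm
  have hlog : 0 ≤ Real.log (m : ℝ) := Real.log_nonneg hM1
  have hlogb : 0 ≤ Real.logb 2 (m : ℝ) := Real.logb_nonneg one_lt_two' hM1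
  have hcore := coreS (T := (j : Fin m) × Fin (cap j)) hA5 hA8 hA4 hA7 hA6 abel hP2 hP3 hP1 hP5 hP6
    hP10 hP7 block hLv hCo (fun k s => Wf_nonneg hLv k s)
    (6 * n + 15 * Real.logb 2 m) (by positivity)
    (fun s b => by
      have := blockS hLv s b
      rw [Fintype.card_fin] at this
      exact this)
    (lam := 1 / (2 * K)) (by positivity)
    (by
      rw [div_le_div_iff₀ (by linarith) (by norm_num)]
      linarith)
    (by
      rw [mul_one_div, div_le_div_iff₀ (by linarith) (by norm_num)]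
      linarith) Sigma.fst
  obtain ⟨Ω, fΩ, w, c, hw0, hw1, hmain⟩ := hcore
  refine ⟨Ω, fΩ, w, c, hw0, hw1, fun l hl => (hmain l hl).trans ?_⟩
  have hO0 : 0 ≤ optv (pull Sigma.fst D) l :=
    (hA5 _ (pull (Sigma.fst : ((j : Fin m) × Fin (cap j)) → Fin m) D) l).2.1
      (fun r s => hPM.nonneg _ _)
  apply mul_le_mul_of_nonneg_right _ hO0
  have hl2 : Real.logb 2 (m : ℝ) ≤ 22 / 15 * Real.log m := by
    unfold Real.logb
    have h2 := Real.log_two_gt_d9
    rw [div_le_iff₀ (by linarith)]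
    nlinarith
  have e : 48 / (1 / (2 * K)) = 96 * K := by
    field_simp
    ring
  rw [e]
  nlinarith [mul_nonneg (by linarith : (0 : ℝ) ≤ K) hlog,
    mul_le_mul_of_nonneg_left hl2 (by linarith : (0 : ℝ) ≤ K)]

private theorem main_aux (hB : OptBasicProp)
    (hSrv : ∀ (T : Type) [Fintype T] [DecidableEq T] [Nonempty T] (c : T → T → ℝ) (l : List T),
      l.length ≤ Fintype.card T →
      (srvs c l).Nodup ∧ (srvs c l).length = l.length ∧ (srvs c l).toFinset = used c l)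
    (hCopies : ∀ (m : ℕ) (cap : Fin m → ℕ) (τ : List (Fin m)), (∀ j, τ.count j ≤ cap j) →
      ∃ τ' : List ((j : Fin m) × Fin (cap j)), τ'.Nodup ∧ τ'.map Sigma.fst = τ)
    (hCount : ∀ (m : ℕ) (cap : Fin m → ℕ) (τ : List ((j : Fin m) × Fin (cap j))), τ.Nodup →
      ∀ j : Fin m, (τ.map Sigma.fst).count j ≤ cap j)
    {N : Type*} [MetricSpace N] (m : ℕ) (hm : 0 < m) (s : Fin m → N) (cap : Fin m → ℕ)
    (hcap : ∀ j, 0 < cap j) (n : ℕ) (hn : 0 < n) (K : ℝ)
    (hs : Nat.log 2 m + 6 ≤ n ∨ ∃ Z : Finset ℤ, Z.card ≤ n ∧ ∀ i j, dist (s i) (s j) = 0 ∨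
      ∃ k ∈ Z, (4 : ℝ) ^ k ≤ dist (s i) (s j) ∧ dist (s i) (s j) < (4 : ℝ) ^ (k + 1))
    (hK : (n : ℝ) ≤ K ∨ ∃ p : ℝ, 1 < p ∧ 4 * p / (p - 1) ≤ K ∧ ∀ i j k,
      dist (s i) (s k) ^ p ≤ dist (s i) (s j) ^ p + dist (s j) (s k) ^ p) :
    ∃ (Ω : Type) (_ : Fintype Ω) (w : Ω → ℝ) (A : Ω → N → List N → Fin m),
      (∀ ω, 0 ≤ w ω) ∧ ∑ ω, w ω = 1 ∧
      (∀ ω l, l.length ≤ ∑ j, cap j → Respects cap (assigned (A ω) l)) ∧
      ∀ (l : List N) (τ : List (Fin m)), τ.length = l.length → Respects cap τ →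
        ∑ ω, w ω * cost s l (assigned (A ω) l) ≤
          12700 * K * (Real.log m + n) * cost s l τ := by
  classical
  have hcard : Fintype.card ((j : Fin m) × Fin (cap j)) = ∑ j, cap j := by
    simp [Fintype.card_sigma]
  haveI hne : Nonempty ((j : Fin m) × Fin (cap j)) := ⟨⟨⟨0, hm⟩, ⟨0, hcap _⟩⟩⟩
  haveI hne' : Nonempty (Fin m) := ⟨⟨0, hm⟩⟩
  set D : Fin m → Fin m → ℝ := fun t t' => dist (s t) (s t') with hD
  have hPM : PM D := ⟨fun x => dist_self _, fun x y => dist_comm _ _,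
    fun x y z => dist_triangle _ _ _⟩
  obtain ⟨hK1, Ω, fΩ, w, c, hw0, hw1, hmain⟩ := copies_aux m hm cap hcap n hn K D hPM hs hK
  have hp : ∀ x : N, ∃ t : (j : Fin m) × Fin (cap j), ∀ t' : (j : Fin m) × Fin (cap j),
      dist x (s t.1) ≤ dist x (s t'.1) := by
    intro x
    obtain ⟨t, -, ht⟩ := Finset.exists_min_image (Finset.univ : Finset ((j : Fin m) × Fin (cap j)))
      (fun t => dist x (s t.1)) Finset.univ_nonempty
    exact ⟨t, fun t' => ht t' (Finset.mem_univ _)⟩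
  choose p hp using hp
  refine ⟨Ω, fΩ, w, fun ω x l => (srv (c ω) (p x) (l.map p)).1, hw0, hw1, ?_, ?_⟩
  · intro ω l hl j
    have := hSrv _ (c ω) (l.map p) (by rw [hcard]; simpa using hl)
    rw [assigned_eq cap p (c ω) l]
    exact hCount m cap _ this.1 j
  · intro l τ hlen hresp
    obtain ⟨τ', hnd, hmap⟩ := hCopies m cap τ hresp
    have hlen' : τ'.length = l.length := by
      rw [← hlen, ← hmap, List.length_map]
    obtain ⟨ho1, ho2⟩ := opt_cost cap s p hp l τ' hlen'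
    rw [hmap] at ho1 ho2
    have hcardl : (l.map p).length ≤ Fintype.card ((j : Fin m) × Fin (cap j)) := by
      rw [List.length_map, ← hlen']
      exact hnd.length_le_card
    have h1 := hmain (l.map p) hcardl
    have h2 : optv (pull Sigma.fst D) (l.map p) ≤ acost (pull Sigma.fst D) (l.map p) τ' :=
      (hB _ (pull Sigma.fst D) (l.map p)).1 τ' ⟨by rw [List.length_map, hlen'], hnd⟩
    have hsum : ∑ ω, w ω * cost s l (assigned (fun x l => (srv (c ω) (p x) (l.map p)).1) l) ≤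
        (l.map (fun x => dist x (s (p x).1))).sum +
          ∑ ω, w ω * tcost (pull Sigma.fst D) (c ω) (l.map p) := by
      calc ∑ ω, w ω * cost s l (assigned (fun x l => (srv (c ω) (p x) (l.map p)).1) l)
          ≤ ∑ ω, w ω * ((l.map (fun x => dist x (s (p x).1))).sum +
              tcost (pull Sigma.fst D) (c ω) (l.map p)) :=
            Finset.sum_le_sum fun ω _ => mul_le_mul_of_nonneg_left
              (alg_cost cap s p (c ω) l) (hw0 ω)
        _ = _ := by
            simp only [mul_add]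
            rw [Finset.sum_add_distrib, ← Finset.sum_mul, hw1, one_mul]
    have hM1 : (1 : ℝ) ≤ (m : ℝ) := by exact_mod_cast hm
    have hlog : 0 ≤ Real.log (m : ℝ) := Real.log_nonneg hM1
    have hn1 : (1 : ℝ) ≤ (n : ℝ) := by exact_mod_cast hn
    have hC := cost_nonneg s l τ
    set X : ℝ := Real.log (m : ℝ) with hX
    have hKX : 1 ≤ K * (X + n) := by nlinarith
    have hR0 : 0 ≤ 6336 * K * (X + n) + 1 := by nlinarith
    have h3 : ∑ ω, w ω * tcost (pull Sigma.fst D) (c ω) (l.map p) ≤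
        (6336 * K * (X + n) + 1) * (2 * cost s l τ) :=
      h1.trans (mul_le_mul_of_nonneg_left (h2.trans ho1) hR0)
    have h4 : 1 + 2 * (6336 * K * (X + n) + 1) ≤ 12700 * K * (X + n) := by nlinarith
    calc ∑ ω, w ω * cost s l (assigned (fun x l => (srv (c ω) (p x) (l.map p)).1) l)
        ≤ cost s l τ + (6336 * K * (X + n) + 1) * (2 * cost s l τ) := by
          linarith
      _ = (1 + 2 * (6336 * K * (X + n) + 1)) * cost s l τ := by ring
      _ ≤ 12700 * K * (X + n) * cost s l τ := mul_le_mul_of_nonneg_right h4 hC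


/-- Few distance scales: the distances between the sites lie in at most `β` intervals
`[4^k, 4^(k+1))`; or the `p`-th power of the distance satisfies the triangle inequality, with
`4p/(p-1) ≤ β`. -/
theorem snowTop {N : Type*} [MetricSpace N] (m : ℕ) (hm : 0 < m) (s : Fin m → N)
    (cap : Fin m → ℕ) (hcap : ∀ j, 0 < cap j) (β : ℝ) (hβ : 1 ≤ β)
    (hs : (∃ Z : Finset ℤ, (Z.card : ℝ) ≤ β ∧ ∀ i j, dist (s i) (s j) = 0 ∨
        ∃ k ∈ Z, (4 : ℝ) ^ k ≤ dist (s i) (s j) ∧ dist (s i) (s j) < (4 : ℝ) ^ (k + 1)) ∨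
      ∃ p : ℝ, 1 < p ∧ 4 * p / (p - 1) ≤ β ∧
        ∀ i j k, dist (s i) (s k) ^ p ≤ dist (s i) (s j) ^ p + dist (s j) (s k) ^ p) :
    ∃ (Ω : Type) (_ : Fintype Ω) (w : Ω → ℝ) (A : Ω → N → List N → Fin m),
      (∀ ω, 0 ≤ w ω) ∧ ∑ ω, w ω = 1 ∧
      (∀ ω l, l.length ≤ ∑ j, cap j → Respects cap (assigned (A ω) l)) ∧
      ∀ (l : List N) (τ : List (Fin m)), τ.length = l.length → Respects cap τ →
        ∑ ω, w ω * cost s l (assigned (A ω) l) ≤
          120000 * β * (1 + Real.log m) * cost s l τ := by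
  classical
  have hM1 : (1 : ℝ) ≤ (m : ℝ) := by exact_mod_cast hm
  have hlog : 0 ≤ Real.log (m : ℝ) := Real.log_nonneg hM1
  have hnat : ((Nat.log 2 m : ℕ) : ℝ) ≤ 1.4428 * Real.log m := by
    have h1 : ((2 : ℝ) ^ (Nat.log 2 m)) ≤ m := by
      exact_mod_cast Nat.pow_log_le_self 2 (by omega)
    have h2 := Real.log_le_log (by positivity) h1
    rw [Real.log_pow] at h2
    have h3 := Real.log_two_gt_d9
    nlinarith [Nat.cast_nonneg (α := ℝ) (Nat.log 2 m)]
  -- the number of scales, at most log_2 m + 6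
  have key : ∀ (n : ℕ), 0 < n → (n : ℝ) ≤ Nat.log 2 m + 6 → ∀ (_ : Nat.log 2 m + 6 ≤ n ∨
      ∃ Z : Finset ℤ, Z.card ≤ n ∧ ∀ i j, dist (s i) (s j) = 0 ∨
      ∃ k ∈ Z, (4 : ℝ) ^ k ≤ dist (s i) (s j) ∧ dist (s i) (s j) < (4 : ℝ) ^ (k + 1))
      (_ : (n : ℝ) ≤ β ∨ ∃ p : ℝ, 1 < p ∧ 4 * p / (p - 1) ≤ β ∧ ∀ i j k,
      dist (s i) (s k) ^ p ≤ dist (s i) (s j) ^ p + dist (s j) (s k) ^ p),
    ∃ (Ω : Type) (_ : Fintype Ω) (w : Ω → ℝ) (A : Ω → N → List N → Fin m),
      (∀ ω, 0 ≤ w ω) ∧ ∑ ω, w ω = 1 ∧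
      (∀ ω l, l.length ≤ ∑ j, cap j → Respects cap (assigned (A ω) l)) ∧
      ∀ (l : List N) (τ : List (Fin m)), τ.length = l.length → Respects cap τ →
        ∑ ω, w ω * cost s l (assigned (A ω) l) ≤
          120000 * β * (1 + Real.log m) * cost s l τ := by
    intro n hn hn' ha hb
    obtain ⟨Ω, fΩ, w, A, h1, h2, h3, h4⟩ := main_aux optBasic
      (fun T _ _ _ c l hl => srvs_spec (usedP (augOpt augment optBasic)) T c l hl) copies
      copies_count m hm s cap hcap n hn β ha hb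
    refine ⟨Ω, fΩ, w, A, h1, h2, h3, fun l τ hl hτ => (h4 l τ hl hτ).trans ?_⟩
    refine mul_le_mul_of_nonneg_right ?_ (cost_nonneg s l τ)
    have hb0 : 0 ≤ β := by linarith
    have h5 : Real.log m + (n : ℝ) ≤ 6 * (1 + Real.log m) := by linarith
    nlinarith [mul_le_mul_of_nonneg_left h5 hb0, mul_nonneg hb0 hlog]
  by_cases hbig : (Nat.log 2 m : ℝ) + 6 ≤ β
  · exact key (Nat.log 2 m + 6) (by omega) (by push_cast; exact le_rfl) (Or.inl le_rfl)
      (Or.inl (by push_cast; exact hbig))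
  · push Not at hbig
    rcases hs with ⟨Z, hZ, hZ2⟩ | hp
    · refine key (max Z.card 1) (by simp) ?_ (Or.inr ⟨Z, le_max_left _ _, hZ2⟩) (Or.inl ?_)
      · push_cast
        refine max_le (by linarith) ?_
        have : (0 : ℝ) ≤ Nat.log 2 m := Nat.cast_nonneg _
        linarith
      · push_cast
        exact max_le hZ hβ
    · exact key (Nat.log 2 m + 6) (by omega) (by push_cast; exact le_rfl) (Or.inl le_rfl) (Or.inr hp)

end Pool.Agent.MP_a4c1f4_lc.Snow.TopP
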